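import Pool.Agent.Tube.Sp

/-!
# Irreducible symplectic Lie algebras of tube type: the theorem
-/

set_option autoImplicit false
set_option linter.unusedSectionVars false

namespace Pool.Agent.Tube

open Pool.Agent.OddRank

variable {K V : Type*} [Field K] [CharZero K] [IsAlgClosed K] [AddCommGroup V] [Module K V]
  [FiniteDimensional K V]

namespace GD

variable {ψ : V →ₗ[K] V →ₗ[K] K} {g : Submodule K (Module.End K V)} {e : Module.End K V}
  (H : GD ψ g e) {x : Module.End K V} (hx : x ∈ gp g e)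
  (hinj : ∀ v, e v = 0 → x v = 0 → v = 0)
  (hirr : ∀ W : Submodule K V, (∀ a ∈ gp g e, ∀ w ∈ W, a w ∈ W) →
    (∀ a ∈ gm g e, ∀ w ∈ W, a w ∈ W) → W = ⊥ ∨ W = ⊤)
include H hx hinj hirr

/-- the Jordan algebra -/
theorem jd [Nontrivial V] : JD (ψ.comp x) (1 - e) (JJ g e x) := by
  have hnd := trace_nondeg g H.hlie fun W hW =>
    hirr W (fun a ha => hW a ha.1) (fun a ha => hW a ha.1)
  obtain ⟨y, hy, hyx, hxy⟩ := H.exists_inv hx hinj hirr
  have hex := hx.2.1
  have hxe := hx.2.2
  have hey := hy.2.1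
  have hye := hy.2.2
  have hff : (1 - e) * (1 - e) = 1 - e := by
    rw [mul_sub, mul_one, sub_mul, one_mul, H.hee, sub_self, sub_zero]
  have hef : e * (1 - e) = 0 := by rw [mul_sub, mul_one, H.hee, sub_self]
  have hfe : (1 - e) * e = 0 := by rw [sub_mul, one_mul, H.hee, sub_self]
  have hxf : x * (1 - e) = x := by rw [mul_sub, mul_one, hxe, sub_zero]
  have hfy : (1 - e) * y = y := by rw [sub_mul, one_mul, hey, sub_zero]
  have hxl : ∀ b : Module.End K V, e * b = 0 → x * b = 0 → b = 0 := by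
    intro b h1 h2
    ext v
    exact hinj _ (LinearMap.congr_fun h1 v) (LinearMap.congr_fun h2 v)
  -- elements of `J` give elements of degree one
  have hJg : ∀ a ∈ JJ g e x, x * a ∈ gp g e := by
    intro a ha
    refine ⟨ha.2.2, by rw [← mul_assoc, hex], ?_⟩
    rw [← ha.2.1, mul_assoc, mul_assoc, hfe, mul_zero, mul_zero]
  have hgJ : ∀ a ∈ gp g e, y * a ∈ JJ g e x := by
    intro a ha
    refine ⟨by rw [← mul_assoc, hfy], by rw [mul_assoc, mul_sub, mul_one, ha.2.2, sub_zero], ?_⟩
    rw [← mul_assoc, hxy, ha.2.1]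
    exact ha.1
  have hgJ' : ∀ b ∈ gm g e, b * x ∈ JJ g e x := by
    intro b hb
    refine ⟨by rw [sub_mul, one_mul, ← mul_assoc, hb.2.1, zero_mul, sub_zero], by
      rw [mul_assoc, hxf], ?_⟩
    have h1 := H.quad hx hb.1 hx
    rw [mul_assoc] at h1
    exact JD.half_mem h1
  have hfix : ∀ w ∈ LinearMap.range (1 - e), (1 - e) w = w := by
    rintro _ ⟨z, rfl⟩
    exact LinearMap.congr_fun hff z
  refine ⟨?_, ?_, ?_, ?_, ?_, ?_, ?_, ?_, ?_, ?_⟩
  · -- `f ≠ 0`
    intro h
    have h1 : (1 : Module.End K V) = e := sub_eq_zero.1 h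
    obtain ⟨v, hv⟩ := exists_ne (0 : V)
    apply hv
    apply H.hnd
    intro w
    have h2 := H.heψ v w
    rw [← h1] at h2
    simp only [Module.End.one_apply] at h2
    linear_combination h2
  · exact ⟨hff, hff, by rw [hxf]; exact hx.1⟩
  · exact fun a ha => ha.1
  · exact fun a ha => ha.2.1
  · intro a ha b hb
    refine ⟨by rw [mul_add, ← mul_assoc, ← mul_assoc, ha.1, hb.1], by
      rw [add_mul, mul_assoc, mul_assoc, ha.2.1, hb.2.1], ?_⟩
    have h1 := H.quad (hJg a ha) hy.1 (hJg b hb)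
    have h2 : ∀ c, c ∈ JJ g e x → y * (x * c) = c := by
      intro c hc
      rw [← mul_assoc, hyx, hc.1]
    rw [mul_assoc (x * a), mul_assoc (x * b), h2 b hb, h2 a ha] at h1
    rw [mul_add, ← mul_assoc, ← mul_assoc]
    exact h1
  · intro u v
    change ψ (x u) v = ψ (x v) u
    have h1 := H.skew1 hx u v
    rw [H.neg (x v) u]
    linear_combination h1
  · intro a ha u v
    change ψ (x (a u)) v = ψ (x u) (a v)
    have h1 := H.skew1 (hJg a ha) u v
    have h2 := H.skew1 hx u (a v)
    rw [Module.End.mul_apply, Module.End.mul_apply] at h1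
    linear_combination h1 - h2
  · intro v hv
    have h1 : x v = 0 := H.hnd _ fun w => hv w
    refine hinj _ ?_ ?_
    · rw [← Module.End.mul_apply, hef, LinearMap.zero_apply]
    · rw [← Module.End.mul_apply, hxf, h1]
  · intro W hW hst
    have hmap : ∀ w ∈ W, x w ∈ W ⊔ W.map x := fun w hw =>
      Submodule.mem_sup_right ⟨w, hw, rfl⟩
    have hsup : ∀ w ∈ W, w ∈ W ⊔ W.map x := fun w hw => Submodule.mem_sup_left hw
    have hstab : ∀ a : Module.End K V, (∀ w ∈ W, a w ∈ W ⊔ W.map x) →
        (∀ w ∈ W, a (x w) ∈ W ⊔ W.map x) → ∀ z ∈ W ⊔ W.map x, a z ∈ W ⊔ W.map x := by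
      intro a h1 h2 z hz
      obtain ⟨w, hw, z', ⟨w', hw', rfl⟩, rfl⟩ := Submodule.mem_sup.1 hz
      rw [map_add]
      exact Submodule.add_mem _ (h1 w hw) (h2 w' hw')
    have h0 : ∀ w ∈ W, e w = 0 := by
      intro w hw
      rw [← hfix w (hW hw), ← Module.End.mul_apply, hef, LinearMap.zero_apply]
    rcases hirr (W ⊔ W.map x) (fun a ha => hstab a (fun w hw => by
        have h1 : a = x * (y * a) := by rw [← mul_assoc, hxy, ha.2.1]
        rw [h1]
        exact hmap _ (hst _ (hgJ a ha) w hw)) (fun w hw => by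
        rw [← Module.End.mul_apply, ← hex, ← mul_assoc, ha.2.2, zero_mul, LinearMap.zero_apply]
        exact Submodule.zero_mem _)) (fun b hb => hstab b (fun w hw => by
        rw [← hb.2.2, Module.End.mul_apply, h0 w hw, map_zero]
        exact Submodule.zero_mem _) (fun w hw => by
        rw [← Module.End.mul_apply]
        exact hsup _ (hst _ (hgJ' b hb) w hw))) with h | h
    · left
      rw [eq_bot_iff, ← h]
      exact le_sup_left
    · right
      refine le_antisymm hW ?_
      rintro _ ⟨z, rfl⟩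
      have h1 : (1 - e) z ∈ W ⊔ W.map x := by rw [h]; exact Submodule.mem_top
      obtain ⟨w, hw, z', ⟨w', hw', rfl⟩, h2⟩ := Submodule.mem_sup.1 h1
      have h3 : (1 - e) ((1 - e) z) = (1 - e) z := by
        rw [← Module.End.mul_apply, hff]
      have h4 : (1 - e) (x w') = 0 := by
        rw [← Module.End.mul_apply, sub_mul, one_mul, hex, sub_self, LinearMap.zero_apply]
      rw [← h3, ← h2, map_add, h4, add_zero, hfix w (hW hw)]
      exact hw
  · intro a ha h
    have h1 : x * a = 0 := by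
      refine hnd _ ha.2.2 fun c hc => ?_
      have h2 := h _ (hgJ' _ (H.f_mem c hc))
      have h3 : LinearMap.trace K V (x * a * c) =
          LinearMap.trace K V (a * ((1 - e) * c * e * x)) := by
        have h4 : a * ((1 - e) * c * e * x) = a * (1 - e) * c * (e * x) := by
          simp only [mul_assoc]
        rw [h4, ha.2.1, hex, LinearMap.trace_mul_comm K (a * c) x, ← mul_assoc]
      rw [h3, h2]
    refine hxl a ?_ h1
    rw [← ha.1, ← mul_assoc, hef, zero_mul]

/-- the dichotomy -/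
theorem alt [Nontrivial V] : (∃ p ∈ JJ g e x, p * p = p ∧
    Module.finrank K (LinearMap.range p) = 1) ∨
      ∃ m, 5 ≤ m ∧ (m % 4 = 1 ∨ m % 4 = 2) ∧ Module.finrank K V = 2 ^ m := by
  obtain ⟨y, hy, hyx, hxy⟩ := H.exists_inv hx hinj hirr
  rcases (H.jd hx hinj hirr).main with h | ⟨k, hk, hk4, h⟩
  · exact Or.inl h
  · right
    refine ⟨k + 1, by omega, by omega, ?_⟩
    have hff : (1 - e) * (1 - e) = 1 - e := by
      rw [mul_sub, mul_one, sub_mul, one_mul, H.hee, sub_self, sub_zero]
    have h1 := idem_trace hff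
    have h2 : (Module.finrank K V : K) = 2 * (Module.finrank K (LinearMap.range (1 - e)) : K) := by
      rw [← h1, ← LinearMap.trace_one K V]
      have h3 : LinearMap.trace K V e = LinearMap.trace K V (1 - e) := by
        rw [← hyx, LinearMap.trace_mul_comm, hxy]
      have h4 : (1 : Module.End K V) = e + (1 - e) := by abel
      conv_lhs => rw [h4]
      rw [map_add, h3, two_mul]
    have h3 : Module.finrank K V = 2 * Module.finrank K (LinearMap.range (1 - e)) := by
      exact_mod_cast h2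
    rw [h3, h, pow_succ, mul_comm]

/-- an element of rank one -/
theorem exists_mm {p : Module.End K V} (hp : p ∈ JJ g e x) (hpp : p * p = p)
    (hrk : Module.finrank K (LinearMap.range p) = 1) : ∃ w, w ≠ 0 ∧ mm ψ w w ∈ g := by
  have hex := hx.2.1
  have hxe := hx.2.2
  have hN : x * p ∈ gp g e := by
    refine ⟨hp.2.2, by rw [← mul_assoc, hex], ?_⟩
    rw [← hp.2.1, mul_assoc, mul_assoc]
    have hfe : (1 - e) * e = 0 := by rw [sub_mul, one_mul, H.hee, sub_self]
    rw [hfe, mul_zero, mul_zero]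
  obtain ⟨z, hz⟩ : ∃ z, p z ≠ 0 := by
    by_contra hcon
    push Not at hcon
    have h1 : p = 0 := LinearMap.ext hcon
    rw [h1, LinearMap.range_zero, finrank_bot] at hrk
    exact absurd hrk (by norm_num)
  have hspan : K ∙ p z = LinearMap.range p := by
    refine Submodule.eq_of_le_of_finrank_eq ?_ ?_
    · rw [Submodule.span_singleton_le_iff_mem]
      exact ⟨z, rfl⟩
    · rw [finrank_span_singleton hz, hrk]
  have hw0 : x (p z) ≠ 0 := by
    intro h
    refine hz (hinj _ ?_ h)
    rw [← Module.End.mul_apply, ← hp.1, ← mul_assoc]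
    have hef : e * (1 - e) = 0 := by rw [mul_sub, mul_one, H.hee, sub_self]
    rw [hef, zero_mul, LinearMap.zero_apply]
  obtain ⟨w, hw⟩ : ∃ w, w = x (p z) := ⟨_, rfl⟩
  rw [← hw] at hw0
  have hc : ∀ v, ∃ c : K, (x * p) v = c • w := by
    intro v
    have h1 : p v ∈ K ∙ p z := by rw [hspan]; exact ⟨v, rfl⟩
    obtain ⟨c, hc⟩ := Submodule.mem_span_singleton.1 h1
    exact ⟨c, by rw [Module.End.mul_apply, ← hc, map_smul, hw]⟩
  choose c hc using hc
  obtain ⟨v₀, hv₀⟩ : ∃ v₀, ψ w v₀ ≠ 0 := by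
    by_contra hcon
    push Not at hcon
    exact hw0 (H.hnd w hcon)
  have hcv : ∀ v, c v = c v₀ / ψ w v₀ * ψ w v := by
    intro v
    have h1 := H.skew1 hN v v₀
    rw [hc, hc, map_smul, map_smul, LinearMap.smul_apply, smul_eq_mul, smul_eq_mul,
      H.neg v w] at h1
    field_simp
    linear_combination h1
  have hc0 : c v₀ / ψ w v₀ ≠ 0 := by
    intro h
    have h1 := hc (p z)
    rw [hcv, h, zero_mul, zero_smul, Module.End.mul_apply, ← Module.End.mul_apply p, hpp, ← hw]
      at h1
    exact hw0 h1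
  refine ⟨w, hw0, ?_⟩
  have h1 : mm ψ w w = (2 * (c v₀ / ψ w v₀)⁻¹) • (x * p) := by
    ext v
    rw [mm_apply, LinearMap.smul_apply, hc v, hcv v, ← add_smul, smul_smul]
    congr 1
    have h2 : 2 * (c v₀ / ψ w v₀)⁻¹ * (c v₀ / ψ w v₀ * ψ w v) =
        2 * ((c v₀ / ψ w v₀)⁻¹ * (c v₀ / ψ w v₀)) * ψ w v := by ring
    rw [h2, inv_mul_cancel₀ hc0]
    ring
  rw [h1]
  exact g.smul_mem _ hp.2.2

/-- **Tube type.** An irreducible Lie algebra of symplectic similitudes with an invertible element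
of degree one is everything, unless the dimension is `2 ^ m` with `m ≥ 5` congruent to one or two
modulo four. -/
theorem skew_mem_of_tube4
    (hdim : ∀ m, 5 ≤ m → m % 4 = 1 ∨ m % 4 = 2 → Module.finrank K V ≠ 2 ^ m)
    {D : Module.End K V} (hD : ∀ u v, ψ (D u) v + ψ u (D v) = 0) : D ∈ g := by
  rcases subsingleton_or_nontrivial V with hV | hV
  · have : D = 0 := by
      ext v
      exact Subsingleton.elim _ _
    rw [this]
    exact g.zero_mem
  rcases H.alt hx hinj hirr with ⟨p, hp, hpp, hrk⟩ | ⟨m, hm, hm4, h⟩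
  swap
  · exact absurd h (hdim m hm hm4)
  obtain ⟨w, hw0, hw⟩ := H.exists_mm hx hinj hirr hp hpp hrk
  refine skew_mem H.halt H.hnd ?_ hD
  refine mm_mem (G := {c | c * c = c ∧ (∀ u v, ψ (c u) v + ψ u (c v) = ψ u v) ∧
    ∀ b ∈ g, c * b - b * c ∈ g}) H.halt H.hnd H.hlie (fun c hc => hc.2.2) (fun c hc => hc.1)
    (fun c hc => hc.2.1) ?_ hw0 hw
  intro W hW
  have heW : ∀ v ∈ W, e v ∈ W := fun v hv => hW e ⟨H.hee, H.heψ, H.heg⟩ v hv
  refine hirr W ?_ ?_
  · intro a ha v hv
    have h1 := hW (e - a) ⟨?_, ?_, ?_⟩ v hv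
    · rw [LinearMap.sub_apply] at h1
      have h2 := W.sub_mem (heW v hv) h1
      rwa [sub_sub_cancel] at h2
    · have h2 : a * a = 0 := by
        rw [← ha.2.1, ← mul_assoc, mul_assoc e a e, ha.2.2, mul_zero, zero_mul]
      rw [mul_sub, sub_mul, sub_mul, H.hee, ha.2.1, ha.2.2, h2, sub_zero, sub_zero]
    · intro u v
      have h2 := H.heψ u v
      have h3 := H.skew1 ha u v
      simp only [LinearMap.sub_apply, map_sub]
      linear_combination h2 - h3
    · intro b hb
      have h2 : (e - a) * b - b * (e - a) = (e * b - b * e) - (a * b - b * a) := by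
        noncomm_ring
      rw [h2]
      exact g.sub_mem (H.heg b hb) (H.hlie a ha.1 b hb)
  · intro a ha v hv
    have h1 := hW (e + a) ⟨?_, ?_, ?_⟩ v hv
    · rw [LinearMap.add_apply] at h1
      have h2 := W.sub_mem h1 (heW v hv)
      rwa [add_sub_cancel_left] at h2
    · have h2 : a * a = 0 := by
        rw [← ha.2.2, ← mul_assoc, mul_assoc a e a, ha.2.1, mul_zero, zero_mul]
      rw [mul_add, add_mul, add_mul, H.hee, ha.2.1, ha.2.2, h2, add_zero, add_zero]
    · intro u v
      have h2 := H.heψ u v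
      have h3 := H.skewm ha u v
      simp only [LinearMap.add_apply, map_add]
      linear_combination h2 + h3
    · intro b hb
      have h2 : (e + a) * b - b * (e + a) = (e * b - b * e) + (a * b - b * a) := by
        noncomm_ring
      rw [h2]
      exact g.add_mem (H.heg b hb) (H.hlie a ha.1 b hb)

/-- **Tube type.** An irreducible Lie algebra of symplectic similitudes with an invertible element
of degree one is everything, unless the dimension is a power of two, at least `32`. -/
theorem skew_mem_of_tube (hdim : ∀ m, 5 ≤ m → Module.finrank K V ≠ 2 ^ m)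
    {D : Module.End K V} (hD : ∀ u v, ψ (D u) v + ψ u (D v) = 0) : D ∈ g :=
  H.skew_mem_of_tube4 hx hinj hirr (fun m hm _ => hdim m hm) hD

end GD

end Pool.Agent.Tube
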