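import Pool.Agent.OddRank.RankTwo

/-!
# Irreducible Clifford modules
-/

set_option autoImplicit false
set_option linter.unusedSectionVars false

namespace Pool.Agent.Tube

variable {K V : Type*} [Field K] [CharZero K] [AddCommGroup V] [Module K V]

/-- a space of operators with scalar squares, acting irreducibly on the range of `p` -/
structure Cl (p : Module.End K V) (S : Submodule K (Module.End K V)) : Prop where
  pp : p * p = p
  p0 : p ≠ 0
  ps : ∀ s ∈ S, p * s = s
  sp : ∀ s ∈ S, s * p = s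
  sq : ∀ s ∈ S, ∃ κ : K, s * s = κ • p
  irr : ∀ W : Submodule K V, W ≤ LinearMap.range p → (∀ s ∈ S, ∀ w ∈ W, s w ∈ W) →
    W = ⊥ ∨ W = LinearMap.range p

/-- the idempotent `(p + s) / 2` -/
def pl (p s : Module.End K V) : Module.End K V := (2⁻¹ : K) • (p + s)

/-- the smaller Clifford module -/
def TT (p s t : Module.End K V) (S : Submodule K (Module.End K V)) :
    Submodule K (Module.End K V) where
  carrier := {τ | ∃ w ∈ S, s * w + w * s = 0 ∧ t * w + w * t = 0 ∧ t * w * pl p s = τ}
  add_mem' := by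
    rintro _ _ ⟨a, ha, h1, h2, rfl⟩ ⟨b, hb, h3, h4, rfl⟩
    refine ⟨a + b, S.add_mem ha hb, ?_, ?_, ?_⟩
    · have : s * (a + b) + (a + b) * s = (s * a + a * s) + (s * b + b * s) := by noncomm_ring
      rw [this, h1, h3, add_zero]
    · have : t * (a + b) + (a + b) * t = (t * a + a * t) + (t * b + b * t) := by noncomm_ring
      rw [this, h2, h4, add_zero]
    · rw [mul_add, add_mul]
  zero_mem' := ⟨0, S.zero_mem, by simp, by simp, by simp⟩
  smul_mem' := by
    rintro c _ ⟨a, ha, h1, h2, rfl⟩
    refine ⟨c • a, S.smul_mem c ha, ?_, ?_, ?_⟩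
    · rw [mul_smul_comm, smul_mul_assoc, ← smul_add, h1, smul_zero]
    · rw [mul_smul_comm, smul_mul_assoc, ← smul_add, h2, smul_zero]
    · rw [mul_smul_comm, smul_mul_assoc]

theorem mem_TT {p s t : Module.End K V} {S : Submodule K (Module.End K V)}
    {τ : Module.End K V} : τ ∈ TT p s t S ↔
    ∃ w ∈ S, s * w + w * s = 0 ∧ t * w + w * t = 0 ∧ t * w * pl p s = τ := Iff.rfl

theorem idem_trace [FiniteDimensional K V] {p : Module.End K V} (hpp : p * p = p) :
    LinearMap.trace K V p = Module.finrank K (LinearMap.range p) :=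
  LinearMap.IsProj.trace (LinearMap.isProj_range_iff_isIdempotentElem p |>.2 hpp)

namespace Cl

variable {p : Module.End K V} {S : Submodule K (Module.End K V)}

section Basic

variable (C : Cl p S)
include C

theorem fix {w : V} (hw : w ∈ LinearMap.range p) : p w = w := by
  obtain ⟨y, rfl⟩ := hw
  exact LinearMap.congr_fun C.pp y

theorem pol {s t : Module.End K V} (hs : s ∈ S) (ht : t ∈ S) : ∃ β : K, s * t + t * s = β • p := by
  obtain ⟨a, ha⟩ := C.sq s hs
  obtain ⟨b, hb⟩ := C.sq t ht
  obtain ⟨c, hc⟩ := C.sq (s + t) (S.add_mem hs ht)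
  refine ⟨c - a - b, ?_⟩
  rw [sub_smul, sub_smul, ← hc, ← ha, ← hb]
  noncomm_ring

/-- if everything acts by scalars on vectors the rank is one -/
theorem line (h : ∀ s ∈ S, ∀ w ∈ LinearMap.range p, ∃ c : K, s w = c • w) :
    Module.finrank K (LinearMap.range p) = 1 := by
  obtain ⟨x, hx⟩ : ∃ x, p x ≠ 0 := by
    by_contra hcon
    push Not at hcon
    exact C.p0 (LinearMap.ext hcon)
  rcases C.irr (K ∙ p x) (by
      rw [Submodule.span_singleton_le_iff_mem]
      exact ⟨x, rfl⟩) (by
      intro s hs w hw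
      obtain ⟨c, hc⟩ := h s hs w (by
        obtain ⟨a, rfl⟩ := Submodule.mem_span_singleton.1 hw
        exact Submodule.smul_mem _ _ ⟨x, rfl⟩)
      rw [hc]
      exact Submodule.smul_mem _ _ hw) with h1 | h1
  · rw [Submodule.span_singleton_eq_bot] at h1
    exact absurd h1 hx
  · rw [← h1, finrank_span_singleton hx]

theorem nil0 {t : Module.End K V} (ht : t ∈ S) (htt : t * t = 0)
    (h : ∀ s ∈ S, s * t + t * s = 0) : t = 0 := by
  rcases C.irr (LinearMap.range p ⊓ LinearMap.ker t) inf_le_left (by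
      rintro s hs w ⟨_, hw⟩
      replace hw : t w = 0 := hw
      refine ⟨by rw [← C.ps s hs]; exact ⟨s w, rfl⟩, ?_⟩
      change t (s w) = 0
      have h1 := LinearMap.congr_fun (h s hs) w
      rwa [LinearMap.add_apply, Module.End.mul_apply, Module.End.mul_apply, hw, map_zero,
        zero_add, LinearMap.zero_apply] at h1) with h1 | h1
  · ext x
    have h2 : t x ∈ LinearMap.range p ⊓ LinearMap.ker t :=
      ⟨by rw [← C.ps t ht]; exact ⟨t x, rfl⟩, by
        change t (t x) = 0
        rw [← Module.End.mul_apply, htt, LinearMap.zero_apply]⟩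
    rw [h1, Submodule.mem_bot] at h2
    rw [h2, LinearMap.zero_apply]
  · ext x
    have h2 : p x ∈ LinearMap.range p ⊓ LinearMap.ker t := by rw [h1]; exact ⟨x, rfl⟩
    have h3 : t (p x) = 0 := h2.2
    rw [← Module.End.mul_apply, C.sp t ht] at h3
    rw [h3, LinearMap.zero_apply]

end Basic

theorem sqrt_smul [IsAlgClosed K] {s : Module.End K V} (hs : s ∈ S) {κ : K} (hκ : κ ≠ 0)
    (h : s * s = κ • p) : ∃ c : K, c • s ∈ S ∧ (c • s) * (c • s) = p := by
  obtain ⟨r, hr⟩ := IsAlgClosed.exists_pow_nat_eq κ (n := 2) (by norm_num)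
  have hr0 : r ≠ 0 := by
    rintro rfl
    exact hκ (by rw [← hr]; ring)
  refine ⟨r⁻¹, S.smul_mem _ hs, ?_⟩
  rw [mul_smul_comm, smul_mul_assoc, h, ← hr, smul_smul, smul_smul,
    show r⁻¹ * r⁻¹ * r ^ 2 = 1 by field_simp, one_smul]

/-- the dichotomy -/
theorem step [IsAlgClosed K] (C : Cl p S) : Module.finrank K (LinearMap.range p) = 1 ∨
    ∃ s ∈ S, ∃ t ∈ S, s * s = p ∧ t * t = p ∧ s * t + t * s = 0 := by
  by_cases h : ∀ s ∈ S, s * s = 0
  · left
    refine C.line fun s hs w _ => ⟨0, ?_⟩
    have h1 : s = 0 := C.nil0 hs (h s hs) fun s' hs' => by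
      have h2 := h (s' + s) (S.add_mem hs' hs)
      have h3 : (s' + s) * (s' + s) = s' * s' + s * s + (s' * s + s * s') := by noncomm_ring
      rw [h3, h s' hs', h s hs, zero_add, zero_add] at h2
      exact h2
    rw [h1, LinearMap.zero_apply, zero_smul]
  · push Not at h
    obtain ⟨s₀, hs₀, h0⟩ := h
    obtain ⟨κ, hκ⟩ := C.sq s₀ hs₀
    have hκ0 : κ ≠ 0 := by
      rintro rfl
      exact h0 (by rw [hκ, zero_smul])
    obtain ⟨c, hcs, hcss⟩ := sqrt_smul hs₀ hκ0 hκ
    obtain ⟨s, hs, hss⟩ : ∃ s ∈ S, s * s = p := ⟨_, hcs, hcss⟩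
    -- the decomposition with respect to `s`
    have hdec : ∀ x ∈ S, ∃ β : K, s * (x - β • s) + (x - β • s) * s = 0 := by
      intro x hx
      obtain ⟨β, hβ⟩ := C.pol hs hx
      refine ⟨2⁻¹ * β, ?_⟩
      rw [mul_sub, sub_mul, mul_smul_comm, smul_mul_assoc, hss]
      have : s * x - (2⁻¹ * β) • p + (x * s - (2⁻¹ * β) • p) = β • p - (2⁻¹ * β + 2⁻¹ * β) • p := by
        rw [← hβ]
        module
      rw [this, ← sub_smul, show β - (2⁻¹ * β + 2⁻¹ * β) = 0 by ring, zero_smul]
    by_cases h2 : ∀ t ∈ S, s * t + t * s = 0 → t * t = 0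
    · left
      -- every element is a multiple of `s`
      have h3 : ∀ x ∈ S, ∃ β : K, x = β • s := by
        intro x hx
        obtain ⟨β, hβ⟩ := hdec x hx
        refine ⟨β, sub_eq_zero.1 ?_⟩
        have ht : x - β • s ∈ S := S.sub_mem hx (S.smul_mem _ hs)
        obtain ⟨t, htdef⟩ : ∃ t, t = x - β • s := ⟨_, rfl⟩
        rw [← htdef] at ht hβ ⊢
        refine C.nil0 ht (h2 _ ht hβ) fun y hy => ?_
        obtain ⟨γ, hγ⟩ := hdec y hy
        have hy' : y - γ • s ∈ S := S.sub_mem hy (S.smul_mem _ hs)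
        obtain ⟨z, hzdef⟩ : ∃ z, z = y - γ • s := ⟨_, rfl⟩
        have hyz : y = z + γ • s := by rw [hzdef, sub_add_cancel]
        rw [← hzdef] at hγ hy'
        have h4 := h2 (z + t) (S.add_mem hy' ht) (by
          have : s * (z + t) + (z + t) * s = (s * z + z * s) + (s * t + t * s) := by
            noncomm_ring
          rw [this, hγ, hβ, add_zero])
        have h5 : (z + t) * (z + t) = z * z + t * t + (z * t + t * z) := by noncomm_ring
        rw [h5, h2 _ hy' hγ, h2 _ ht hβ, zero_add, zero_add] at h4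
        have h6 : y * t + t * y = (z * t + t * z) + γ • (s * t + t * s) := by
          rw [hyz, add_mul, mul_add, smul_mul_assoc, mul_smul_comm, smul_add]
          abel
        rw [h6, h4, hβ, smul_zero, add_zero]
      refine C.line fun x hx w hw => ?_
      obtain ⟨β, rfl⟩ := h3 x hx
      -- `W = {w | s w = w}`
      have h5 : ∃ c : K, ∀ w ∈ LinearMap.range p, s w = c • w := by
        rcases C.irr (LinearMap.range p ⊓ LinearMap.ker (s - 1)) inf_le_left (by
            rintro y hy w ⟨hw1, hw⟩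
            obtain ⟨γ, rfl⟩ := h3 y hy
            replace hw : (s - 1) w = 0 := hw
            have hw2 := hw
            rw [LinearMap.sub_apply, Module.End.one_apply, sub_eq_zero] at hw
            rw [LinearMap.smul_apply, hw]
            exact Submodule.smul_mem _ _ ⟨hw1, hw2⟩)
          with h4 | h4
        · refine ⟨-1, fun w hw => ?_⟩
          have h6 : w + s w ∈ LinearMap.range p ⊓ LinearMap.ker (s - 1) := by
            refine ⟨Submodule.add_mem _ hw ?_, ?_⟩
            · rw [← C.ps s hs]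
              exact ⟨s w, rfl⟩
            · change (s - 1) (w + s w) = 0
              rw [LinearMap.sub_apply, Module.End.one_apply, map_add,
                ← Module.End.mul_apply, hss, C.fix hw]
              abel
          rw [h4, Submodule.mem_bot] at h6
          rw [neg_one_smul]
          exact eq_neg_of_add_eq_zero_right h6
        · refine ⟨1, fun w hw => ?_⟩
          rw [← h4] at hw
          have h6 : (s - 1) w = 0 := hw.2
          rw [LinearMap.sub_apply, Module.End.one_apply, sub_eq_zero] at h6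
          rw [h6, one_smul]
      obtain ⟨c', hc'⟩ := h5
      exact ⟨β * c', by rw [LinearMap.smul_apply, hc' w hw, smul_smul]⟩
    · right
      push Not at h2
      obtain ⟨t₀, ht₀, hst, htt⟩ := h2
      obtain ⟨κ', hκ'⟩ := C.sq t₀ ht₀
      have hκ0' : κ' ≠ 0 := by
        rintro rfl
        exact htt (by rw [hκ', zero_smul])
      obtain ⟨c', ht, htt'⟩ := sqrt_smul ht₀ hκ0' hκ'
      refine ⟨s, hs, c' • t₀, ht, hss, htt', ?_⟩
      rw [mul_smul_comm, smul_mul_assoc, ← smul_add, hst, smul_zero]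

section Two

variable {s t : Module.End K V} (C : Cl p S) (hs : s ∈ S) (ht : t ∈ S) (hss : s * s = p)
  (htt : t * t = p) (hst : s * t + t * s = 0)
include C hs ht hss htt hst

theorem pl_idem : pl p s * pl p s = pl p s := by
  rw [pl, mul_smul_comm, smul_mul_assoc, add_mul, mul_add, mul_add, C.pp, C.ps s hs, C.sp s hs,
    hss, smul_smul]
  module

theorem s_pl : s * pl p s = pl p s := by
  rw [pl, mul_smul_comm, mul_add, C.sp s hs, hss, add_comm]

theorem pl_s : pl p s * s = pl p s := by
  rw [pl, smul_mul_assoc, add_mul, C.ps s hs, hss, add_comm]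

theorem p_pl : p * pl p s = pl p s := by
  rw [pl, mul_smul_comm, mul_add, C.pp, C.ps s hs]

theorem pl_p : pl p s * p = pl p s := by
  rw [pl, smul_mul_assoc, add_mul, C.pp, C.sp s hs]

theorem pl_t_pl : pl p s * t * pl p s = 0 := by
  have h1 : t * s = -(s * t) := by
    rw [eq_neg_iff_add_eq_zero, add_comm, hst]
  have h2 : pl p s * t = (2⁻¹ : K) • (t - t * s) := by
    rw [pl, smul_mul_assoc, add_mul, C.ps t ht, h1, sub_neg_eq_add]
  rw [h2, smul_mul_assoc, sub_mul, mul_assoc, C.s_pl hs ht hss htt hst, sub_self, smul_zero]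

theorem p_split : p = pl p s + t * pl p s * t := by
  have h1 : t * s * t = -s := by
    have h2 : t * s = -(s * t) := by
      rw [eq_neg_iff_add_eq_zero, add_comm, hst]
    rw [h2, neg_mul, mul_assoc, htt, C.sp s hs]
  rw [pl, mul_smul_comm, smul_mul_assoc, mul_add, add_mul, h1, C.sp t ht, htt]
  module

theorem pl0 : pl p s ≠ 0 := by
  intro h
  apply C.p0
  rw [C.p_split hs ht hss htt hst, h, mul_zero, zero_mul, add_zero]

theorem rank_pl [FiniteDimensional K V] : Module.finrank K (LinearMap.range p) =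
    2 * Module.finrank K (LinearMap.range (pl p s)) := by
  have h1 := idem_trace C.pp
  have h2 := idem_trace (C.pl_idem hs ht hss htt hst)
  have h3 : LinearMap.trace K V p = 2 * LinearMap.trace K V (pl p s) := by
    conv_lhs => rw [C.p_split hs ht hss htt hst]
    rw [map_add, mul_assoc, LinearMap.trace_mul_comm K t, mul_assoc, htt,
      C.pl_p hs ht hss htt hst, two_mul]
  rw [h1, h2] at h3
  exact_mod_cast h3

/-- facts on the elements that anticommute with `s` and `t` -/
theorem tw {w : Module.End K V} (hw : w ∈ S) (h1 : s * w + w * s = 0) (h2 : t * w + w * t = 0) :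
    pl p s * (t * w) = t * w * pl p s ∧ t * (t * w) = w ∧ ∃ κ : K, t * w * (t * w) = κ • p := by
  have e1 : w * s = -(s * w) := by rw [eq_neg_iff_add_eq_zero, add_comm, h1]
  have e2 : w * t = -(t * w) := by rw [eq_neg_iff_add_eq_zero, add_comm, h2]
  have e3 : t * s = -(s * t) := by rw [eq_neg_iff_add_eq_zero, add_comm, hst]
  refine ⟨?_, ?_, ?_⟩
  · have h3 : s * (t * w) = t * w * s := by
      rw [mul_assoc, e1, mul_neg, ← mul_assoc, ← mul_assoc, e3, neg_mul, neg_neg]
    rw [pl, smul_mul_assoc, mul_smul_comm, add_mul, mul_add, h3, mul_assoc t w p, C.sp w hw,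
      ← mul_assoc, C.ps t ht]
  · rw [← mul_assoc, htt, C.ps w hw]
  · obtain ⟨κ, hκ⟩ := C.sq w hw
    refine ⟨-κ, ?_⟩
    have h3 : t * w * (t * w) = -(t * t * (w * w)) := by
      rw [mul_assoc, ← mul_assoc w t w, e2, neg_mul, mul_neg]
      simp only [mul_assoc]
    rw [h3, htt, hκ, mul_smul_comm, C.pp, neg_smul]

theorem cl_pl : Cl (pl p s) (TT p s t S) where
  pp := C.pl_idem hs ht hss htt hst
  p0 := C.pl0 hs ht hss htt hst
  ps := by
    rintro _ ⟨w, hw, h1, h2, rfl⟩
    obtain ⟨h3, -, -⟩ := C.tw hs ht hss htt hst hw h1 h2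
    rw [← mul_assoc, h3, mul_assoc, C.pl_idem hs ht hss htt hst]
  sp := by
    rintro _ ⟨w, hw, h1, h2, rfl⟩
    rw [mul_assoc, C.pl_idem hs ht hss htt hst]
  sq := by
    rintro _ ⟨w, hw, h1, h2, rfl⟩
    obtain ⟨h3, -, κ, h4⟩ := C.tw hs ht hss htt hst hw h1 h2
    refine ⟨κ, ?_⟩
    rw [mul_assoc (t * w) (pl p s), ← mul_assoc (pl p s), h3, ← mul_assoc, ← mul_assoc, h4,
      mul_assoc, C.pl_idem hs ht hss htt hst, smul_mul_assoc, C.p_pl hs ht hss htt hst]
  irr := by
    intro W hW hst'
    have hplw : ∀ y ∈ W, pl p s y = y := by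
      intro y hy
      obtain ⟨z, rfl⟩ := hW hy
      exact LinearMap.congr_fun (C.pl_idem hs ht hss htt hst) z
    have hsw : ∀ y ∈ W, s y = y := by
      intro y hy
      conv_lhs => rw [← hplw y hy]
      rw [← Module.End.mul_apply, C.s_pl hs ht hss htt hst, hplw y hy]
    have hpw : ∀ y ∈ W, p y = y := by
      intro y hy
      conv_lhs => rw [← hplw y hy]
      rw [← Module.End.mul_apply, C.p_pl hs ht hss htt hst, hplw y hy]
    have htw : ∀ y ∈ W, t (t y) = y := by
      intro y hy
      rw [← Module.End.mul_apply, htt, hpw y hy]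
    have hmap : ∀ y ∈ W, t y ∈ W.map t := fun y hy => ⟨y, hy, rfl⟩
    have hsup1 : ∀ y ∈ W, y ∈ W ⊔ W.map t := fun y hy => Submodule.mem_sup_left hy
    have hsup2 : ∀ y ∈ W, t y ∈ W ⊔ W.map t := fun y hy => Submodule.mem_sup_right (hmap y hy)
    have hle : W ⊔ W.map t ≤ LinearMap.range p := by
      refine sup_le ?_ ?_
      · intro y hy
        exact ⟨y, hpw y hy⟩
      · rintro _ ⟨y, _, rfl⟩
        exact ⟨t y, by rw [← Module.End.mul_apply, C.ps t ht]⟩
    -- the three kinds of elements
    have hstab : ∀ x : Module.End K V, (∀ y ∈ W, x y ∈ W ⊔ W.map t ∧ x (t y) ∈ W ⊔ W.map t) →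
        ∀ z ∈ W ⊔ W.map t, x z ∈ W ⊔ W.map t := by
      intro x hx z hz
      obtain ⟨y, hy, z', ⟨y', hy', rfl⟩, rfl⟩ := Submodule.mem_sup.1 hz
      rw [map_add]
      exact Submodule.add_mem _ (hx y hy).1 (hx y' hy').2
    have hs' := hstab s fun y hy => ⟨by rw [hsw y hy]; exact hsup1 y hy, by
      have h1 := LinearMap.congr_fun hst y
      rw [LinearMap.add_apply, Module.End.mul_apply, Module.End.mul_apply, hsw y hy,
        LinearMap.zero_apply] at h1
      rw [eq_neg_of_add_eq_zero_left h1]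
      exact Submodule.neg_mem _ (hsup2 y hy)⟩
    have ht' := hstab t fun y hy => ⟨hsup2 y hy, by rw [htw y hy]; exact hsup1 y hy⟩
    have hw' : ∀ w ∈ S, s * w + w * s = 0 → t * w + w * t = 0 →
        ∀ z ∈ W ⊔ W.map t, w z ∈ W ⊔ W.map t := by
      intro w hw h1 h2
      obtain ⟨-, h4, -⟩ := C.tw hs ht hss htt hst hw h1 h2
      have h5 : ∀ y ∈ W, t (w y) ∈ W := by
        intro y hy
        have h6 := hst' _ (mem_TT.2 ⟨w, hw, h1, h2, rfl⟩) y hy
        rwa [Module.End.mul_apply, hplw y hy, Module.End.mul_apply] at h6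
      refine hstab w fun y hy => ⟨?_, ?_⟩
      · have h6 := hsup2 _ (h5 y hy)
        rwa [← Module.End.mul_apply, ← Module.End.mul_apply, mul_assoc, h4] at h6
      · have h6 := LinearMap.congr_fun h2 y
        rw [LinearMap.add_apply, Module.End.mul_apply, Module.End.mul_apply,
          LinearMap.zero_apply] at h6
        rw [eq_neg_of_add_eq_zero_right h6]
        exact Submodule.neg_mem _ (hsup1 _ (h5 y hy))
    have hall : ∀ x ∈ S, ∀ z ∈ W ⊔ W.map t, x z ∈ W ⊔ W.map t := by
      intro x hx z hz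
      obtain ⟨β, hβ⟩ := C.pol hs hx
      obtain ⟨γ, hγ⟩ := C.pol ht hx
      have h1 : x - (2⁻¹ * β) • s - (2⁻¹ * γ) • t ∈ S :=
        S.sub_mem (S.sub_mem hx (S.smul_mem _ hs)) (S.smul_mem _ ht)
      have h2 : s * (x - (2⁻¹ * β) • s - (2⁻¹ * γ) • t) +
          (x - (2⁻¹ * β) • s - (2⁻¹ * γ) • t) * s = 0 := by
        have : s * (x - (2⁻¹ * β) • s - (2⁻¹ * γ) • t) +
          (x - (2⁻¹ * β) • s - (2⁻¹ * γ) • t) * s = (s * x + x * s) - β • (s * s) -
            (2⁻¹ * γ) • (s * t + t * s) := by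
          simp only [mul_sub, sub_mul, mul_smul_comm, smul_mul_assoc]
          module
        rw [this, hβ, hss, hst, smul_zero, sub_zero, sub_self]
      have h3 : t * (x - (2⁻¹ * β) • s - (2⁻¹ * γ) • t) +
          (x - (2⁻¹ * β) • s - (2⁻¹ * γ) • t) * t = 0 := by
        have : t * (x - (2⁻¹ * β) • s - (2⁻¹ * γ) • t) +
          (x - (2⁻¹ * β) • s - (2⁻¹ * γ) • t) * t = (t * x + x * t) - γ • (t * t) -
            (2⁻¹ * β) • (s * t + t * s) := by
          simp only [mul_sub, sub_mul, mul_smul_comm, smul_mul_assoc]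
          module
        rw [this, hγ, htt, hst, smul_zero, sub_zero, sub_self]
      have h4 := hw' _ h1 h2 h3 z hz
      have h5 : x z = (x - (2⁻¹ * β) • s - (2⁻¹ * γ) • t) z + (2⁻¹ * β) • s z +
          (2⁻¹ * γ) • t z := by
        simp only [LinearMap.sub_apply, LinearMap.smul_apply]
        abel
      rw [h5]
      exact Submodule.add_mem _ (Submodule.add_mem _ h4 (Submodule.smul_mem _ _ (hs' z hz)))
        (Submodule.smul_mem _ _ (ht' z hz))
    rcases C.irr _ hle hall with h | h
    · left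
      rw [eq_bot_iff, ← h]
      exact le_sup_left
    · right
      refine le_antisymm hW ?_
      rintro _ ⟨x, rfl⟩
      have h1 : pl p s x ∈ W ⊔ W.map t := by
        rw [h]
        exact ⟨pl p s x, by rw [← Module.End.mul_apply, C.p_pl hs ht hss htt hst]⟩
      obtain ⟨y, hy, z', ⟨y', hy', rfl⟩, h2⟩ := Submodule.mem_sup.1 h1
      have h3 : pl p s (pl p s x) = pl p s x := by
        rw [← Module.End.mul_apply, C.pl_idem hs ht hss htt hst]
      have h4 : pl p s (t y') = 0 := by
        conv_lhs => rw [← hplw y' hy']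
        rw [← Module.End.mul_apply, ← Module.End.mul_apply,
          C.pl_t_pl hs ht hss htt hst, LinearMap.zero_apply]
      rw [← h3, ← h2, map_add, h4, add_zero, hplw y hy]
      exact hy

end Two

/-- the dimension of an irreducible Clifford module is a power of two -/
theorem pow_two [IsAlgClosed K] [FiniteDimensional K V] (n : ℕ) :
    ∀ (p : Module.End K V) (S : Submodule K (Module.End K V)), Cl p S →
      Module.finrank K (LinearMap.range p) = n → ∃ j, n = 2 ^ j := by
  induction n using Nat.strong_induction_on with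
  | _ n ih =>
    intro p S C hn
    rcases C.step with h | ⟨s, hs, t, ht, hss, htt, hst⟩
    · exact ⟨0, by rw [← hn, h, pow_zero]⟩
    · have h1 := C.rank_pl hs ht hss htt hst
      have hpos : 0 < Module.finrank K (LinearMap.range p) := by
        rw [Nat.pos_iff_ne_zero]
        intro h0
        rw [Submodule.finrank_eq_zero, LinearMap.range_eq_bot] at h0
        exact C.p0 h0
      obtain ⟨j, hj⟩ := ih (Module.finrank K (LinearMap.range (pl p s))) (by omega) _ _
        (C.cl_pl hs ht hss htt hst) rfl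
      refine ⟨j + 1, ?_⟩
      rw [← hn, h1, hj, pow_succ]
      ring

/-- exclusion of the small ranks -/
theorem excl [IsAlgClosed K] [FiniteDimensional K V] (C : Cl p S) {q : V →ₗ[K] V →ₗ[K] K}
    (hsym : ∀ x y, q x y = q y x) (hnd : ∀ x, (∀ y, q x y = 0) → p x = 0)
    (hpq : ∀ x y, q (p x) y = q x (p y)) (hskew : ∀ s ∈ S, ∀ x y, q (s x) y + q x (s y) = 0)
    {s t : Module.End K V} (hs : s ∈ S) (ht : t ∈ S) (hss : s * s = p)
    (htt : t * t = p) (hst : s * t + t * s = 0) :
    Module.finrank K (LinearMap.range (pl p s)) ≠ 1 ∧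
      Module.finrank K (LinearMap.range (pl p s)) ≠ 2 := by
  have hi := C.pl_idem hs ht hss htt hst
  have hfix : ∀ x ∈ LinearMap.range (pl p s), pl p s x = x := by
    rintro _ ⟨z, rfl⟩
    exact LinearMap.congr_fun hi z
  have hsx : ∀ x ∈ LinearMap.range (pl p s), s x = x := by
    intro x hx
    conv_lhs => rw [← hfix x hx]
    rw [← Module.End.mul_apply, C.s_pl hs ht hss htt hst, hfix x hx]
  have hpx : ∀ x ∈ LinearMap.range (pl p s), p x = x := by
    intro x hx
    conv_lhs => rw [← hfix x hx]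
    rw [← Module.End.mul_apply, C.p_pl hs ht hss htt hst, hfix x hx]
  have htx : ∀ x ∈ LinearMap.range (pl p s), t (t x) = x := by
    intro x hx
    rw [← Module.End.mul_apply, htt, hpx x hx]
  have h0 : ∀ x ∈ LinearMap.range (pl p s), ∀ y ∈ LinearMap.range (pl p s), q x y = 0 := by
    intro x hx y hy
    have h1 := hskew s hs x y
    rw [hsx x hx, hsx y hy, ← two_mul] at h1
    exact (mul_eq_zero.1 h1).resolve_left two_ne_zero
  have halt : ∀ w ∈ S, ∀ y, q (w y) y = 0 := by
    intro w hw y
    have h1 := hskew w hw y y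
    rw [hsym y (w y), ← two_mul] at h1
    exact (mul_eq_zero.1 h1).resolve_left two_ne_zero
  -- nondegeneracy
  have hnd' : ∀ x ∈ LinearMap.range (pl p s), (∀ y ∈ LinearMap.range (pl p s), q (t x) y = 0) →
      x = 0 := by
    intro x hx h
    have h1 : p (t x) = 0 := by
      apply hnd
      intro z
      have h2 : t x = p (t x) := by rw [← Module.End.mul_apply, C.ps t ht]
      rw [h2, hpq]
      conv_lhs => rw [C.p_split hs ht hss htt hst]
      rw [LinearMap.add_apply, map_add, h _ ⟨z, rfl⟩, zero_add, Module.End.mul_apply,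
        Module.End.mul_apply]
      have h3 := hskew t ht x (t (pl p s (t z)))
      rw [htx _ ⟨t z, rfl⟩, h0 x hx _ ⟨t z, rfl⟩, add_zero] at h3
      exact h3
    rw [← Module.End.mul_apply, C.ps t ht] at h1
    rw [← htx x hx, h1, map_zero]
  have hnz : ∃ y ∈ LinearMap.range (pl p s), y ≠ 0 := by
    by_contra hcon
    push Not at hcon
    exact C.pl0 hs ht hss htt hst (LinearMap.ext fun x => hcon _ ⟨x, rfl⟩)
  constructor
  · intro h1
    obtain ⟨y, hy, hy0⟩ := hnz
    apply hy0
    refine hnd' y hy fun z hz => ?_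
    have h2 : K ∙ y = LinearMap.range (pl p s) := by
      refine Submodule.eq_of_le_of_finrank_eq ?_ ?_
      · rw [Submodule.span_singleton_le_iff_mem]
        exact hy
      · rw [finrank_span_singleton hy0, h1]
    rw [← h2] at hz
    obtain ⟨c, rfl⟩ := Submodule.mem_span_singleton.1 hz
    rw [map_smul, halt t ht, smul_zero]
  · intro h2
    have C' := C.cl_pl hs ht hss htt hst
    have h3 := C'.line (by
      rintro _ ⟨w, hw, h4, h5, rfl⟩ y hy
      obtain ⟨h6, h7, -⟩ := C.tw hs ht hss htt hst hw h4 h5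
      by_cases hy0 : y = 0
      · exact ⟨0, by rw [hy0, map_zero, smul_zero]⟩
      by_cases hz : (t * w * pl p s) y ∈ K ∙ y
      · obtain ⟨c, hc⟩ := Submodule.mem_span_singleton.1 hz
        exact ⟨c, hc.symm⟩
      exfalso
      apply hy0
      have hzr : (t * w * pl p s) y ∈ LinearMap.range (pl p s) := by
        rw [← h6]
        exact ⟨(t * w) y, rfl⟩
      set z := (t * w * pl p s) y with hzdef
      have h8 : q (t z) y = 0 := by
        have h9 : t z = w y := by
          rw [hzdef, Module.End.mul_apply, hfix y hy, ← Module.End.mul_apply, h7]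
        rw [h9, halt w hw]
      refine hnd' y hy fun x hx => ?_
      obtain ⟨r, c, rfl⟩ := Pool.Agent.OddRank.mem_of_two h2 hy hzr hx hy0 hz
      have h10 : q (t y) z = 0 := by
        have h11 := hskew t ht y z
        rw [hsym y, h8, add_zero] at h11
        exact h11
      rw [map_add, map_smul, map_smul, halt t ht, h10, smul_zero, smul_zero, add_zero])
    rw [h2] at h3
    exact absurd h3 (by norm_num)

end Cl

end Pool.Agent.Tube
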