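import Pool.Agent.Tube.Cliff

/-!
# Irreducible Clifford modules with a form: the dimension is `2 ^ j` with `j` restricted modulo four
-/

set_option autoImplicit false
set_option linter.unusedSectionVars false

namespace Pool.Agent.Tube

variable {K V : Type*} [Field K] [CharZero K] [IsAlgClosed K] [AddCommGroup V] [Module K V]
  [FiniteDimensional K V]

/-- A form on the range of `p`: symmetric or alternating (`η`), the elements of `S` are selfadjoint
or skew (`ε`). -/
structure Fm (p : Module.End K V) (S : Submodule K (Module.End K V)) (q : V →ₗ[K] V →ₗ[K] K)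
    (η ε : K) : Prop where
  sym : ∀ x y, q x y = η * q y x
  nd : ∀ x, (∀ y, q x y = 0) → p x = 0
  adp : ∀ x y, q (p x) y = q x (p y)
  ads : ∀ s ∈ S, ∀ x y, q (s x) y = ε * q x (s y)

namespace Fm

variable {p : Module.End K V} {S : Submodule K (Module.End K V)} {q : V →ₗ[K] V →ₗ[K] K} {η ε : K}

theorem not_one (F : Fm p S q (-1) ε) (hpp : p * p = p) :
    Module.finrank K (LinearMap.range p) ≠ 1 := by
  intro h1
  obtain ⟨x, hx⟩ : ∃ x, p x ≠ 0 := by
    by_contra hcon
    push Not at hcon
    have h2 : p = 0 := LinearMap.ext hcon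
    rw [h2, LinearMap.range_zero, finrank_bot] at h1
    exact absurd h1 (by norm_num)
  have h2 : K ∙ p x = LinearMap.range p := by
    refine Submodule.eq_of_le_of_finrank_eq ?_ ?_
    · rw [Submodule.span_singleton_le_iff_mem]
      exact ⟨x, rfl⟩
    · rw [finrank_span_singleton hx, h1]
  have h0 : q (p x) (p x) = 0 := by
    have h3 := F.sym (p x) (p x)
    rw [neg_one_mul] at h3
    exact self_eq_neg.1 h3
  apply hx
  have h3 : p (p x) = 0 := by
    apply F.nd
    intro y
    have h4 : p y ∈ K ∙ p x := by rw [h2]; exact ⟨y, rfl⟩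
    obtain ⟨c, hc⟩ := Submodule.mem_span_singleton.1 h4
    have h5 : p (p x) = p x := LinearMap.congr_fun hpp x
    rw [← h5, F.adp, ← hc, map_smul, h0, smul_zero]
  rwa [← Module.End.mul_apply, hpp] at h3

section Two

variable {s t : Module.End K V} (C : Cl p S) (hs : s ∈ S) (ht : t ∈ S) (hss : s * s = p)
  (htt : t * t = p) (hst : s * t + t * s = 0)
include C hs ht hss htt hst

theorem ad_pl_neg (F : Fm p S q η (-1)) (x y : V) : q (pl p s x) y = q x ((p - pl p s) y) := by
  have e1 := F.ads s hs x y
  have e2 := F.adp x y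
  simp only [pl, LinearMap.smul_apply, LinearMap.add_apply, LinearMap.sub_apply, map_smul,
    map_add, map_sub, smul_eq_mul]
  linear_combination (2⁻¹ : K) * e1 + (2⁻¹ : K) * e2

theorem ad_pl_pos (F : Fm p S q η 1) (x y : V) : q (pl p s x) y = q x (pl p s y) := by
  have e1 := F.ads s hs x y
  have e2 := F.adp x y
  simp only [pl, LinearMap.smul_apply, LinearMap.add_apply, map_smul, map_add, smul_eq_mul]
  linear_combination (2⁻¹ : K) * e1 + (2⁻¹ : K) * e2

/-- the new form if the elements of `S` are skew -/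
theorem neg (F : Fm p S q η (-1)) :
    Fm (pl p s) (TT p s t S) ((q.compl₂ (pl p s)).comp (t * pl p s)) (-η) 1 := by
  have hi := C.pl_idem hs ht hss htt hst
  have hii : ∀ z, pl p s (pl p s z) = pl p s z := fun z => LinearMap.congr_fun hi z
  have hval : ∀ x y, ((q.compl₂ (pl p s)).comp (t * pl p s)) x y = q (t (pl p s x)) (pl p s y) :=
    fun x y => rfl
  refine ⟨fun x y => ?_, fun x hx => ?_, fun x y => ?_, ?_⟩
  · rw [hval, hval, F.ads t ht, F.sym (pl p s x)]
    ring
  · -- the range of `pl` is isotropic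
    have h0 : ∀ y, q (t (pl p s x)) (t (pl p s (t y))) = 0 := by
      intro y
      have h1 : q (pl p s x) (pl p s (t y)) = 0 := by
        rw [F.ad_pl_neg C hs ht hss htt hst, ← Module.End.mul_apply, sub_mul,
          C.p_pl hs ht hss htt hst, hi, sub_self, LinearMap.zero_apply, map_zero]
      have h2 : t (t (pl p s (t y))) = pl p s (t y) := by
        rw [← Module.End.mul_apply, htt, ← Module.End.mul_apply, C.p_pl hs ht hss htt hst]
      rw [F.ads t ht, h2, h1, mul_zero]
    have h1 : p (t (pl p s x)) = 0 := by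
      apply F.nd
      intro z
      have h2 : t (pl p s x) = p (t (pl p s x)) := by
        rw [← Module.End.mul_apply p t, C.ps t ht]
      rw [h2, F.adp]
      have h5 : p z = pl p s z + t (pl p s (t z)) :=
        LinearMap.congr_fun (C.p_split hs ht hss htt hst) z
      rw [h5, map_add, h0, add_zero]
      exact hx z
    have h3 : t (pl p s x) = 0 := by
      rw [← Module.End.mul_apply p t, C.ps t ht] at h1
      exact h1
    have h4 : t (t (pl p s x)) = pl p s x := by
      rw [← Module.End.mul_apply, htt, ← Module.End.mul_apply, C.p_pl hs ht hss htt hst]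
    rw [← h4, h3, map_zero]
  · rw [hval, hval, hii, hii]
  · rintro _ ⟨w, hw, h1, h2, rfl⟩ x y
    obtain ⟨h3, h4, -⟩ := C.tw hs ht hss htt hst hw h1 h2
    rw [hval, hval, one_mul]
    have e1 : pl p s ((t * w * pl p s) x) = t (w (pl p s x)) := by
      rw [← Module.End.mul_apply, ← mul_assoc, h3, mul_assoc, hi]
      rfl
    have e2 : pl p s ((t * w * pl p s) y) = t (w (pl p s y)) := by
      rw [← Module.End.mul_apply, ← mul_assoc, h3, mul_assoc, hi]
      rfl
    have e3 : t (t (w (pl p s x))) = w (pl p s x) := by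
      rw [← Module.End.mul_apply t w, ← Module.End.mul_apply, h4]
    have e4 : t (t (w (pl p s y))) = w (pl p s y) := by
      rw [← Module.End.mul_apply t w, ← Module.End.mul_apply, h4]
    rw [e1, e2, e3, F.ads t ht, e4, F.ads w hw]

/-- the new form if the elements of `S` are selfadjoint -/
theorem pos (F : Fm p S q η 1) :
    Fm (pl p s) (TT p s t S) ((q.compl₂ (pl p s)).comp (pl p s)) η (-1) := by
  have hi := C.pl_idem hs ht hss htt hst
  have hii : ∀ z, pl p s (pl p s z) = pl p s z := fun z => LinearMap.congr_fun hi z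
  have hval : ∀ x y, ((q.compl₂ (pl p s)).comp (pl p s)) x y = q (pl p s x) (pl p s y) :=
    fun x y => rfl
  refine ⟨fun x y => ?_, fun x hx => ?_, fun x y => ?_, ?_⟩
  · rw [hval, hval]
    exact F.sym _ _
  · have h0 : ∀ y, q (pl p s x) (t (pl p s (t y))) = 0 := by
      intro y
      have h1 : pl p s (t (pl p s (t y))) = 0 := by
        rw [← Module.End.mul_apply, ← Module.End.mul_apply, C.pl_t_pl hs ht hss htt hst,
          LinearMap.zero_apply]
      rw [← hii x, F.ad_pl_pos C hs ht hss htt hst, h1, map_zero]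
    have h1 : p (pl p s x) = 0 := by
      apply F.nd
      intro z
      have h2 : pl p s x = p (pl p s x) := by
        rw [← Module.End.mul_apply, C.p_pl hs ht hss htt hst]
      rw [h2, F.adp]
      have h5 : p z = pl p s z + t (pl p s (t z)) :=
        LinearMap.congr_fun (C.p_split hs ht hss htt hst) z
      rw [h5, map_add, h0, add_zero]
      exact hx z
    rwa [← Module.End.mul_apply, C.p_pl hs ht hss htt hst] at h1
  · rw [hval, hval, hii, hii]
  · rintro _ ⟨w, hw, h1, h2, rfl⟩ x y
    obtain ⟨h3, h4, -⟩ := C.tw hs ht hss htt hst hw h1 h2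
    rw [hval, hval]
    have e1 : pl p s ((t * w * pl p s) x) = t (w (pl p s x)) := by
      rw [← Module.End.mul_apply, ← mul_assoc, h3, mul_assoc, hi]
      rfl
    have e2 : pl p s ((t * w * pl p s) y) = t (w (pl p s y)) := by
      rw [← Module.End.mul_apply, ← mul_assoc, h3, mul_assoc, hi]
      rfl
    have e3 : w (t (pl p s y)) = - t (w (pl p s y)) := by
      have h5 := LinearMap.congr_fun h2 (pl p s y)
      rw [LinearMap.add_apply, Module.End.mul_apply, Module.End.mul_apply,
        LinearMap.zero_apply] at h5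
      exact eq_neg_of_add_eq_zero_right h5
    rw [e1, e2, F.ads t ht, F.ads w hw, e3, map_neg]
    ring

end Two

/-- the dimension modulo four -/
theorem mod4 (j : ℕ) : ∀ (p : Module.End K V) (S : Submodule K (Module.End K V))
    (q : V →ₗ[K] V →ₗ[K] K), Cl p S → Module.finrank K (LinearMap.range p) = 2 ^ j →
    (Fm p S q 1 (-1) → j % 4 = 0 ∨ j % 4 = 3) ∧ (Fm p S q (-1) 1 → j % 4 = 2 ∨ j % 4 = 3) ∧
      (Fm p S q (-1) (-1) → j % 4 = 1 ∨ j % 4 = 2) ∧ (Fm p S q 1 1 → j % 4 = 0 ∨ j % 4 = 1) := by
  induction j with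
  | zero =>
    intro p S q C hj
    rw [pow_zero] at hj
    exact ⟨fun _ => Or.inl rfl, fun F => absurd hj (F.not_one C.pp),
      fun F => absurd hj (F.not_one C.pp), fun _ => Or.inl rfl⟩
  | succ j ih =>
    intro p S q C hj
    rcases C.step with h | ⟨s, hs, t, ht, hss, htt, hst⟩
    · exfalso
      rw [h, pow_succ] at hj
      omega
    have h1 := C.rank_pl hs ht hss htt hst
    have h2 : Module.finrank K (LinearMap.range (pl p s)) = 2 ^ j := by
      rw [hj, pow_succ] at h1
      omega
    have C' := C.cl_pl hs ht hss htt hst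
    refine ⟨fun F => ?_, fun F => ?_, fun F => ?_, fun F => ?_⟩
    · have h3 := (ih _ _ _ C' h2).2.1 (F.neg C hs ht hss htt hst)
      omega
    · have h3 := (ih _ _ _ C' h2).2.2.1 (F.pos C hs ht hss htt hst)
      omega
    · have F' := F.neg C hs ht hss htt hst
      rw [neg_neg] at F'
      have h3 := (ih _ _ _ C' h2).2.2.2 F'
      omega
    · have h3 := (ih _ _ _ C' h2).1 (F.pos C hs ht hss htt hst)
      omega

end Fm

end Pool.Agent.Tube
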