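import Pool.Agent.Tube.Cliff

/-!
# The form on an irreducible Clifford module
-/

set_option autoImplicit false
set_option linter.unusedSectionVars false

namespace Pool.Agent.Tube

variable {K V : Type*} [Field K] [CharZero K] [AddCommGroup V] [Module K V]

/-- A nondegenerate form on the range of `p` such that the elements of `S` are selfadjoint or skew
(`ε`). -/
structure Fn (p : Module.End K V) (S : Submodule K (Module.End K V)) (q : V →ₗ[K] V →ₗ[K] K)
    (ε : K) : Prop where
  nd : ∀ x, (∀ y, q x y = 0) → p x = 0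
  adp : ∀ x y, q (p x) y = q x (p y)
  ads : ∀ s ∈ S, ∀ x y, q (s x) y = ε * q x (s y)

namespace Cl

variable {p : Module.End K V} {S : Submodule K (Module.End K V)}

/-- rank one -/
theorem fn_one (C : Cl p S) (h1 : Module.finrank K (LinearMap.range p) = 1) :
    ∃ q : V →ₗ[K] V →ₗ[K] K, Fn p S q 1 := by
  obtain ⟨x, hx⟩ : ∃ x, p x ≠ 0 := by
    by_contra hcon
    push Not at hcon
    exact C.p0 (LinearMap.ext hcon)
  have h2 : K ∙ p x = LinearMap.range p := by
    have hfd : FiniteDimensional K (LinearMap.range p) :=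
      FiniteDimensional.of_finrank_pos (by rw [h1]; exact Nat.one_pos)
    refine Submodule.eq_of_le_of_finrank_eq ?_ ?_
    · rw [Submodule.span_singleton_le_iff_mem]
      exact ⟨x, rfl⟩
    · rw [finrank_span_singleton hx, h1]
  obtain ⟨l, hl⟩ := Module.Projective.exists_dual_eq_one K hx
  obtain ⟨m, hm⟩ : ∃ m : V →ₗ[K] K, m = l.comp p := ⟨_, rfl⟩
  have hmp : ∀ y, m (p y) = m y := fun y => by
    rw [hm, LinearMap.comp_apply, LinearMap.comp_apply, ← Module.End.mul_apply, C.pp]
  have hpm : ∀ y, p y = m y • p x := by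
    intro y
    have h3 : p y ∈ K ∙ p x := by rw [h2]; exact ⟨y, rfl⟩
    obtain ⟨c, hc⟩ := Submodule.mem_span_singleton.1 h3
    have h4 : m y = c := by
      rw [hm, LinearMap.comp_apply, ← hc, map_smul, hl, smul_eq_mul, mul_one]
    rw [h4, hc]
  have hq : ∀ a b : V, (m.smulRight m) a b = m a * m b := fun a b => by
    rw [LinearMap.smulRight_apply, LinearMap.smul_apply, smul_eq_mul]
  refine ⟨m.smulRight m, fun a ha => ?_, fun a b => ?_, fun s hs a b => ?_⟩
  · have h3 := ha x
    have h4 : m x = 1 := by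
      rw [hm, LinearMap.comp_apply, hl]
    rw [hq, h4, mul_one] at h3
    rw [hpm, h3, zero_smul]
  · rw [hq, hq, hmp, hmp]
  · have h3 : ∀ y, m (s y) = m y * m (s (p x)) := by
      intro y
      have h4 : s y = m y • s (p x) := by
        conv_lhs => rw [← C.sp s hs, Module.End.mul_apply, hpm, map_smul]
      rw [h4, map_smul, smul_eq_mul]
    rw [hq, hq, h3 a, h3 b]
    ring

section Two

variable {s t : Module.End K V} (C : Cl p S) (hs : s ∈ S) (ht : t ∈ S) (hss : s * s = p)
  (htt : t * t = p) (hst : s * t + t * s = 0)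
include C hs ht hss htt hst

theorem comp_p (x : V) : pl p s (p x) = pl p s x ∧ pl p s (t (p x)) = pl p s (t x) := by
  constructor
  · rw [← Module.End.mul_apply, C.pl_p hs ht hss htt hst]
  · rw [← Module.End.mul_apply t, C.sp t ht]

theorem comp_s (x : V) : pl p s (s x) = pl p s x ∧ pl p s (t (s x)) = - pl p s (t x) := by
  constructor
  · rw [← Module.End.mul_apply, C.pl_s hs ht hss htt hst]
  · have h1 := LinearMap.congr_fun hst x
    rw [LinearMap.add_apply, Module.End.mul_apply, Module.End.mul_apply,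
      LinearMap.zero_apply] at h1
    rw [eq_neg_of_add_eq_zero_right h1, map_neg, ← Module.End.mul_apply,
      C.pl_s hs ht hss htt hst]

theorem comp_t (x : V) : pl p s (t x) = pl p s (t x) ∧ pl p s (t (t x)) = pl p s x := by
  refine ⟨rfl, ?_⟩
  rw [← Module.End.mul_apply t, htt, ← Module.End.mul_apply, C.pl_p hs ht hss htt hst]

theorem comp_w {w : Module.End K V} (hw : w ∈ S) (h1 : s * w + w * s = 0)
    (h2 : t * w + w * t = 0) (x : V) :
    pl p s (w x) = -(t * w * pl p s) (pl p s (t x)) ∧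
      pl p s (t (w x)) = (t * w * pl p s) (pl p s x) := by
  obtain ⟨h3, h4, -⟩ := C.tw hs ht hss htt hst hw h1 h2
  have hi := C.pl_idem hs ht hss htt hst
  have h5 : ∀ y, (t * w * pl p s) (pl p s y) = pl p s (t (w y)) := by
    intro y
    rw [← Module.End.mul_apply, mul_assoc (t * w), hi, ← h3, Module.End.mul_apply,
      Module.End.mul_apply]
  refine ⟨?_, (h5 x).symm⟩
  have h6 : t * w * t = - w := by
    have h7 : w * t = -(t * w) := by
      rw [eq_neg_iff_add_eq_zero, add_comm, h2]
    rw [mul_assoc, h7, mul_neg, h4]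
  rw [h5, ← Module.End.mul_apply w, ← Module.End.mul_apply t, ← mul_assoc, h6,
    LinearMap.neg_apply, map_neg, neg_neg]

theorem comp_pl (x : V) : pl p s (pl p s x) = pl p s x ∧ pl p s (t (pl p s x)) = 0 ∧
    pl p s (t (t (pl p s x))) = pl p s x := by
  have hi := C.pl_idem hs ht hss htt hst
  refine ⟨LinearMap.congr_fun hi x, ?_, ?_⟩
  · rw [← Module.End.mul_apply, ← Module.End.mul_apply, C.pl_t_pl hs ht hss htt hst,
      LinearMap.zero_apply]
  · rw [(C.comp_t hs ht hss htt hst _).2]
    exact LinearMap.congr_fun hi x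

/-- every element of `S` is a combination of `s`, `t` and an element which anticommutes with both -/
theorem dec {x : Module.End K V} (hx : x ∈ S) : ∃ β γ : K, ∃ w ∈ S, s * w + w * s = 0 ∧
    t * w + w * t = 0 ∧ x = w + β • s + γ • t := by
  obtain ⟨β, hβ⟩ := C.pol hs hx
  obtain ⟨γ, hγ⟩ := C.pol ht hx
  refine ⟨2⁻¹ * β, 2⁻¹ * γ, x - (2⁻¹ * β) • s - (2⁻¹ * γ) • t,
    S.sub_mem (S.sub_mem hx (S.smul_mem _ hs)) (S.smul_mem _ ht), ?_, ?_, by abel⟩
  · have : s * (x - (2⁻¹ * β) • s - (2⁻¹ * γ) • t) +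
        (x - (2⁻¹ * β) • s - (2⁻¹ * γ) • t) * s = (s * x + x * s) - β • (s * s) -
          (2⁻¹ * γ) • (s * t + t * s) := by
      simp only [mul_sub, sub_mul, mul_smul_comm, smul_mul_assoc]
      module
    rw [this, hβ, hss, hst, smul_zero, sub_zero, sub_self]
  · have : t * (x - (2⁻¹ * β) • s - (2⁻¹ * γ) • t) +
        (x - (2⁻¹ * β) • s - (2⁻¹ * γ) • t) * t = (t * x + x * t) - γ • (t * t) -
          (2⁻¹ * β) • (s * t + t * s) := by
      simp only [mul_sub, sub_mul, mul_smul_comm, smul_mul_assoc]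
      module
    rw [this, hγ, htt, hst, smul_zero, sub_zero, sub_self]

theorem fn_pos {q : V →ₗ[K] V →ₗ[K] K} (F : Fn (pl p s) (TT p s t S) q (-1)) :
    ∃ q' : V →ₗ[K] V →ₗ[K] K, Fn p S q' 1 := by
  obtain ⟨q', hq'⟩ : ∃ q' : V →ₗ[K] V →ₗ[K] K, ∀ x y, q' x y =
      q (pl p s x) (pl p s y) + q (pl p s (t x)) (pl p s (t y)) :=
    ⟨(q.compl₂ (pl p s)).comp (pl p s) + (q.compl₂ (pl p s * t)).comp (pl p s * t),
      fun x y => rfl⟩
  have hI := C.comp_p hs ht hss htt hst
  refine ⟨q', fun x hx => ?_, fun x y => ?_, fun z hz x y => ?_⟩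
  · have h1 : ∀ y, q (pl p s x) y = 0 := by
      intro y
      have h3 := hx (pl p s y)
      obtain ⟨e1, e2, -⟩ := C.comp_pl hs ht hss htt hst y
      rw [hq', e1, e2, map_zero, add_zero, ← F.adp, (C.comp_pl hs ht hss htt hst x).1] at h3
      exact h3
    have h2 : ∀ y, q (pl p s (t x)) y = 0 := by
      intro y
      have h3 := hx (t (pl p s y))
      obtain ⟨-, e2, e3⟩ := C.comp_pl hs ht hss htt hst y
      rw [hq', e2, e3, map_zero, zero_add, ← F.adp, (C.comp_pl hs ht hss htt hst (t x)).1] at h3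
      exact h3
    have h3 := F.nd _ h1
    have h4 := F.nd _ h2
    rw [(C.comp_pl hs ht hss htt hst x).1] at h3
    rw [(C.comp_pl hs ht hss htt hst (t x)).1] at h4
    have h5 : p x = pl p s x + t (pl p s (t x)) :=
      LinearMap.congr_fun (C.p_split hs ht hss htt hst) x
    rw [h5, h3, h4, map_zero, add_zero]
  · rw [hq', hq', (hI x).1, (hI x).2, (hI y).1, (hI y).2]
  · obtain ⟨β, γ, w, hw, h1, h2, rfl⟩ := C.dec hs ht hss htt hst hz
    have es := C.comp_s hs ht hss htt hst
    have et := C.comp_t hs ht hss htt hst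
    have ew := C.comp_w hs ht hss htt hst hw h1 h2
    have hw' := F.ads _ (mem_TT.2 ⟨w, hw, h1, h2, rfl⟩)
    have k1 := hw' (pl p s (t x)) (pl p s y)
    have k2 := hw' (pl p s x) (pl p s (t y))
    simp only [hq', LinearMap.add_apply, LinearMap.smul_apply, map_add, map_smul, map_neg,
      LinearMap.neg_apply, smul_eq_mul, (es x).1, (es x).2, (es y).1, (es y).2, (et x).2,
      (et y).2, (ew x).1, (ew x).2, (ew y).1, (ew y).2]
    linear_combination k2 - k1

theorem fn_neg {q : V →ₗ[K] V →ₗ[K] K} (F : Fn (pl p s) (TT p s t S) q 1) :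
    ∃ q' : V →ₗ[K] V →ₗ[K] K, Fn p S q' (-1) := by
  obtain ⟨q', hq'⟩ : ∃ q' : V →ₗ[K] V →ₗ[K] K, ∀ x y, q' x y =
      q (pl p s (t x)) (pl p s y) - q (pl p s x) (pl p s (t y)) :=
    ⟨(q.compl₂ (pl p s)).comp (pl p s * t) - (q.compl₂ (pl p s * t)).comp (pl p s),
      fun x y => rfl⟩
  have hI := C.comp_p hs ht hss htt hst
  refine ⟨q', fun x hx => ?_, fun x y => ?_, fun z hz x y => ?_⟩
  · have h1 : ∀ y, q (pl p s x) y = 0 := by
      intro y
      have h3 := hx (t (pl p s y))
      obtain ⟨-, e2, e3⟩ := C.comp_pl hs ht hss htt hst y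
      rw [hq', e2, e3, map_zero, zero_sub, neg_eq_zero, ← F.adp,
        (C.comp_pl hs ht hss htt hst x).1] at h3
      exact h3
    have h2 : ∀ y, q (pl p s (t x)) y = 0 := by
      intro y
      have h3 := hx (pl p s y)
      obtain ⟨e1, e2, -⟩ := C.comp_pl hs ht hss htt hst y
      rw [hq', e1, e2, map_zero, sub_zero, ← F.adp, (C.comp_pl hs ht hss htt hst (t x)).1] at h3
      exact h3
    have h3 := F.nd _ h1
    have h4 := F.nd _ h2
    rw [(C.comp_pl hs ht hss htt hst x).1] at h3
    rw [(C.comp_pl hs ht hss htt hst (t x)).1] at h4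
    have h5 : p x = pl p s x + t (pl p s (t x)) :=
      LinearMap.congr_fun (C.p_split hs ht hss htt hst) x
    rw [h5, h3, h4, map_zero, add_zero]
  · rw [hq', hq', (hI x).1, (hI x).2, (hI y).1, (hI y).2]
  · obtain ⟨β, γ, w, hw, h1, h2, rfl⟩ := C.dec hs ht hss htt hst hz
    have es := C.comp_s hs ht hss htt hst
    have et := C.comp_t hs ht hss htt hst
    have ew := C.comp_w hs ht hss htt hst hw h1 h2
    have hw' := F.ads _ (mem_TT.2 ⟨w, hw, h1, h2, rfl⟩)
    have k1 := hw' (pl p s (t x)) (pl p s (t y))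
    have k2 := hw' (pl p s x) (pl p s y)
    simp only [hq', LinearMap.add_apply, LinearMap.smul_apply, map_add, map_smul, map_neg,
      LinearMap.neg_apply, smul_eq_mul, (es x).1, (es x).2, (es y).1, (es y).2, (et x).2,
      (et y).2, (ew x).1, (ew x).2, (ew y).1, (ew y).2]
    linear_combination k1 + k2

end Two

/-- **The form on an irreducible Clifford module of dimension `2 ^ j`.** -/
theorem exists_fn [IsAlgClosed K] [FiniteDimensional K V] (j : ℕ) :
    ∀ (p : Module.End K V) (S : Submodule K (Module.End K V)), Cl p S →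
      Module.finrank K (LinearMap.range p) = 2 ^ j →
      ∃ q : V →ₗ[K] V →ₗ[K] K, Fn p S q ((-1) ^ j) := by
  induction j with
  | zero =>
    intro p S C hj
    rw [pow_zero] at hj ⊢
    exact C.fn_one hj
  | succ j ih =>
    intro p S C hj
    rcases C.step with h | ⟨s, hs, t, ht, hss, htt, hst⟩
    · exfalso
      rw [h, pow_succ] at hj
      omega
    have h1 := C.rank_pl hs ht hss htt hst
    have h2 : Module.finrank K (LinearMap.range (pl p s)) = 2 ^ j := by
      rw [hj, pow_succ] at h1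
      omega
    obtain ⟨q, F⟩ := ih _ _ (C.cl_pl hs ht hss htt hst) h2
    rcases Nat.even_or_odd j with he | ho
    · rw [he.neg_one_pow] at F
      rw [he.add_one.neg_one_pow]
      exact C.fn_neg hs ht hss htt hst F
    · rw [ho.neg_one_pow] at F
      rw [ho.add_one.neg_one_pow]
      exact C.fn_pos hs ht hss htt hst F

end Cl

end Pool.Agent.Tube
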