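import Pool.Agent.Tube.Three
import Pool.Agent.Tube.CliffMod

/-!
# Jordan algebras of selfadjoint operators: the alternative
-/

set_option autoImplicit false
set_option linter.unusedSectionVars false

namespace Pool.Agent.Tube

variable {K V : Type*} [Field K] [CharZero K] [IsAlgClosed K] [AddCommGroup V] [Module K V]
  [FiniteDimensional K V]

namespace JD

variable {q : V →ₗ[K] V →ₗ[K] K} {f : Module.End K V} {J : Submodule K (Module.End K V)}
  {p u p₁ : Module.End K V}

section

variable (H : JD q f J) (hp : p ∈ J) (hprim : ∀ a ∈ J, ∃ l : K, p * a * p = l • p)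
  (hu : u ∈ J) (B : Sw p u p₁)
include H hp hprim hu B

theorem cl_of (hp0 : p ≠ 0)
    (hk : ∀ W : Submodule K V, (∀ d ∈ DD p u J, ∀ w ∈ W, d w ∈ W) →
      ∀ a ∈ J, ∀ b ∈ J, ∀ w ∈ W, (p * b * (f - p) * a * p) w ∈ W) : Cl p (SS q p u J) where
  pp := B.pp
  p0 := hp0
  ps := fun s hs => DD_l B.pp hs.1
  sp := fun s hs => DD_r B.pp hs.1
  sq := fun s hs => H.SS_sq hp hprim hu B hs
  irr := fun W hW hst => H.SS_irr hp hprim hu B hk W hW hst

theorem excl (C : Cl p (SS q p u J)) {s t : Module.End K V} (hs : s ∈ SS q p u J)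
    (ht : t ∈ SS q p u J) (hss : s * s = p) (htt : t * t = p) (hst : s * t + t * s = 0) :
    Module.finrank K (LinearMap.range (pl p s)) ≠ 1 ∧
      Module.finrank K (LinearMap.range (pl p s)) ≠ 2 := by
  refine C.excl H.sym (fun x hx => ?_) (H.sa p hp) (fun s hs => hs.2) hs ht hss htt hst
  have h1 := H.nd x hx
  rw [← H.af p hp, Module.End.mul_apply, h1, map_zero]

/-- the case in which the coordinates form an algebra -/
theorem rank_one_of_mul (C : Cl p (SS q p u J))
    (hmul : ∀ d ∈ DD p u J, ∀ d' ∈ DD p u J, d * d' ∈ DD p u J) :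
    Module.finrank K (LinearMap.range p) = 1 := by
  rcases C.step with h | ⟨s, hs, t, ht, hss, htt, hst⟩
  · exact h
  exfalso
  refine (H.excl hp hprim hu B C hs ht hss htt hst).1 ?_
  have hplD : pl p s ∈ DD p u J :=
    Submodule.smul_mem _ _ (Submodule.add_mem _ (H.DD_p hp hprim hu B) hs.1)
  have C' := C.cl_pl hs ht hss htt hst
  refine C'.line ?_
  intro τ hτ y hy
  have h1 : pl p s * τ = τ := C'.ps τ hτ
  have h2 : τ * pl p s = τ := C'.sp τ hτ
  have hτD : τ ∈ DD p u J := by
    obtain ⟨w, hw, -, -, rfl⟩ := hτ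
    exact hmul _ (hmul _ ht.1 _ hw.1) _ hplD
  obtain ⟨κ, h3, h4, -⟩ := H.DD_star hp hprim hu B hτD
  obtain ⟨τ', hτ'⟩ : ∃ τ', τ' = κ • p - τ := ⟨_, rfl⟩
  rw [← hτ'] at h3 h4
  -- the adjoint of `pl`
  have h5 : ∀ x y, q (pl p s x) y = q x ((p - pl p s) y) := by
    intro x y
    have e1 := hs.2 x y
    have e2 := H.sa p hp x y
    simp only [pl, LinearMap.smul_apply, LinearMap.add_apply, LinearMap.sub_apply, map_smul,
      map_add, map_sub, smul_eq_mul]
    linear_combination (2⁻¹ : K) * e1 + (2⁻¹ : K) * e2 + (1 - 2⁻¹ * 2 : K) * (q x (p y))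
  have h6 : τ' = τ' * (p - pl p s) := by
    rw [← sub_eq_zero]
    ext y
    have h7 : f ((τ' - τ' * (p - pl p s)) y) = 0 := by
      apply H.nd
      intro x
      rw [H.sym, LinearMap.sub_apply, map_sub, Module.End.mul_apply, ← h4, ← h4, ← h5,
        ← Module.End.mul_apply, h1, sub_self]
    have h8 : f * τ' = τ' := by
      rw [← DD_l B.pp h3, ← mul_assoc, H.fa p hp]
    have h9 : f * (τ' - τ' * (p - pl p s)) = τ' - τ' * (p - pl p s) := by
      rw [mul_sub, ← mul_assoc, h8]
    rwa [← Module.End.mul_apply, h9] at h7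
  have h7 : τ' * pl p s = 0 := by
    rw [h6, mul_assoc, sub_mul, C.p_pl hs ht hss htt hst, C.pl_idem hs ht hss htt hst, sub_self,
      mul_zero]
  have h8 : τ = κ • pl p s := by
    rw [hτ', sub_mul, smul_mul_assoc, C.p_pl hs ht hss htt hst, h2, sub_eq_zero] at h7
    exact h7.symm
  refine ⟨κ, ?_⟩
  rw [h8, LinearMap.smul_apply]
  obtain ⟨z, rfl⟩ := hy
  rw [← Module.End.mul_apply, C'.pp]

/-- the case of two idempotents -/
theorem alt_two (hp0 : p ≠ 0) (hf : f = p + p₁) :
    Module.finrank K (LinearMap.range p) = 1 ∨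
      ∃ k, 4 ≤ k ∧ (k % 4 = 0 ∨ k % 4 = 1) ∧ Module.finrank K (LinearMap.range f) = 2 ^ k := by
  have C : Cl p (SS q p u J) := H.cl_of hp hprim hu B hp0 (H.hk_two hp hprim hu B hf)
  obtain ⟨j, hj⟩ := Cl.pow_two _ _ _ C rfl
  have F : Fm p (SS q p u J) q 1 (-1) := by
    refine ⟨fun x y => by rw [one_mul]; exact H.sym x y, fun x hx => ?_, H.sa p hp,
      fun s hs x y => ?_⟩
    · have h1 := H.nd x hx
      rw [← H.af p hp, Module.End.mul_apply, h1, map_zero]
    · rw [neg_one_mul]
      exact eq_neg_of_add_eq_zero_left (hs.2 x y)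
  have hmod := (Fm.mod4 j p _ q C hj).1 F
  rcases Nat.eq_zero_or_pos j with h0 | h0
  · left
    rw [hj, h0, pow_zero]
  right
  have h4 : Module.finrank K (LinearMap.range f) = 2 * Module.finrank K (LinearMap.range p) := by
    have e1 := idem_trace H.ff
    have e2 := idem_trace B.pp
    have e3 : LinearMap.trace K V p₁ = LinearMap.trace K V p := by
      rw [← B.upu, LinearMap.trace_mul_comm K (u * p) u, ← mul_assoc, B.uu, add_mul, B.pp, B.qp,
        add_zero]
    have e4 : LinearMap.trace K V f = 2 * LinearMap.trace K V p := by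
      conv_lhs => rw [hf]
      rw [map_add, e3, two_mul]
    rw [e1, e2] at e4
    exact_mod_cast e4
  refine ⟨j + 1, by omega, by omega, ?_⟩
  rw [h4, hj, pow_succ]
  ring

end

/-- the alternative: an idempotent of rank one, or the dimension is a power of two, with restrictions
on the exponent -/
theorem main (H : JD q f J) : (∃ p ∈ J, p * p = p ∧ Module.finrank K (LinearMap.range p) = 1) ∨
    ∃ k, 4 ≤ k ∧ (k % 4 = 0 ∨ k % 4 = 1) ∧ Module.finrank K (LinearMap.range f) = 2 ^ k := by
  obtain ⟨p, hp, hpp, hp0, hprim⟩ := H.exists_prim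
  have hfp : f - p ∈ J := J.sub_mem H.mem hp
  have hpe : p * (f - p) = 0 := by rw [mul_sub, H.af p hp, hpp, sub_self]
  have hep : (f - p) * p = 0 := by rw [sub_mul, H.fa p hp, hpp, sub_self]
  have hee : (f - p) * (f - p) = f - p := by rw [mul_sub, H.af _ hfp, hep, sub_zero]
  by_cases hfe : f - p = 0
  · left
    refine ⟨p, hp, hpp, ?_⟩
    have hf : f = p := sub_eq_zero.1 hfe
    obtain ⟨x, hx⟩ : ∃ x, p x ≠ 0 := by
      by_contra hcon
      push Not at hcon
      exact hp0 (LinearMap.ext hcon)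
    rcases H.irr (K ∙ p x) (by
        rw [Submodule.span_singleton_le_iff_mem, hf]
        exact ⟨x, rfl⟩) (by
        intro a ha w hw
        obtain ⟨l, hl⟩ := hprim a ha
        obtain ⟨c, rfl⟩ := Submodule.mem_span_singleton.1 hw
        have h1 : a * p = l • p := by rw [← hl, ← hf, H.fa a ha]
        rw [map_smul, ← Module.End.mul_apply, h1, LinearMap.smul_apply, smul_smul]
        exact Submodule.smul_mem _ _ (Submodule.mem_span_singleton_self _)) with h1 | h1
    · rw [Submodule.span_singleton_eq_bot] at h1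
      exact absurd h1 hx
    · rw [← hf, ← h1, finrank_span_singleton hx]
  obtain ⟨u, hu, hue, huu⟩ := H.exists_u hp hpp hprim hfp hee hpe hep (by
    by_contra hcon
    push Not at hcon
    have h1 : ∀ a ∈ J, a * p = p * (a * p) := by
      intro a ha
      have h2 : (f - p) * a * p = 0 := by
        have h3 := congrArg (fun x => (f - p) * x) (hcon a ha)
        simp only [mul_add, mul_zero] at h3
        have e1 : (f - p) * (p * a * (f - p)) = 0 := by
          rw [← mul_assoc, ← mul_assoc, hep, zero_mul, zero_mul]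
        have e2 : (f - p) * ((f - p) * a * p) = (f - p) * a * p := by
          rw [← mul_assoc, ← mul_assoc, hee]
        rwa [e1, e2, zero_add] at h3
      rw [sub_mul, sub_mul, H.fa a ha, sub_eq_zero] at h2
      rw [← mul_assoc]
      exact h2
    rcases H.irr (LinearMap.range p) (by
      rw [← H.fa p hp]
      rintro _ ⟨x, rfl⟩
      exact ⟨p x, rfl⟩) (by
      rintro a ha _ ⟨x, rfl⟩
      rw [← Module.End.mul_apply, h1 a ha]
      exact ⟨(a * p) x, rfl⟩) with h | h
    · rw [LinearMap.range_eq_bot] at h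
      exact hp0 h
    · apply hfe
      ext x
      have h5 : f x ∈ LinearMap.range p := by rw [h]; exact ⟨x, rfl⟩
      obtain ⟨y, hy⟩ := h5
      rw [LinearMap.zero_apply, ← H.af _ hfp, Module.End.mul_apply, ← hy,
        ← Module.End.mul_apply, hep, LinearMap.zero_apply])
  obtain ⟨B, h1, h2⟩ := sw_of hpp hee hpe hep hue huu
  by_cases hf : f = p + u * p * u
  · rcases H.alt_two hp hprim hu B hp0 hf with h | h
    · exact Or.inl ⟨p, hp, hpp, h⟩
    · exact Or.inr h
  left
  refine ⟨p, hp, hpp, ?_⟩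
  have hp1 := H.p1_mem hp hprim hu B
  have T := H.third_of hp hp1 B
  have he : f - p - u * p * u ∈ J := J.sub_mem hfp hp1
  have he0 : f - p - u * p * u ≠ 0 := by
    intro h
    apply hf
    rw [sub_eq_zero, sub_eq_iff_eq_add] at h
    rw [h, add_comm]
  obtain ⟨v, hv, hve, hvv⟩ := H.exists_u2 hp hprim hu T he hp0 he0 (by abel)
  have hmul : ∀ d ∈ DD p u J, ∀ d' ∈ DD p u J, d * d' ∈ DD p u J := fun d hd d' hd' =>
    H.DD_mul hp hprim hu T he hv hve hvv hd hd'
  refine H.rank_one_of_mul hp hprim hu B (H.cl_of hp hprim hu B hp0 ?_) hmul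
  intro W hW a ha b hb w hw
  have h3 : p * b * (f - p) * a * p = (p * b * u * p) * (p * u * a * p) +
      p * b * (f - p - u * p * u) * a * p := by
    have e1 : f - p = u * p * u + (f - p - u * p * u) := by abel
    conv_lhs => rw [e1]
    rw [mul_add, add_mul, add_mul]
    congr 1
    simp only [mul_assoc]
    rw [B.ppa]
  have h4 : p * b * u * p ∈ DD p u J := mem_DD.2 ⟨b, hb, rfl⟩
  have h5 : p * u * a * p ∈ DD p u J := by
    obtain ⟨κ, hκ⟩ := hprim _ (H.jor a ha u hu)
    have h4 : p * u * a * p = κ • p - p * a * u * p := by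
      rw [← hκ]
      noncomm_ring
    rw [h4]
    exact Submodule.sub_mem _ (Submodule.smul_mem _ _ (H.DD_p hp hprim hu B))
      (mem_DD.2 ⟨a, ha, rfl⟩)
  rw [h3]
  exact hW _ (Submodule.add_mem _ (hmul _ h4 _ h5) (H.DD_third hp hprim hu T he ha hb)) w hw

end JD

end Pool.Agent.Tube
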