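import Pool.Agent.Tube.Peirce

/-!
# Jordan algebras of selfadjoint operators: coordinates
-/

set_option autoImplicit false
set_option linter.unusedSectionVars false

namespace Pool.Agent.Tube

variable {K V : Type*} [Field K] [CharZero K] [AddCommGroup V] [Module K V]

/-- the coordinate space -/
def DD (p u : Module.End K V) (J : Submodule K (Module.End K V)) :
    Submodule K (Module.End K V) :=
  J.map ((LinearMap.mulLeft K p).comp (LinearMap.mulRight K (u * p)))

theorem mem_DD {p u : Module.End K V} {J : Submodule K (Module.End K V)} {d : Module.End K V} :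
    d ∈ DD p u J ↔ ∃ w ∈ J, p * w * u * p = d := by
  constructor
  · rintro ⟨w, hw, rfl⟩
    refine ⟨w, hw, ?_⟩
    simp only [LinearMap.comp_apply, LinearMap.mulLeft_apply, LinearMap.mulRight_apply, mul_assoc]
  · rintro ⟨w, hw, rfl⟩
    refine ⟨w, hw, ?_⟩
    simp only [LinearMap.comp_apply, LinearMap.mulLeft_apply, LinearMap.mulRight_apply, mul_assoc]

/-- the skew part of the coordinate space -/
def SS (q : V →ₗ[K] V →ₗ[K] K) (p u : Module.End K V) (J : Submodule K (Module.End K V)) :
    Submodule K (Module.End K V) where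
  carrier := {d | d ∈ DD p u J ∧ ∀ x y, q (d x) y + q x (d y) = 0}
  add_mem' := fun {a b} ha hb => ⟨add_mem ha.1 hb.1, fun x y => by
    simp only [LinearMap.add_apply, map_add]
    linear_combination ha.2 x y + hb.2 x y⟩
  zero_mem' := ⟨zero_mem _, fun x y => by simp⟩
  smul_mem' := fun c a ha => ⟨Submodule.smul_mem _ c ha.1, fun x y => by
    simp only [LinearMap.smul_apply, map_smul, smul_eq_mul]
    linear_combination c * ha.2 x y⟩

theorem mem_SS {q : V →ₗ[K] V →ₗ[K] K} {p u : Module.End K V}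
    {J : Submodule K (Module.End K V)} {d : Module.End K V} :
    d ∈ SS q p u J ↔ d ∈ DD p u J ∧ ∀ x y, q (d x) y + q x (d y) = 0 := Iff.rfl

namespace JD

variable {q : V →ₗ[K] V →ₗ[K] K} {f : Module.End K V} {J : Submodule K (Module.End K V)}
  {p u p₁ : Module.End K V}

theorem DD_l (hpp : p * p = p) {d : Module.End K V} (hd : d ∈ DD p u J) : p * d = d := by
  obtain ⟨w, _, rfl⟩ := mem_DD.1 hd
  rw [← mul_assoc, ← mul_assoc, ← mul_assoc, hpp]

theorem DD_r (hpp : p * p = p) {d : Module.End K V} (hd : d ∈ DD p u J) : d * p = d := by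
  obtain ⟨w, _, rfl⟩ := mem_DD.1 hd
  rw [mul_assoc, hpp]

section

variable (H : JD q f J) (hp : p ∈ J) (hprim : ∀ a ∈ J, ∃ l : K, p * a * p = l • p)
  (hu : u ∈ J) (B : Sw p u p₁)
include H hp hprim hu B

theorem p1_mem : p₁ ∈ J := by
  rw [← B.upu]
  exact H.quad hu hp

theorem DD_p : p ∈ DD p u J :=
  mem_DD.2 ⟨u, hu, by rw [mul_assoc p u u, B.uu, mul_add, add_mul, B.pp, B.pp, B.pq, zero_mul,
    add_zero]⟩

theorem DD_star {d : Module.End K V} (hd : d ∈ DD p u J) : ∃ κ : K,
    κ • p - d ∈ DD p u J ∧ (∀ x y, q (d x) y = q x ((κ • p - d) y)) ∧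
      ∃ ν : K, d * (κ • p - d) = ν • p := by
  obtain ⟨w, hw, rfl⟩ := mem_DD.1 hd
  obtain ⟨κ, hκ⟩ := hprim _ (H.jor w hw u hu)
  have h1 : κ • p - p * w * u * p = p * u * w * p := by
    rw [← hκ]
    noncomm_ring
  refine ⟨κ, Submodule.sub_mem _ (Submodule.smul_mem _ _ (H.DD_p hp hprim hu B)) hd, ?_, ?_⟩
  · intro x y
    rw [h1]
    simp only [Module.End.mul_apply]
    rw [H.sa p hp, H.sa w hw, H.sa u hu, H.sa p hp]
  · rw [h1]
    obtain ⟨ν, hν⟩ := hprim _ (H.quad hw (H.p1_mem hp hprim hu B))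
    refine ⟨ν, ?_⟩
    rw [← hν, ← B.upu]
    simp only [mul_assoc]
    rw [B.ppa]

theorem SS_sq {s : Module.End K V} (hs : s ∈ SS q p u J) : ∃ κ : K, s * s = κ • p := by
  obtain ⟨hs1, hs2⟩ := hs
  obtain ⟨κ, h1, h2, ν, h3⟩ := H.DD_star hp hprim hu B hs1
  have h4 : κ • p = 0 := by
    ext y
    have h5 : ∀ x, q x ((κ • p) y) = 0 := by
      intro x
      have h6 := hs2 x y
      rw [h2] at h6
      rw [← h6, ← map_add, LinearMap.sub_apply, sub_add_cancel]
    have h6 : f ((κ • p) y) = 0 := H.nd _ fun x => by rw [H.sym, h5]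
    rw [← Module.End.mul_apply, mul_smul_comm, H.fa p hp] at h6
    rw [h6, LinearMap.zero_apply]
  refine ⟨-ν, ?_⟩
  rw [h4, zero_sub, mul_neg] at h3
  rw [neg_smul, ← h3, neg_neg]

theorem DD_dec {d : Module.End K V} (hd : d ∈ DD p u J) : ∃ κ : K, d - κ • p ∈ SS q p u J := by
  obtain ⟨κ, _, h2, _⟩ := H.DD_star hp hprim hu B hd
  refine ⟨2⁻¹ * κ, Submodule.sub_mem _ hd
    (Submodule.smul_mem _ _ (H.DD_p hp hprim hu B)), fun x y => ?_⟩
  simp only [LinearMap.sub_apply, LinearMap.smul_apply, map_sub, map_smul, smul_eq_mul, h2 x y,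
    H.sa p hp x y]
  ring

/-- irreducibility of the coordinate space -/
theorem SS_irr
    (hk : ∀ W : Submodule K V, (∀ d ∈ DD p u J, ∀ w ∈ W, d w ∈ W) →
      ∀ a ∈ J, ∀ b ∈ J, ∀ w ∈ W, (p * b * (f - p) * a * p) w ∈ W)
    (W : Submodule K V) (hW : W ≤ LinearMap.range p)
    (hst : ∀ s ∈ SS q p u J, ∀ w ∈ W, s w ∈ W) : W = ⊥ ∨ W = LinearMap.range p := by
  have hpw : ∀ w ∈ W, p w = w := by
    intro w hw
    obtain ⟨y, rfl⟩ := hW hw
    exact LinearMap.congr_fun B.pp y
  have hfw : ∀ w ∈ W, f w = w := by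
    intro w hw
    rw [← hpw w hw, ← Module.End.mul_apply, H.fa p hp]
  have hD : ∀ d ∈ DD p u J, ∀ w ∈ W, d w ∈ W := by
    intro d hd w hw
    obtain ⟨κ, hκ⟩ := H.DD_dec hp hprim hu B hd
    have h1 : d w = (d - κ • p) w + κ • w := by
      rw [LinearMap.sub_apply, LinearMap.smul_apply, hpw w hw, sub_add_cancel]
    rw [h1]
    exact W.add_mem (hst _ hκ w hw) (W.smul_mem _ hw)
  have hk' := hk W hD
  let U : Submodule K V := Submodule.span K {x | ∃ a ∈ J, ∃ w ∈ W, a w = x}
  have hU : ∀ a ∈ J, ∀ w ∈ W, a w ∈ U := fun a ha w hw =>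
    Submodule.subset_span ⟨a, ha, w, hw, rfl⟩
  have hUf : U ≤ LinearMap.range f := by
    refine Submodule.span_le.2 ?_
    rintro _ ⟨a, ha, w, _, rfl⟩
    rw [← H.fa a ha]
    exact ⟨a w, rfl⟩
  have hfp : f - p ∈ J := J.sub_mem H.mem hp
  have hUst : ∀ b ∈ J, ∀ x ∈ U, b x ∈ U := by
    intro b hb x hx
    induction hx using Submodule.span_induction with
    | zero => rw [map_zero]; exact U.zero_mem
    | add x y _ _ hx hy => rw [map_add]; exact U.add_mem hx hy
    | smul c x _ hx => rw [map_smul]; exact U.smul_mem _ hx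
    | mem x hx =>
      obtain ⟨a, ha, w, hw, rfl⟩ := hx
      obtain ⟨l, hl⟩ := hprim a ha
      have h1 : a w = l • w + ((f - p) * a * p) w := by
        have h2 : (f - p) * a * p = a * p - l • p := by
          rw [← hl, sub_mul, sub_mul, H.fa a ha]
        rw [h2, LinearMap.sub_apply, Module.End.mul_apply, LinearMap.smul_apply, hpw w hw]
        abel
      have h2 : b * ((f - p) * a * p) =
          p * b * (f - p) * a * p + (f - p) * b * (f - p) * a * p := by
        have h3 : b * ((f - p) * a * p) = f * b * ((f - p) * a * p) := by rw [H.fa b hb]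
        rw [h3]
        noncomm_ring
      have h3 : (f - p) * p = 0 := by rw [sub_mul, H.fa p hp, B.pp, sub_self]
      have h3' : p * (f - p) = 0 := by rw [mul_sub, H.af p hp, B.pp, sub_self]
      have h4 : (f - p) * b * (f - p) * (p * a * (f - p) + (f - p) * a * p) +
          (p * a * (f - p) + (f - p) * a * p) * ((f - p) * b * (f - p)) ∈ J :=
        H.jor _ (H.quad hfp hb) _ (H.trip hp ha hfp)
      have h4' : (f - p) * b * (f - p) * (p * a * (f - p) + (f - p) * a * p) +
          (p * a * (f - p) + (f - p) * a * p) * ((f - p) * b * (f - p)) =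
          (f - p) * b * (f - p) * a * p + p * a * (f - p) * b * (f - p) := by
        have h5 : (f - p) * (f - p) = f - p := by
          rw [mul_sub, H.af _ hfp, h3, sub_zero]
        have e1 : ∀ x, (f - p) * ((f - p) * x) = (f - p) * x := fun x => by
          rw [← mul_assoc, h5]
        have e2 : ∀ x, (f - p) * (p * x) = 0 := fun x => by rw [← mul_assoc, h3, zero_mul]
        have e3 : ∀ x, p * ((f - p) * x) = 0 := fun x => by rw [← mul_assoc, h3', zero_mul]
        generalize hgen : f - p = r at *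
        simp only [mul_add, add_mul, mul_assoc, e1, e2, e3, mul_zero, add_zero, zero_add]
      rw [h4'] at h4
      have h5 : ((f - p) * b * (f - p) * a * p) w ∈ U := by
        have h6 := hU _ h4 w hw
        rw [LinearMap.add_apply] at h6
        have h7 : (p * a * (f - p) * b * (f - p)) w = 0 := by
          rw [Module.End.mul_apply, LinearMap.sub_apply, hfw w hw, hpw w hw, sub_self, map_zero]
        rwa [h7, add_zero] at h6
      have h6 : (p * b * (f - p) * a * p) w ∈ U := by
        have h7 := hk' a ha b hb w hw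
        have h8 := hU f H.mem _ h7
        rwa [hfw _ h7] at h8
      rw [h1, map_add, map_smul, ← Module.End.mul_apply, h2, LinearMap.add_apply]
      exact U.add_mem (U.smul_mem _ (hU b hb w hw)) (U.add_mem h6 h5)
  rcases H.irr U hUf hUst with h | h
  · left
    rw [eq_bot_iff]
    intro w hw
    rw [← h, ← hfw w hw]
    exact hU f H.mem w hw
  · right
    refine le_antisymm hW ?_
    -- `p U ≤ W`
    have h1 : ∀ x ∈ U, p x ∈ W := by
      intro x hx
      induction hx using Submodule.span_induction with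
      | zero => rw [map_zero]; exact W.zero_mem
      | add x y _ _ hx hy => rw [map_add]; exact W.add_mem hx hy
      | smul c x _ hx => rw [map_smul]; exact W.smul_mem _ hx
      | mem x hx =>
        obtain ⟨a, ha, w, hw, rfl⟩ := hx
        obtain ⟨l, hl⟩ := hprim a ha
        have h2 : p (a w) = l • w := by
          rw [← hpw w hw, ← Module.End.mul_apply, ← Module.End.mul_apply, hl,
            LinearMap.smul_apply]
        rw [h2]
        exact W.smul_mem _ hw
    rintro _ ⟨x, rfl⟩
    have h2 : p x ∈ LinearMap.range f := by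
      rw [← H.fa p hp]
      exact ⟨p x, rfl⟩
    rw [← h] at h2
    have h3 := h1 _ h2
    rwa [← Module.End.mul_apply, B.pp] at h3

/-- the case of two idempotents -/
theorem hk_two (hf : f = p + p₁) (W : Submodule K V)
    (hst : ∀ d ∈ DD p u J, ∀ w ∈ W, d w ∈ W) :
    ∀ a ∈ J, ∀ b ∈ J, ∀ w ∈ W, (p * b * (f - p) * a * p) w ∈ W := by
  intro a ha b hb w hw
  have h1 : p * b * (f - p) * a * p = (p * b * u * p) * (p * u * a * p) := by
    rw [hf, add_sub_cancel_left, ← B.upu]
    simp only [mul_assoc]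
    rw [B.ppa]
  have h2 : p * b * u * p ∈ DD p u J := mem_DD.2 ⟨b, hb, rfl⟩
  have h3 : p * u * a * p ∈ DD p u J := by
    obtain ⟨κ, hκ⟩ := hprim _ (H.jor a ha u hu)
    have h4 : p * u * a * p = κ • p - p * a * u * p := by
      rw [← hκ]
      noncomm_ring
    rw [h4]
    exact Submodule.sub_mem _ (Submodule.smul_mem _ _ (H.DD_p hp hprim hu B))
      (mem_DD.2 ⟨a, ha, rfl⟩)
  rw [h1, Module.End.mul_apply]
  exact hst _ h2 _ (hst _ h3 w hw)

end

end JD

end Pool.Agent.Tube
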