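import Pool.Agent.Tube.Path
import Pool.Agent.FQ.Defs

/-!
# Tube type: the two theorems in the form in which they are used
-/

set_option autoImplicit false
set_option linter.unusedSectionVars false

namespace Pool.Agent.Tube

open Pool.Agent.FQ

variable {K V : Type*} [Field K] [CharZero K] [AddCommGroup V] [Module K V]

/-- `2 e - 1 ∈ g` implies that `e` normalises `g` -/
theorem heg_of {A : Type*} [Ring A] [Algebra K A] {g : Submodule K A} {e : A}
    (hlie : ∀ a ∈ g, ∀ b ∈ g, a * b - b * a ∈ g) (he : (2 : K) • e - 1 ∈ g) :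
    ∀ a ∈ g, e * a - a * e ∈ g := by
  intro a ha
  have h1 := hlie _ he a ha
  have h2 : ((2 : K) • e - 1) * a - a * ((2 : K) • e - 1) =
      (e * a - a * e) + (e * a - a * e) := by
    rw [sub_mul, mul_sub, one_mul, mul_one, smul_mul_assoc, mul_smul_comm, two_smul, two_smul]
    abel
  rw [h2] at h1
  exact JD.half_mem h1

/-- **Theorem T1.** An irreducible Lie algebra of skew endomorphisms of a symplectic space with an
invertible element of degree one contains all skew endomorphisms, unless the dimension is `2 ^ m`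
with `m ≥ 5` congruent to one or two modulo four. -/
theorem tube_sp4 [IsAlgClosed K] [FiniteDimensional K V] {ψ : V →ₗ[K] V →ₗ[K] K}
    {g : Submodule K (Module.End K V)} (hlie : ∀ a ∈ g, ∀ b ∈ g, a * b - b * a ∈ g)
    (halt : ∀ x, ψ x x = 0) (hnd : ∀ x, (∀ y, ψ x y = 0) → x = 0)
    (hg : ∀ x ∈ g, ∀ u v, ψ (x u) v + ψ u (x v) = 0) {e : Module.End K V} (hee : e * e = e)
    (heψ : ∀ u v, ψ (e u) v + ψ u (e v) = ψ u v) (he : (2 : K) • e - 1 ∈ g)
    {x : Module.End K V} (hx : x ∈ g) (hex : e * x = x) (hxe : x * e = 0)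
    (hinj : ∀ v, e v = 0 → x v = 0 → v = 0)
    (hirr : ∀ W : Submodule K V,
      (∀ y ∈ g, (e * y = y ∧ y * e = 0) ∨ (e * y = 0 ∧ y * e = y) → ∀ w ∈ W, y w ∈ W) →
      W = ⊥ ∨ W = ⊤)
    (hn : ∀ m, 5 ≤ m → m % 4 = 1 ∨ m % 4 = 2 → Module.finrank K V ≠ 2 ^ m)
    {D : Module.End K V} (hD : ∀ u v, ψ (D u) v + ψ u (D v) = 0) : D ∈ g := by
  have H : GD ψ g e := ⟨halt, hnd, hlie, fun x hx => ⟨0, fun u v => by rw [hg x hx, zero_mul]⟩,
    hee, heψ, heg_of hlie he⟩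
  refine H.skew_mem_of_tube4 (x := x) ⟨hx, hex, hxe⟩ hinj (fun W h1 h2 => hirr W ?_) hn hD
  rintro y hy (h | h) w hw
  · exact h1 y ⟨hy, h⟩ w hw
  · exact h2 y ⟨hy, h⟩ w hw

/-- **Theorem T1** for all powers of two. -/
theorem tube_sp [IsAlgClosed K] [FiniteDimensional K V] {ψ : V →ₗ[K] V →ₗ[K] K}
    {g : Submodule K (Module.End K V)} (hlie : ∀ a ∈ g, ∀ b ∈ g, a * b - b * a ∈ g)
    (halt : ∀ x, ψ x x = 0) (hnd : ∀ x, (∀ y, ψ x y = 0) → x = 0)
    (hg : ∀ x ∈ g, ∀ u v, ψ (x u) v + ψ u (x v) = 0) {e : Module.End K V} (hee : e * e = e)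
    (heψ : ∀ u v, ψ (e u) v + ψ u (e v) = ψ u v) (he : (2 : K) • e - 1 ∈ g)
    {x : Module.End K V} (hx : x ∈ g) (hex : e * x = x) (hxe : x * e = 0)
    (hinj : ∀ v, e v = 0 → x v = 0 → v = 0)
    (hirr : ∀ W : Submodule K V,
      (∀ y ∈ g, (e * y = y ∧ y * e = 0) ∨ (e * y = 0 ∧ y * e = y) → ∀ w ∈ W, y w ∈ W) →
      W = ⊥ ∨ W = ⊤)
    (hn : ∀ m, 5 ≤ m → Module.finrank K V ≠ 2 ^ m) {D : Module.End K V}
    (hD : ∀ u v, ψ (D u) v + ψ u (D v) = 0) : D ∈ g :=
  tube_sp4 hlie halt hnd hg hee heψ he hx hex hxe hinj hirr (fun m hm _ => hn m hm) hD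

theorem expG_closure {g : Submodule K (Module.End K V)} {u : (Module.End K V)ˣ}
    (hu : u ∈ expG K g) : (u : Module.End K V) ∈ Submonoid.closure (ExpSet g) ∧
      ((u⁻¹ : (Module.End K V)ˣ) : Module.End K V) ∈ Submonoid.closure (ExpSet g) := by
  induction hu using Subgroup.closure_induction with
  | mem u hu =>
    obtain ⟨N, hN, k, hk, hu⟩ := hu
    have h1 : (u : Module.End K V) = ex K N := by rw [hu, ex_eq_sum K hk]
    have h2 : ((u⁻¹ : (Module.End K V)ˣ) : Module.End K V) = ex K (-N) := by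
      have h3 : (u : Module.End K V) * ex K (-N) = 1 := by
        rw [h1]
        exact ex_neg K ⟨k, hk⟩
      exact Units.inv_eq_of_mul_eq_one_right h3
    refine ⟨Submonoid.subset_closure ⟨N, hN, ⟨k, hk⟩, h1⟩,
      Submonoid.subset_closure ⟨-N, g.neg_mem hN, (show IsNilpotent N from ⟨k, hk⟩).neg, h2⟩⟩
  | one =>
    rw [inv_one, Units.val_one]
    exact ⟨Submonoid.one_mem _, Submonoid.one_mem _⟩
  | mul u v _ _ hu hv =>
    rw [mul_inv_rev, Units.val_mul, Units.val_mul]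
    exact ⟨Submonoid.mul_mem _ hu.1 hv.1, Submonoid.mul_mem _ hv.2 hu.2⟩
  | inv u _ hu =>
    rw [inv_inv]
    exact ⟨hu.2, hu.1⟩

/-- **Theorem T2.** If the idempotents `e` and `1 - e` are conjugate under the group generated by
the exponentials of the nilpotent elements of `g`, there is an invertible element of degree one. -/
theorem exists_tube_expG [FiniteDimensional K V] {g : Submodule K (Module.End K V)}
    (hlie : ∀ a ∈ g, ∀ b ∈ g, a * b - b * a ∈ g) {e : Module.End K V} (hee : e * e = e)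
    (he : (2 : K) • e - 1 ∈ g) {u : (Module.End K V)ˣ} (hu : u ∈ expG K g)
    (hue : (u : Module.End K V) * e * ((u⁻¹ : (Module.End K V)ˣ) : Module.End K V) = 1 - e) :
    ∃ x ∈ g, e * x = x ∧ x * e = 0 ∧ ∀ v, e v = 0 → x v = 0 → v = 0 := by
  have h1 : (u : Module.End K V) * e = (1 - e) * u := by
    rw [← hue, mul_assoc, Units.inv_mul, mul_one]
  obtain ⟨x, hx, hinj⟩ := exists_tube hee (heg_of hlie he) hlie (expG_closure hu).1 h1
  exact ⟨x, hx.1, hx.2.1, hx.2.2, hinj⟩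

/-- Theorem T1 and Theorem T2 together -/
theorem tube_sp_expG [IsAlgClosed K] [FiniteDimensional K V] {ψ : V →ₗ[K] V →ₗ[K] K}
    {g : Submodule K (Module.End K V)} (hlie : ∀ a ∈ g, ∀ b ∈ g, a * b - b * a ∈ g)
    (halt : ∀ x, ψ x x = 0) (hnd : ∀ x, (∀ y, ψ x y = 0) → x = 0)
    (hg : ∀ x ∈ g, ∀ u v, ψ (x u) v + ψ u (x v) = 0) {e : Module.End K V} (hee : e * e = e)
    (heψ : ∀ u v, ψ (e u) v + ψ u (e v) = ψ u v) (he : (2 : K) • e - 1 ∈ g)
    (hirr : ∀ W : Submodule K V,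
      (∀ y ∈ g, (e * y = y ∧ y * e = 0) ∨ (e * y = 0 ∧ y * e = y) → ∀ w ∈ W, y w ∈ W) →
      W = ⊥ ∨ W = ⊤)
    {u : (Module.End K V)ˣ} (hu : u ∈ expG K g)
    (hue : (u : Module.End K V) * e * ((u⁻¹ : (Module.End K V)ˣ) : Module.End K V) = 1 - e)
    (hn : ∀ m, 5 ≤ m → Module.finrank K V ≠ 2 ^ m) {D : Module.End K V}
    (hD : ∀ u v, ψ (D u) v + ψ u (D v) = 0) : D ∈ g := by
  obtain ⟨x, hx, hex, hxe, hinj⟩ := exists_tube_expG hlie hee he hu hue
  exact tube_sp hlie halt hnd hg hee heψ he hx hex hxe hinj hirr hn hD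

end Pool.Agent.Tube
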