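import Mathlib

/-!
# Jordan algebras of selfadjoint operators: primitive idempotents
-/

set_option autoImplicit false
set_option linter.unusedSectionVars false

namespace Pool.Agent.Tube

open Polynomial

variable {K V : Type*} [Field K] [CharZero K] [AddCommGroup V] [Module K V]

/-- a Jordan algebra of operators with unit `f`, selfadjoint for the symmetric form `q`, which is
nondegenerate on the range of `f`; irreducible on the range of `f`, with nondegenerate trace form -/
structure JD (q : V →ₗ[K] V →ₗ[K] K) (f : Module.End K V) (J : Submodule K (Module.End K V)) :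
    Prop where
  f0 : f ≠ 0
  mem : f ∈ J
  fa : ∀ a ∈ J, f * a = a
  af : ∀ a ∈ J, a * f = a
  jor : ∀ a ∈ J, ∀ b ∈ J, a * b + b * a ∈ J
  sym : ∀ x y, q x y = q y x
  sa : ∀ a ∈ J, ∀ x y, q (a x) y = q x (a y)
  nd : ∀ x, (∀ y, q x y = 0) → f x = 0
  irr : ∀ W : Submodule K V, W ≤ LinearMap.range f → (∀ a ∈ J, ∀ w ∈ W, a w ∈ W) →
    W = ⊥ ∨ W = LinearMap.range f
  tr : ∀ a ∈ J, (∀ b ∈ J, LinearMap.trace K V (a * b) = 0) → a = 0

namespace JD

variable {q : V →ₗ[K] V →ₗ[K] K} {f : Module.End K V} {J : Submodule K (Module.End K V)}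

theorem half_mem {A : Type*} [AddCommGroup A] [Module K A] {J : Submodule K A} {a : A}
    (h : a + a ∈ J) : a ∈ J := by
  have h2 := J.smul_mem (2⁻¹ : K) h
  rwa [← two_smul K a, smul_smul, inv_mul_cancel₀ (two_ne_zero), one_smul] at h2

section

variable (H : JD q f J)
include H

theorem sq {a : Module.End K V} (ha : a ∈ J) : a * a ∈ J := half_mem (H.jor a ha a ha)

theorem ff : f * f = f := H.fa f H.mem

theorem quad {a b : Module.End K V} (ha : a ∈ J) (hb : b ∈ J) : a * b * a ∈ J := by
  apply half_mem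
  have h1 := H.jor a ha _ (H.jor a ha b hb)
  have h2 := H.jor _ (H.sq ha) b hb
  have h3 := J.sub_mem h1 h2
  have h4 : a * (a * b + b * a) + (a * b + b * a) * a - (a * a * b + b * (a * a)) =
      a * b * a + a * b * a := by noncomm_ring
  rwa [h4] at h3

theorem trip {a b c : Module.End K V} (ha : a ∈ J) (hb : b ∈ J) (hc : c ∈ J) :
    a * b * c + c * b * a ∈ J := by
  have h1 := H.quad (J.add_mem ha hc) hb
  have h2 := J.sub_mem (J.sub_mem h1 (H.quad ha hb)) (H.quad hc hb)
  have h3 : (a + c) * b * (a + c) - a * b * a - c * b * c = a * b * c + c * b * a := by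
    noncomm_ring
  rwa [h3] at h2

theorem pow_mem {p b : Module.End K V} (hp : p ∈ J) (hb : b ∈ J) (hpb : p * b = b)
    (hbp : b * p = b) (n : ℕ) : p * b ^ n ∈ J := by
  induction n with
  | zero => rwa [pow_zero, mul_one]
  | succ n ih =>
    apply half_mem
    have h1 := H.jor _ hb _ ih
    have h2 : b * (p * b ^ n) + p * b ^ n * b = p * b ^ (n + 1) + p * b ^ (n + 1) := by
      rw [← mul_assoc b p, hbp, mul_assoc p (b ^ n) b, ← pow_succ, ← pow_succ']
      congr 1
      rw [pow_succ', ← mul_assoc, hpb]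
    rwa [h2] at h1

theorem aeval_mem {p b : Module.End K V} (hp : p ∈ J) (hb : b ∈ J) (hpb : p * b = b)
    (hbp : b * p = b) (F : K[X]) : p * aeval b F ∈ J := by
  induction F using Polynomial.induction_on' with
  | add F G hF hG =>
    rw [map_add, mul_add]
    exact J.add_mem hF hG
  | monomial n c =>
    rw [aeval_monomial, ← Algebra.smul_def, mul_smul_comm]
    exact J.smul_mem c (H.pow_mem hp hb hpb hbp n)

end

section Prim

variable [IsAlgClosed K] [FiniteDimensional K V] (H : JD q f J)
include H

/-- an idempotent of minimal rank: `p a p` has one eigenvalue on the range of `p` -/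
theorem key {p : Module.End K V} (hp : p ∈ J) (hpp : p * p = p) (hp0 : p ≠ 0)
    (hmin : ∀ r ∈ J, r * r = r → r ≠ 0 →
      Module.finrank K (LinearMap.range p) ≤ Module.finrank K (LinearMap.range r))
    {a : Module.End K V} (ha : a ∈ J) :
    ∃ l : K, IsNilpotent (p * a * p - l • p) := by
  have hb : p * a * p ∈ J := H.quad hp ha
  set b := p * a * p with hbdef
  have hpb : p * b = b := by rw [hbdef, ← mul_assoc, ← mul_assoc, hpp]
  have hbp : b * p = b := by rw [hbdef, mul_assoc, hpp]
  have hnt : Nontrivial (LinearMap.range p) := by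
    by_contra h
    rw [not_nontrivial_iff_subsingleton] at h
    apply hp0
    rw [← LinearMap.range_eq_bot]
    exact (Submodule.eq_bot_iff _).2 fun x hx => by
      have := h.elim ⟨x, hx⟩ 0
      exact congrArg Subtype.val this
  have hrange : ∀ v ∈ LinearMap.range p, b v ∈ LinearMap.range p := by
    intro v _
    rw [← hpb]
    exact ⟨b v, rfl⟩
  obtain ⟨l, hl⟩ := Module.End.exists_eigenvalue (b.restrict hrange)
  obtain ⟨w, hw⟩ := hl.exists_hasEigenvector
  have hw0 : (w : V) ≠ 0 := by
    have := hw.2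
    simpa using this
  have hwl : b (w : V) = l • (w : V) := by
    have := hw.apply_eq_smul
    have h2 := congrArg (fun z : LinearMap.range p => (z : V)) this
    simpa using h2
  have hpw : p (w : V) = w := by
    obtain ⟨y, hy⟩ := w.2
    rw [← hy]
    exact LinearMap.congr_fun hpp y
  have hm0 : minpoly K b ≠ 0 := minpoly.ne_zero (Algebra.IsIntegral.isIntegral b)
  obtain ⟨r, hq1, hq2⟩ := Polynomial.exists_eq_pow_rootMultiplicity_mul_and_not_dvd
    (minpoly K b) hm0 l
  set k := rootMultiplicity l (minpoly K b) with hk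
  have hcop : IsCoprime ((X - C l) ^ k) r :=
    IsCoprime.pow_left (((Polynomial.irreducible_X_sub_C l).coprime_iff_not_dvd).2 hq2)
  obtain ⟨u, v, huv⟩ := hcop
  have hmB : aeval b ((X - C l) ^ k * r) = 0 := by
    rw [← hq1]
    exact minpoly.aeval K b
  have hBl : aeval b (X - C l) = b - algebraMap K _ l := by simp
  set P := aeval b (v * r) with hP
  have hcomm : ∀ F : K[X], p * aeval b F = aeval b F * p := by
    intro F
    have h1 : Commute p b := by
      rw [Commute, SemiconjBy, hpb, hbp]
    induction F using Polynomial.induction_on' with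
    | add F G hF hG => rw [map_add, mul_add, add_mul, hF, hG]
    | monomial n c =>
      rw [aeval_monomial, ← Algebra.smul_def, mul_smul_comm, smul_mul_assoc,
        (h1.pow_right n).eq]
  have hPP : P * P = P := by
    have h1 : (v * r) * (v * r) = v * r - v * u * ((X - C l) ^ k * r) := by
      linear_combination v * r * huv
    rw [hP, ← map_mul, h1, map_sub, map_mul _ (v * u), hmB, mul_zero, sub_zero]
  have hr : p * P ∈ J := H.aeval_mem hp hb hpb hbp _
  have hpP : p * P = P * p := hcomm _
  have hrr : p * P * (p * P) = p * P := by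
    calc p * P * (p * P) = p * P * (P * p) := by rw [hpP]
      _ = p * (P * P) * p := by simp only [mul_assoc]
      _ = p * P := by rw [hPP, hpP, mul_assoc, hpp]
  -- `k ≠ 0`
  have hk0 : k ≠ 0 := by
    intro h0
    rw [h0, pow_zero, one_mul] at hq1
    have h3 : aeval b (minpoly K b) (w : V) = (minpoly K b).eval l • (w : V) :=
      Module.End.aeval_apply_of_hasEigenvector (f := b) (μ := l) (x := (w : V))
        ⟨Module.End.mem_eigenspace_iff.2 hwl, hw0⟩
    rw [minpoly.aeval, LinearMap.zero_apply] at h3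
    have h4 : (minpoly K b).eval l = 0 := by
      rcases smul_eq_zero.1 h3.symm with h | h
      · exact h
      · exact absurd h hw0
    exact hq2 (by rw [← hq1]; exact Polynomial.dvd_iff_isRoot.2 h4)
  have hPw : P (w : V) = w := by
    have h3 : aeval b (v * r) (w : V) = (v * r).eval l • (w : V) :=
      Module.End.aeval_apply_of_hasEigenvector (f := b) (μ := l) (x := (w : V))
        ⟨Module.End.mem_eigenspace_iff.2 hwl, hw0⟩
    have h4 : (v * r).eval l = 1 := by
      have h5 := congrArg (Polynomial.eval l) huv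
      simp only [eval_add, eval_mul, eval_pow, eval_sub, eval_X, eval_C, sub_self,
        zero_pow hk0, mul_zero, zero_add, eval_one] at h5
      rw [eval_mul, h5]
    rw [hP, h3, h4, one_smul]
  have hr0 : p * P ≠ 0 := by
    intro h
    apply hw0
    have := LinearMap.congr_fun h (w : V)
    rwa [Module.End.mul_apply, hPw, hpw, LinearMap.zero_apply] at this
  have hle : LinearMap.range (p * P) ≤ LinearMap.range p := by
    rintro _ ⟨x, rfl⟩
    exact ⟨P x, rfl⟩
  have heq : LinearMap.range (p * P) = LinearMap.range p :=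
    Submodule.eq_of_le_of_finrank_le hle (hmin _ hr hrr hr0)
  have hPp : P * p = p := by
    ext x
    have h1 : p x ∈ LinearMap.range (p * P) := by rw [heq]; exact ⟨x, rfl⟩
    obtain ⟨y, hy⟩ := h1
    rw [Module.End.mul_apply, ← hy, hP, hcomm (v * r), ← hP, Module.End.mul_apply,
      ← Module.End.mul_apply, ← Module.End.mul_apply, hPP]
    rfl
  refine ⟨l, k, ?_⟩
  have h1 : b - l • p = (b - algebraMap K _ l) * p := by
    rw [sub_mul, hbp, Algebra.algebraMap_eq_smul_one, smul_mul_assoc, one_mul]
  have h2 : Commute (b - algebraMap K _ l) p := by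
    rw [← hBl]
    exact (hcomm _).symm
  rw [h1, h2.mul_pow, ← hBl, ← map_pow]
  obtain ⟨j, hj⟩ := Nat.exists_eq_succ_of_ne_zero hk0
  have h3 : p ^ k = p := by
    rw [hj]
    exact (show IsIdempotentElem p from hpp).pow_succ_eq j
  rw [h3]
  have h4 : aeval b ((X - C l) ^ k) * p = aeval b ((X - C l) ^ k) * P * p := by
    rw [mul_assoc, hPp]
  rw [h4, hP, ← map_mul, show (X - C l) ^ k * (v * r) = v * ((X - C l) ^ k * r) by ring, map_mul,
    hmB, mul_zero, zero_mul]

theorem exists_prim : ∃ p ∈ J, p * p = p ∧ p ≠ 0 ∧ ∀ a ∈ J, ∃ l : K, p * a * p = l • p := by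
  classical
  have hex : ∃ s : ℕ, ∃ c ∈ J, c * c = c ∧ c ≠ 0 ∧ Module.finrank K (LinearMap.range c) = s :=
    ⟨_, f, H.mem, H.ff, H.f0, rfl⟩
  obtain ⟨p, hp, hpp, hp0, hps⟩ := Nat.find_spec hex
  have hmin : ∀ r ∈ J, r * r = r → r ≠ 0 →
      Module.finrank K (LinearMap.range p) ≤ Module.finrank K (LinearMap.range r) := by
    intro d hd hdd hdo
    rw [hps]
    exact Nat.find_min' hex ⟨d, hd, hdd, hdo, rfl⟩
  refine ⟨p, hp, hpp, hp0, fun a ha => ?_⟩
  have hkey := fun {a} ha => H.key hp hpp hp0 hmin (a := a) ha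
  have htp : LinearMap.trace K V p ≠ 0 := by
    intro h
    have h1 : IsIdempotentElem p := hpp
    have h2 : LinearMap.trace K V p = Module.finrank K (LinearMap.range p) :=
      LinearMap.IsProj.trace (LinearMap.isProj_range_iff_isIdempotentElem p |>.2 h1)
    rw [h2, Nat.cast_eq_zero, Submodule.finrank_eq_zero, LinearMap.range_eq_bot] at h
    exact hp0 h
  have htn : ∀ N : Module.End K V, IsNilpotent N → LinearMap.trace K V N = 0 := fun N hN =>
    (LinearMap.isNilpotent_trace_of_isNilpotent hN).eq_zero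
  have htnn : ∀ N : Module.End K V, IsNilpotent N → LinearMap.trace K V (N * N) = 0 :=
    fun N hN => htn _ ((Commute.refl N).isNilpotent_mul_left hN)
  obtain ⟨l, hl⟩ := hkey ha
  refine ⟨l, sub_eq_zero.1 ?_⟩
  set N := p * a * p - l • p with hNdef
  have hN : N ∈ J := J.sub_mem (H.quad hp ha) (J.smul_mem _ hp)
  have hpN : p * N = N := by
    rw [hNdef, mul_sub, mul_smul_comm, hpp, ← mul_assoc, ← mul_assoc, hpp]
  have hNp : N * p = N := by
    rw [hNdef, sub_mul, smul_mul_assoc, hpp, mul_assoc, hpp]
  refine H.tr N hN fun d hd => ?_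
  obtain ⟨l', hl'⟩ := hkey hd
  set N' := p * d * p - l' • p with hNdef'
  have hN' : N' ∈ J := J.sub_mem (H.quad hp hd) (J.smul_mem _ hp)
  have hpN' : p * N' * p = N' := by
    rw [hNdef', mul_sub, sub_mul, mul_smul_comm, hpp, smul_mul_assoc, hpp, ← mul_assoc,
      ← mul_assoc, hpp, mul_assoc (p * d), hpp]
  obtain ⟨m, hm⟩ := hkey (J.add_mem hN hN')
  have h1 : p * (N + N') * p = N + N' := by
    rw [mul_add, add_mul, hpN', hpN, hNp]
  rw [h1] at hm
  have hm0 : m = 0 := by
    have h2 := htn _ hm
    rw [map_sub, map_add, htn N hl, htn N' hl', map_smul, add_zero, zero_sub, neg_eq_zero,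
      smul_eq_mul, mul_eq_zero] at h2
    exact h2.resolve_right htp
  rw [hm0, zero_smul, sub_zero] at hm
  have h2 := htnn _ hm
  rw [add_mul, mul_add, mul_add, map_add, map_add, map_add, htnn N hl, htnn N' hl',
    LinearMap.trace_mul_comm K N' N] at h2
  have h3 : LinearMap.trace K V (N * N') = 0 := by
    have : (2 : K) * LinearMap.trace K V (N * N') = 0 := by linear_combination h2
    exact (mul_eq_zero.1 this).resolve_left two_ne_zero
  have h4 : N * d = N * (d * p) + N * (d - d * p) := by rw [← mul_add, add_sub_cancel]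
  have h5 : LinearMap.trace K V (N * d) = LinearMap.trace K V (N * (p * d * p)) := by
    rw [← mul_assoc, ← mul_assoc, hNp, LinearMap.trace_mul_comm K (N * d) p, ← mul_assoc, hpN]
  rw [h5]
  have h6 : p * d * p = N' + l' • p := by rw [hNdef', sub_add_cancel]
  rw [h6, mul_add, map_add, h3, mul_smul_comm, hNp, map_smul, htn N hl, smul_zero, add_zero]

end Prim

end JD

end Pool.Agent.Tube
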