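import Pool.Agent.Tube.Sp

/-!
# Conjugate idempotents: if `e` and `1 - e` are conjugate, the tube element exists
-/

set_option autoImplicit false
set_option linter.unusedSectionVars false

namespace Pool.Agent.Tube

open Pool.Agent.OddRank Polynomial

section Exp

variable (K : Type*) {A : Type*} [Field K] [CharZero K] [Ring A] [Algebra K A]

/-- the exponential of a nilpotent element -/
noncomputable def ex (N : A) : A :=
  ∑ i ∈ Finset.range (nilpotencyClass N), (i.factorial : K)⁻¹ • N ^ i

/-- comparison with the exponential of Mathlib -/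
theorem ex_eq (N : A) : letI : Module ℚ A := Module.compHom A (algebraMap ℚ K)
    ex K N = IsNilpotent.exp N := by
  let _ : Module ℚ A := Module.compHom A (algebraMap ℚ K)
  have h : ∀ (r : ℚ) (a : A), r • a = (algebraMap ℚ K r) • a := fun r a => rfl
  rw [ex, IsNilpotent.exp]
  refine Finset.sum_congr rfl fun i _ => ?_
  rw [h, map_inv₀, map_natCast]

theorem ex_eq_sum {N : A} {k : ℕ} (h : N ^ k = 0) :
    ex K N = ∑ i ∈ Finset.range k, (i.factorial : K)⁻¹ • N ^ i := by
  let _ : Module ℚ A := Module.compHom A (algebraMap ℚ K)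
  have h' : ∀ (r : ℚ) (a : A), r • a = (algebraMap ℚ K r) • a := fun r a => rfl
  rw [show ex K N = IsNilpotent.exp N from ex_eq K N, IsNilpotent.exp_eq_sum h]
  refine Finset.sum_congr rfl fun i _ => ?_
  rw [h', map_inv₀, map_natCast]

theorem ex_zero : ex K (0 : A) = 1 := by
  rw [ex_eq_sum K (N := (0 : A)) (k := 1) (by rw [pow_one]), Finset.sum_range_one,
    Nat.factorial_zero, Nat.cast_one, inv_one, one_smul, pow_zero]

theorem ex_add {a b : A} (h : Commute a b) (ha : IsNilpotent a) (hb : IsNilpotent b) :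
    ex K (a + b) = ex K a * ex K b := by
  let _ : Module ℚ A := Module.compHom A (algebraMap ℚ K)
  have h1 := IsNilpotent.exp_add_of_commute h ha hb
  rw [show ex K (a + b) = IsNilpotent.exp (a + b) from ex_eq K _,
    show ex K a = IsNilpotent.exp a from ex_eq K _,
    show ex K b = IsNilpotent.exp b from ex_eq K _]
  exact h1

theorem ex_neg {N : A} (hN : IsNilpotent N) : ex K N * ex K (-N) = 1 := by
  rw [← ex_add K (Commute.refl N).neg_right hN hN.neg, add_neg_cancel, ex_zero]

theorem ex_neg' {N : A} (hN : IsNilpotent N) : ex K (-N) * ex K N = 1 := by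
  rw [← ex_add K (Commute.refl N).neg_left hN.neg hN, neg_add_cancel, ex_zero]

/-- conjugation by an exponential -/
theorem ex_conj {g : Submodule K A} {e N : A} (hlie : ∀ a ∈ g, ∀ b ∈ g, a * b - b * a ∈ g)
    (heg : ∀ a ∈ g, e * a - a * e ∈ g) (hN : N ∈ g) (hnil : IsNilpotent N) {c : A}
    (hc : c - e ∈ g) : ex K N * c * ex K (-N) - e ∈ g := by
  obtain ⟨k, hk⟩ := hnil
  let L : Module.End K A := LinearMap.mulLeft K N
  let R : Module.End K A := LinearMap.mulRight K (-N)
  have hL : ∀ a, L a = N * a := fun a => rfl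
  have hR : ∀ a, R a = a * -N := fun a => rfl
  have hLp : ∀ (i : ℕ) a, (L ^ i) a = N ^ i * a := by
    intro i
    induction i with
    | zero => intro a; simp
    | succ i ih => intro a; rw [pow_succ, Module.End.mul_apply, ih, hL, pow_succ, mul_assoc]
  have hRp : ∀ (i : ℕ) a, (R ^ i) a = a * (-N) ^ i := by
    intro i
    induction i with
    | zero => intro a; simp
    | succ i ih => intro a; rw [pow_succ, Module.End.mul_apply, ih, hR, pow_succ', mul_assoc]
  have hk' : (-N) ^ k = 0 := by rw [neg_pow, hk, mul_zero]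
  have hLk : L ^ k = 0 := by
    ext a
    rw [hLp, hk, zero_mul, LinearMap.zero_apply]
  have hRk : R ^ k = 0 := by
    ext a
    rw [hRp, hk', mul_zero, LinearMap.zero_apply]
  have hcomm : Commute L R := by
    have h0 : ∀ a, (L * R) a = (R * L) a := by
      intro a
      rw [Module.End.mul_apply, Module.End.mul_apply, hL, hR, hL, hR, mul_assoc]
    exact LinearMap.ext h0
  have hexL : ∀ a, ex K L a = ex K N * a := by
    intro a
    rw [ex_eq_sum K hLk, ex_eq_sum K hk, LinearMap.sum_apply, Finset.sum_mul]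
    refine Finset.sum_congr rfl fun i _ => ?_
    rw [LinearMap.smul_apply, hLp, smul_mul_assoc]
  have hexR : ∀ a, ex K R a = a * ex K (-N) := by
    intro a
    rw [ex_eq_sum K hRk, ex_eq_sum K hk', LinearMap.sum_apply, Finset.mul_sum]
    refine Finset.sum_congr rfl fun i _ => ?_
    rw [LinearMap.smul_apply, hRp, mul_smul_comm]
  have h1 : ex K (L + R) c = ex K N * c * ex K (-N) := by
    rw [ex_add K hcomm ⟨k, hLk⟩ ⟨k, hRk⟩, Module.End.mul_apply, hexR, hexL, mul_assoc]
  obtain ⟨m, hm⟩ := hcomm.isNilpotent_add ⟨k, hLk⟩ ⟨k, hRk⟩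
  have hD : ∀ a, (L + R) a = N * a - a * N := by
    intro a
    rw [LinearMap.add_apply, hL, hR, mul_neg, sub_eq_add_neg]
  have hDi : ∀ i : ℕ, ((L + R) ^ (i + 1)) c ∈ g := by
    intro i
    induction i with
    | zero =>
      rw [zero_add, pow_one, hD]
      have h2 : N * c - c * N = (N * (c - e) - (c - e) * N) - (e * N - N * e) := by noncomm_ring
      rw [h2]
      exact g.sub_mem (hlie N hN _ hc) (heg N hN)
    | succ i ih =>
      rw [pow_succ', Module.End.mul_apply, hD]
      exact hlie N hN _ ih
  have hm1 : (L + R) ^ (m + 1) = 0 := by rw [pow_succ, hm, zero_mul]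
  rw [← h1, ex_eq_sum K hm1, Finset.sum_range_succ', LinearMap.add_apply, Nat.factorial_zero,
    Nat.cast_one, inv_one, one_smul, pow_zero, Module.End.one_apply, add_sub_assoc,
    LinearMap.sum_apply]
  refine g.add_mem (Submodule.sum_mem _ fun i _ => ?_) hc
  rw [LinearMap.smul_apply]
  exact g.smul_mem _ (hDi i)

end Exp

section Poly

variable {K V : Type*} [Field K] [AddCommGroup V] [Module K V] [FiniteDimensional K V]

/-- families of endomorphisms that are polynomial in the parameter -/
def PF (A : K → Module.End K V) : Prop :=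
  ∃ M : Matrix (Fin (Module.finrank K V)) (Fin (Module.finrank K V)) K[X], ∀ t,
    LinearMap.toMatrix (Module.finBasis K V) (Module.finBasis K V) (A t) =
      (evalRingHom t).mapMatrix M

theorem PF.const (a : Module.End K V) : PF (fun _ : K => a) := by
  refine ⟨(C : K →+* K[X]).mapMatrix
    (LinearMap.toMatrix (Module.finBasis K V) (Module.finBasis K V) a), fun t => ?_⟩
  ext i j
  simp

theorem PF.mul {A B : K → Module.End K V} (hA : PF A) (hB : PF B) : PF (fun t => A t * B t) := by
  obtain ⟨M, hM⟩ := hA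
  obtain ⟨N, hN⟩ := hB
  refine ⟨M * N, fun t => ?_⟩
  rw [LinearMap.toMatrix_mul, hM, hN, map_mul]

theorem PF.add {A B : K → Module.End K V} (hA : PF A) (hB : PF B) : PF (fun t => A t + B t) := by
  obtain ⟨M, hM⟩ := hA
  obtain ⟨N, hN⟩ := hB
  refine ⟨M + N, fun t => ?_⟩
  rw [map_add, hM, hN, map_add]

theorem PF.pow_smul (i : ℕ) (a : Module.End K V) : PF (fun t : K => t ^ i • a) := by
  refine ⟨(X ^ i : K[X]) • (C : K →+* K[X]).mapMatrix
    (LinearMap.toMatrix (Module.finBasis K V) (Module.finBasis K V) a), fun t => ?_⟩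
  ext j k
  simp only [map_smul, Matrix.smul_apply, RingHom.mapMatrix_apply, Matrix.map_apply,
    smul_eq_mul, coe_evalRingHom, eval_mul, eval_pow, eval_X, eval_C]

theorem PF.sum {ι : Type*} (s : Finset ι) {A : ι → K → Module.End K V} (h : ∀ i ∈ s, PF (A i)) :
    PF (fun t => ∑ i ∈ s, A i t) := by
  classical
  induction s using Finset.induction_on with
  | empty =>
    simp only [Finset.sum_empty]
    exact PF.const 0
  | insert i s hi ih =>
    simp only [Finset.sum_insert hi]
    exact (h i (Finset.mem_insert_self i s)).add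
      (ih fun j hj => h j (Finset.mem_insert_of_mem hj))

theorem PF.ex [CharZero K] {N : Module.End K V} (hN : IsNilpotent N) :
    PF (fun t : K => ex K (t • N)) := by
  obtain ⟨k, hk⟩ := hN
  have h1 : (fun t : K => Tube.ex K (t • N)) =
      fun t => ∑ i ∈ Finset.range k, t ^ i • ((i.factorial : K)⁻¹ • N ^ i) := by
    funext t
    rw [ex_eq_sum K (N := t • N) (k := k) (by rw [_root_.smul_pow, hk, smul_zero])]
    refine Finset.sum_congr rfl fun i _ => ?_
    rw [_root_.smul_pow, smul_smul, smul_smul, mul_comm]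
  rw [h1]
  exact PF.sum _ fun i _ => PF.pow_smul i _

theorem PF.det {A : K → Module.End K V} (hA : PF A) :
    ∃ P : K[X], ∀ t, LinearMap.det (A t) = P.eval t := by
  obtain ⟨M, hM⟩ := hA
  refine ⟨M.det, fun t => ?_⟩
  rw [← LinearMap.det_toMatrix (Module.finBasis K V), hM, ← RingHom.map_det, coe_evalRingHom]

end Poly

end Pool.Agent.Tube
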