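import Pool.Agent.Tube.Orbit
import Pool.Agent.Tube.Main

/-!
# Conjugate idempotents: existence of the tube element, and the final theorem
-/

set_option autoImplicit false
set_option linter.unusedSectionVars false

namespace Pool.Agent.Tube

open Pool.Agent.OddRank Polynomial

variable {K V : Type*} [Field K] [CharZero K] [AddCommGroup V] [Module K V]

/-- the idempotent `c` near `e` gives elements of degree one -/
theorem near [FiniteDimensional K V] {g : Submodule K (Module.End K V)} {e c : Module.End K V}
    (hee : e * e = e) (heg : ∀ a ∈ g, e * a - a * e ∈ g)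
    (hlie : ∀ a ∈ g, ∀ b ∈ g, a * b - b * a ∈ g) (hcc : c * c = c) (hc : c - e ∈ g)
    (h00 : ∀ v, e v = 0 → v - e v - c (v - e v) - e (v - e v - c (v - e v)) = 0 → v = 0)
    (h10 : ∀ v, e v = 0 → e (c v) = 0 → v = 0) :
    ∃ x ∈ gp g e, ∀ v, e v = 0 → x v = 0 → v = 0 := by
  obtain ⟨f, hf⟩ : ∃ f, f = 1 - e := ⟨_, rfl⟩
  have hff : f * f = f := by rw [hf, mul_sub, mul_one, sub_mul, one_mul, hee, sub_self, sub_zero]
  have hef : e * f = 0 := by rw [hf, mul_sub, mul_one, hee, sub_self]
  have hfe : f * e = 0 := by rw [hf, sub_mul, one_mul, hee, sub_self]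
  have h1ef : e + f = 1 := by rw [hf, add_sub_cancel]
  obtain ⟨a, ha⟩ : ∃ a, a = c - e := ⟨_, rfl⟩
  rw [← ha] at hc
  -- the blocks
  have h10g : e * a * f ∈ g := by rw [hf]; exact deg_one_mem hee heg hc
  have h01g : f * a * e ∈ g := by rw [hf]; exact deg_neg_mem hee heg hc
  obtain ⟨b, hb⟩ : ∃ b, b = f * a * f := ⟨_, rfl⟩
  obtain ⟨d, hd⟩ : ∃ d, d = e * a * e := ⟨_, rfl⟩
  have hdb : d + b ∈ g := by
    have h1 : d + b = a - e * a * f - f * a * e := by
      have h2 : a = (e + f) * a * (e + f) := by rw [h1ef, one_mul, mul_one]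
      conv_rhs => rw [h2]
      rw [hd, hb]
      have e1 : e * ((e + f) * a * (e + f)) * f = e * a * f := by
        rw [h1ef, one_mul, mul_one]
      have e2 : f * ((e + f) * a * (e + f)) * e = f * a * e := by
        rw [h1ef, one_mul, mul_one]
      rw [e1, e2]
      noncomm_ring
    rw [h1]
    exact g.sub_mem (g.sub_mem hc h10g) h01g
  -- the idempotent equation
  have hidem : e * a + a * e + a * a = a := by
    have h1 : c = e + a := by rw [ha, add_sub_cancel]
    rw [h1] at hcc
    have h2 : (e + a) * (e + a) = e * e + (e * a + a * e + a * a) := by noncomm_ring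
    rw [h2, hee] at hcc
    exact add_left_cancel hcc
  have hcross : d * (e * a * f) = -(e * a * f * b) := by
    have h1 : e * (e * a + a * e + a * a) * f = e * a * f := by rw [hidem]
    have h2 : e * (e * a + a * e + a * a) * f = e * e * a * f + e * a * (e * f) +
        e * a * (a * f) := by noncomm_ring
    rw [h2, hee, hef, mul_zero, add_zero, add_eq_left] at h1
    have h3 : e * a * (a * f) = e * a * (e + f) * (a * f) := by rw [h1ef, mul_one]
    rw [h3, mul_add, add_mul] at h1
    have h4 : d * (e * a * f) = e * a * e * (a * f) := by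
      rw [hd, mul_assoc (e * a) e (e * a * f), ← mul_assoc e (e * a) f, ← mul_assoc e e a, hee]
      simp only [mul_assoc]
    have h5 : e * a * f * b = e * a * f * (a * f) := by
      rw [hb, mul_assoc (e * a) f (f * a * f), ← mul_assoc f (f * a) f, ← mul_assoc f f a, hff]
      simp only [mul_assoc]
    rw [h4, h5]
    exact eq_neg_of_add_eq_zero_left h1
  have hbe : b * e = 0 := by rw [hb, mul_assoc, hfe, mul_zero]
  have hbd : b * d = 0 := by rw [hd, ← mul_assoc, ← mul_assoc, hbe, zero_mul, zero_mul]
  have heb : e * b = 0 := by rw [hb, ← mul_assoc, ← mul_assoc, hef, zero_mul, zero_mul]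
  -- the elements `e a f b^k`
  have hpow : ∀ k : ℕ, e * a * f * b ^ k ∈ g ∧ d * (e * a * f * b ^ k) =
      -(e * a * f * b ^ (k + 1)) := by
    intro k
    have h2 : d * (e * a * f * b ^ k) = -(e * a * f * b ^ (k + 1)) := by
      rw [← mul_assoc, hcross, neg_mul, mul_assoc, ← pow_succ']
    refine ⟨?_, h2⟩
    induction k with
    | zero => rw [pow_zero, mul_one]; exact h10g
    | succ k ih =>
      have h3 : d * (e * a * f * b ^ k) = -(e * a * f * b ^ (k + 1)) := by
        rw [← mul_assoc, hcross, neg_mul, mul_assoc, ← pow_succ']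
      have h4 := hlie _ hdb _ (ih h3)
      have h5 : (d + b) * (e * a * f * b ^ k) - e * a * f * b ^ k * (d + b) =
          -(e * a * f * b ^ (k + 1) + e * a * f * b ^ (k + 1)) := by
        have e1 : b * (e * a * f * b ^ k) = 0 := by
          rw [← mul_assoc, ← mul_assoc, ← mul_assoc, hbe, zero_mul, zero_mul, zero_mul]
        have e2 : e * a * f * b ^ k * d = 0 := by
          have e3 : f * b ^ k * d = 0 := by
            rcases k with _ | k
            · rw [pow_zero, mul_one, hd, ← mul_assoc, ← mul_assoc, hfe, zero_mul, zero_mul]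
            · rw [pow_succ, ← mul_assoc, mul_assoc _ b d, hbd, mul_zero]
          rw [mul_assoc (e * a), mul_assoc (e * a), e3, mul_zero]
        have e4 : e * a * f * b ^ k * b = e * a * f * b ^ (k + 1) := by
          rw [pow_succ, ← mul_assoc]
        rw [add_mul, mul_add, h3, e1, e2, zero_add, add_zero, e4]
        abel
      rw [h5] at h4
      have h6 := g.neg_mem h4
      rw [neg_neg] at h6
      exact JD.half_mem h6
  have hF : ∀ F : K[X], e * a * f * aeval b F ∈ g := by
    intro F
    induction F using Polynomial.induction_on' with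
    | add F G hF hG =>
      rw [map_add, mul_add]
      exact g.add_mem hF hG
    | monomial n t =>
      rw [aeval_monomial, ← Algebra.smul_def, mul_smul_comm]
      exact g.smul_mem t (hpow n).1
  -- the space of these elements
  let E : K[X] →ₗ[K] Module.End K V := (LinearMap.mulLeft K (e * a * f)).comp (aeval b).toLinearMap
  have hE : ∀ F, E F = e * a * f * aeval b F := fun F => rfl
  let L := LinearMap.range E
  let T : Module.End K V →ₗ[K] Module.End K V := LinearMap.mulRight K (1 - b)
  have hT : ∀ z, T z = z * (1 - b) := fun z => rfl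
  have hTL : ∀ z ∈ L, T z ∈ L := by
    rintro _ ⟨F, rfl⟩
    refine ⟨F * (1 - X), ?_⟩
    rw [hT, hE, hE, map_mul, map_sub, map_one, aeval_X]
    simp only [mul_assoc]
  -- `1 - b` is invertible
  have hker : ∀ v, (1 - b) v = 0 → v = 0 := by
    intro v hv
    have hev : e v = 0 := by
      have h1 : e * (1 - b) = e := by rw [mul_sub, mul_one, heb, sub_zero]
      rw [← h1, Module.End.mul_apply, hv, map_zero]
    have hfv : f v = v := by rw [hf, LinearMap.sub_apply, hev, Module.End.one_apply, sub_zero]
    refine h00 v hev ?_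
    have h1 : b v = f (a v) := by
      rw [hb, Module.End.mul_apply, Module.End.mul_apply, hfv]
    rw [LinearMap.sub_apply, Module.End.one_apply, h1, ha, LinearMap.sub_apply, hev, sub_zero, hf,
      LinearMap.sub_apply, Module.End.one_apply] at hv
    rw [hev, sub_zero, map_sub, hev, zero_sub, sub_neg_eq_add, ← hv]
    abel
  have hinj : Function.Injective (1 - b : Module.End K V) := by
    rw [injective_iff_map_eq_zero]
    exact hker
  have hsurj : Function.Surjective (1 - b : Module.End K V) :=
    LinearMap.surjective_of_injective hinj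
  have hTinj : Function.Injective (T.restrict hTL) := by
    rw [injective_iff_map_eq_zero]
    rintro ⟨z, hz⟩ h
    ext1
    have h1 : z * (1 - b) = 0 := congrArg Subtype.val h
    ext v
    obtain ⟨w, rfl⟩ := hsurj v
    exact LinearMap.congr_fun h1 w
  have hTsurj : Function.Surjective (T.restrict hTL) :=
    LinearMap.surjective_of_injective hTinj
  obtain ⟨⟨x, F, hxF⟩, hx⟩ := hTsurj ⟨e * a * f, 1, by rw [hE, map_one, mul_one]⟩
  have hx1 : x * (1 - b) = e * a * f := congrArg Subtype.val hx
  rw [hE] at hxF
  refine ⟨x, ⟨?_, ?_, ?_⟩, ?_⟩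
  · rw [← hxF]
    exact hF F
  · rw [← hxF, ← mul_assoc, ← mul_assoc, ← mul_assoc, hee]
  · -- `x e = 0`: both sides agree after `(1 - b)`
    have h1 : (1 - b) * e = e := by rw [sub_mul, one_mul, hbe, sub_zero]
    rw [← h1, ← mul_assoc, hx1, mul_assoc, hfe, mul_zero]
  · intro v hv hxv
    obtain ⟨w, rfl⟩ := hsurj v
    rw [← Module.End.mul_apply, hx1] at hxv
    have hew : e w = 0 := by
      have h1 : e * (1 - b) = e := by rw [mul_sub, mul_one, heb, sub_zero]
      rw [← h1, Module.End.mul_apply, hv]
    have hfw : f w = w := by rw [hf, LinearMap.sub_apply, hew, Module.End.one_apply, sub_zero]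
    have hw0 : w = 0 := by
      refine h10 w hew ?_
      rw [Module.End.mul_apply, Module.End.mul_apply, hfw, ha, LinearMap.sub_apply, hew,
        sub_zero] at hxv
      exact hxv
    rw [hw0, map_zero]

/-- the group elements -/
def ExpSet (g : Submodule K (Module.End K V)) : Set (Module.End K V) :=
  {u | ∃ N ∈ g, IsNilpotent N ∧ u = ex K N}

/-- **Tube element.** If `1 - e` is conjugate to `e` under the group generated by the exponentials
of the nilpotent elements of `g`, then the part of degree one contains an injective element. -/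
theorem exists_tube [FiniteDimensional K V] {g : Submodule K (Module.End K V)}
    {e γ : Module.End K V} (hee : e * e = e) (heg : ∀ a ∈ g, e * a - a * e ∈ g)
    (hlie : ∀ a ∈ g, ∀ b ∈ g, a * b - b * a ∈ g)
    (hγ : γ ∈ Submonoid.closure (ExpSet g)) (hγe : γ * e = (1 - e) * γ) :
    ∃ x ∈ gp g e, ∀ v, e v = 0 → x v = 0 → v = 0 := by
  have hQ : ∃ A B : K → Module.End K V, PF A ∧ PF B ∧ (∀ t, A t * B t = 1) ∧
      (∀ t, B t * A t = 1) ∧ A 0 = 1 ∧ A 1 = γ ∧ ∀ t c, c - e ∈ g → A t * c * B t - e ∈ g := by
    clear hγe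
    induction hγ using Submonoid.closure_induction with
    | mem u hu =>
      obtain ⟨N, hN, hnil, rfl⟩ := hu
      have hn : ∀ t : K, IsNilpotent (t • N) := fun t => hnil.smul t
      refine ⟨fun t => ex K (t • N), fun t => ex K (-(t • N)), PF.ex hnil, ?_, fun t =>
        ex_neg K (hn t), fun t => ex_neg' K (hn t), ?_, ?_, fun t c hc =>
        ex_conj K hlie heg (g.smul_mem t hN) (hn t) hc⟩
      · have := PF.ex (K := K) hnil.neg
        simpa only [smul_neg] using this
      · simp only [zero_smul, ex_zero]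
      · simp only [one_smul]
    | one =>
      exact ⟨fun _ => 1, fun _ => 1, PF.const 1, PF.const 1, fun _ => mul_one _,
        fun _ => mul_one _, rfl, rfl, fun t c hc => by rwa [one_mul, mul_one]⟩
    | mul u v _ _ hu hv =>
      obtain ⟨A, B, h1, h2, h3, h4, h5, h6, h7⟩ := hu
      obtain ⟨A', B', h1', h2', h3', h4', h5', h6', h7'⟩ := hv
      refine ⟨fun t => A t * A' t, fun t => B' t * B t, h1.mul h1', h2'.mul h2, fun t => ?_,
        fun t => ?_, ?_, ?_, fun t c hc => ?_⟩
      · rw [mul_assoc, ← mul_assoc (A' t), h3', one_mul, h3]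
      · rw [mul_assoc, ← mul_assoc (B t), h4, one_mul, h4']
      · simp only [h5, h5', mul_one]
      · simp only [h6, h6']
      · have h8 := h7 t _ (h7' t c hc)
        have h9 : A t * A' t * c * (B' t * B t) = A t * (A' t * c * B' t) * B t := by
          simp only [mul_assoc]
        rw [h9]
        exact h8
  obtain ⟨A, B, hA, hB, hAB, hBA, hA0, hA1, hconj⟩ := hQ
  obtain ⟨f, hf⟩ : ∃ f, f = 1 - e := ⟨_, rfl⟩
  rw [← hf] at hγe
  have hff : f * f = f := by rw [hf, mul_sub, mul_one, sub_mul, one_mul, hee, sub_self, sub_zero]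
  have hef : e * f = 0 := by rw [hf, mul_sub, mul_one, hee, sub_self]
  have h1ef : f + e = 1 := by rw [hf, sub_add_cancel]
  have hB0 : B 0 = 1 := by
    have := hAB 0
    rwa [hA0, one_mul] at this
  -- the three determinants
  obtain ⟨P₁, hP₁⟩ := (((((PF.const (K := K) (f * B 1 * e)).mul hA).mul (PF.const f)).add
    (PF.const e))).det
  obtain ⟨P₂, hP₂⟩ := ((((PF.const (K := K) f).mul hA).mul (PF.const f)).add (PF.const e)).det
  obtain ⟨P₃, hP₃⟩ := ((((PF.const (K := K) f).mul hB).mul (PF.const f)).add (PF.const e)).det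
  have h1 : P₁.eval 1 = 1 := by
    rw [← hP₁, hA1]
    have h2 : f * B 1 * e * γ * f + e = 1 := by
      have h3 : e * B 1 = B 1 * f := by
        have h4 : B 1 * (γ * e) * B 1 = B 1 * (f * γ) * B 1 := by rw [hγe]
        have e1 : B 1 * γ = 1 := by rw [← hA1]; exact hBA 1
        have e2 : γ * B 1 = 1 := by rw [← hA1]; exact hAB 1
        rw [← mul_assoc (B 1) γ e, e1, one_mul, mul_assoc (B 1), mul_assoc f, e2, mul_one] at h4
        exact h4
      have h4 : f * B 1 * e = f * B 1 := by
        have h5 : f * B 1 * f = 0 := by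
          rw [mul_assoc, ← h3, ← mul_assoc]
          have hfe : f * e = 0 := by rw [hf, sub_mul, one_mul, hee, sub_self]
          rw [hfe, zero_mul]
        have h6 : f * B 1 = f * B 1 * f + f * B 1 * e := by rw [← mul_add, h1ef, mul_one]
        rw [h5, zero_add] at h6
        exact h6.symm
      have e1 : B 1 * γ = 1 := by rw [← hA1]; exact hBA 1
      rw [h4, mul_assoc f, e1, mul_one, hff, h1ef]
    rw [h2, map_one]
  have h2 : P₂.eval 0 = 1 := by
    rw [← hP₂, hA0, mul_one, hff, h1ef, map_one]
  have h3 : P₃.eval 0 = 1 := by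
    rw [← hP₃, hB0, mul_one, hff, h1ef, map_one]
  have hne : P₁ * P₂ * P₃ ≠ 0 := by
    refine mul_ne_zero (mul_ne_zero ?_ ?_) ?_
    · rintro rfl
      rw [eval_zero] at h1
      exact zero_ne_one h1
    · rintro rfl
      rw [eval_zero] at h2
      exact zero_ne_one h2
    · rintro rfl
      rw [eval_zero] at h3
      exact zero_ne_one h3
  obtain ⟨t, ht⟩ : ∃ t : K, (P₁ * P₂ * P₃).eval t ≠ 0 := by
    by_contra hcon
    push Not at hcon
    exact hne (Polynomial.funext fun t => by rw [hcon t, eval_zero])
  rw [eval_mul, eval_mul] at ht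
  have ht1 : P₁.eval t ≠ 0 := left_ne_zero_of_mul (left_ne_zero_of_mul ht)
  have ht2 : P₂.eval t ≠ 0 := right_ne_zero_of_mul (left_ne_zero_of_mul ht)
  have ht3 : P₃.eval t ≠ 0 := right_ne_zero_of_mul ht
  rw [← hP₁] at ht1
  rw [← hP₂] at ht2
  rw [← hP₃] at ht3
  have hk : ∀ M : Module.End K V, LinearMap.det M ≠ 0 → ∀ v, M v = 0 → v = 0 := by
    intro M hM v hv
    have h4 : IsUnit M := by
      rw [LinearMap.isUnit_iff_isUnit_det]
      exact isUnit_iff_ne_zero.2 hM
    have h5 : Function.Injective M := ((Module.End.isUnit_iff M).1 h4).1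
    exact h5 (by rw [hv, map_zero])
  have hfv : ∀ v, e v = 0 → f v = v := fun v hv => by
    rw [hf, LinearMap.sub_apply, hv, Module.End.one_apply, sub_zero]
  have hk1 : ∀ v, e v = 0 → e (A t v) = 0 → v = 0 := by
    intro v hv h4
    refine hk _ ht1 v ?_
    rw [LinearMap.add_apply, hv, add_zero]
    simp only [Module.End.mul_apply]
    rw [hfv v hv, h4, map_zero, map_zero]
  have hk2 : ∀ v, e v = 0 → f (A t v) = 0 → v = 0 := by
    intro v hv h4
    refine hk _ ht2 v ?_
    rw [LinearMap.add_apply, hv, add_zero]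
    simp only [Module.End.mul_apply]
    rw [hfv v hv, h4]
  have hk3 : ∀ v, e v = 0 → f (B t v) = 0 → v = 0 := by
    intro v hv h4
    refine hk _ ht3 v ?_
    rw [LinearMap.add_apply, hv, add_zero]
    simp only [Module.End.mul_apply]
    rw [hfv v hv, h4]
  -- the idempotent
  have hcc : A t * e * B t * (A t * e * B t) = A t * e * B t := by
    calc A t * e * B t * (A t * e * B t) = A t * e * (B t * A t) * (e * B t) := by
          simp only [mul_assoc]
      _ = A t * (e * e) * B t := by rw [hBA, mul_one]; simp only [mul_assoc]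
      _ = A t * e * B t := by rw [hee]
  have hc1 : 1 - A t * e * B t = A t * f * B t := by
    rw [hf, mul_sub, mul_one, sub_mul, hAB]
  have hfe' : ∀ v, e (f v) = 0 := fun v => by
    rw [← Module.End.mul_apply, hef, LinearMap.zero_apply]
  have hcv : ∀ v, v - (A t * e * B t) v = (A t) (f (B t v)) := fun v => by
    rw [← Module.End.mul_apply, ← Module.End.mul_apply, ← hc1, LinearMap.sub_apply,
      Module.End.one_apply]
  refine near hee heg hlie hcc (hconj t e (by rw [sub_self]; exact g.zero_mem)) ?_ ?_
  · intro v hv h4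
    rw [hv, sub_zero, hcv] at h4
    have h5 : f ((A t) (f (B t v))) = 0 := by
      rw [hf, LinearMap.sub_apply, Module.End.one_apply, ← hf]
      exact h4
    exact hk3 v hv (hk2 _ (hfe' _) h5)
  · intro v hv h4
    have h5 : e ((A t) (f (B t v))) = 0 := by
      rw [← hcv, map_sub, hv, h4, sub_zero]
    exact hk3 v hv (hk1 _ (hfe' _) h5)

/-- **Theorem T.** Let `g` be a Lie algebra of symplectic similitudes of `V` and let `e` be an
idempotent of multiplier one that normalises `g`, such that `V` is irreducible for the elements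
of `g` of degree one and minus one, and such that `e` and `1 - e` are conjugate under the group
generated by the exponentials of the nilpotent elements of `g`. If the dimension of `V` is not a
power of two, at least `32`, then `g` contains all skew endomorphisms. -/
theorem skew_mem_of_conj [IsAlgClosed K] [FiniteDimensional K V]
    {ψ : V →ₗ[K] V →ₗ[K] K} {g : Submodule K (Module.End K V)} {e γ : Module.End K V}
    (H : GD ψ g e)
    (hirr : ∀ W : Submodule K V, (∀ a ∈ gp g e, ∀ w ∈ W, a w ∈ W) →
      (∀ a ∈ gm g e, ∀ w ∈ W, a w ∈ W) → W = ⊥ ∨ W = ⊤)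
    (hγ : γ ∈ Submonoid.closure (ExpSet g)) (hγe : γ * e = (1 - e) * γ)
    (hdim : ∀ m, 5 ≤ m → Module.finrank K V ≠ 2 ^ m)
    {D : Module.End K V} (hD : ∀ u v, ψ (D u) v + ψ u (D v) = 0) : D ∈ g := by
  obtain ⟨x, hx, hinj⟩ := exists_tube H.hee H.heg H.hlie hγ hγe
  exact H.skew_mem_of_tube hx hinj hirr hdim hD

end Pool.Agent.Tube
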