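import Pool.Agent.Tube.Jordan

/-!
# Jordan algebras of selfadjoint operators: the Peirce decomposition
-/

set_option autoImplicit false
set_option linter.unusedSectionVars false

namespace Pool.Agent.Tube

variable {K V : Type*} [Field K] [CharZero K] [AddCommGroup V] [Module K V]

section Ring

variable {A : Type*} [Ring A]

/-- `u` exchanges the orthogonal idempotents `p` and `p₁` -/
structure Sw (p u p₁ : A) : Prop where
  pp : p * p = p
  qq : p₁ * p₁ = p₁
  pq : p * p₁ = 0
  qp : p₁ * p = 0
  uu : u * u = p + p₁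
  pu : p * u = u * p₁
  qu : p₁ * u = u * p
  u1 : u * p + u * p₁ = u

theorem sw_of {p u e : A} (hpp : p * p = p) (hee : e * e = e) (hpe : p * e = 0) (hep : e * p = 0)
    (hu : u = p * u * e + e * u * p) (huu : p * u * u * p = p) :
    Sw p u (u * p * u) ∧ e * (u * p * u) = u * p * u ∧ u * p * u * e = u * p * u := by
  have h1 : p * u = p * u * e := by
    conv_lhs => rw [hu]
    rw [mul_add, ← mul_assoc, ← mul_assoc, ← mul_assoc, ← mul_assoc, hpp, hpe, zero_mul,
      zero_mul, add_zero]
  have h2 : u * p = e * u * p := by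
    conv_lhs => rw [hu]
    rw [add_mul, mul_assoc (p * u), hep, mul_zero, zero_add, mul_assoc (e * u), hpp]
  have h3 : p * u * p = 0 := by rw [h1, mul_assoc, hep, mul_zero]
  have hup : u = p * u + u * p := by
    rw [h1, h2, ← hu]
  have hsq : u * u = p + u * p * u := by
    conv_lhs => rw [hup]
    rw [mul_add, add_mul, add_mul]
    have e1 : p * u * (p * u) = 0 := by rw [← mul_assoc, h3, zero_mul]
    have e2 : u * p * (p * u) = u * p * u := by rw [← mul_assoc, mul_assoc u p p, hpp]
    have e3 : p * u * (u * p) = p := by rw [← mul_assoc, huu]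
    have e4 : u * p * (u * p) = 0 := by rw [mul_assoc, ← mul_assoc p, h3, mul_zero]
    rw [e1, e2, e3, e4, zero_add, add_zero, add_comm]
  have h4 : u * u * p = p := by
    rw [hsq, add_mul, hpp, mul_assoc, mul_assoc, ← mul_assoc p, h3, mul_zero, add_zero]
  have h5 : p * u * u = p := by
    rw [mul_assoc, hsq, mul_add, hpp, ← mul_assoc, ← mul_assoc, h3, zero_mul, add_zero]
  refine ⟨⟨hpp, ?_, ?_, ?_, ?_, ?_, ?_, ?_⟩, ?_, ?_⟩
  · calc u * p * u * (u * p * u) = u * (p * u * u * p) * u := by simp only [mul_assoc]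
      _ = u * p * u := by rw [huu]
  · rw [← mul_assoc, ← mul_assoc, h3, zero_mul]
  · rw [mul_assoc, mul_assoc, ← mul_assoc p, h3, mul_zero]
  · exact hsq
  · rw [← mul_assoc, ← mul_assoc, h4]
  · rw [mul_assoc, mul_assoc, ← mul_assoc p, h5]
  · rw [← mul_assoc, ← mul_assoc, h4, add_comm, ← hup]
  · rw [← mul_assoc, ← mul_assoc, ← h2]
  · rw [mul_assoc, mul_assoc, ← mul_assoc p, ← h1, ← mul_assoc]

namespace Sw

variable {p u p₁ : A} (B : Sw p u p₁)
include B

theorem ppa (x : A) : p * (p * x) = p * x := by rw [← mul_assoc, B.pp]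
theorem qqa (x : A) : p₁ * (p₁ * x) = p₁ * x := by rw [← mul_assoc, B.qq]
theorem pqa (x : A) : p * (p₁ * x) = 0 := by rw [← mul_assoc, B.pq, zero_mul]
theorem qpa (x : A) : p₁ * (p * x) = 0 := by rw [← mul_assoc, B.qp, zero_mul]
theorem uua (x : A) : u * (u * x) = p * x + p₁ * x := by rw [← mul_assoc, B.uu, add_mul]
theorem pua (x : A) : p * (u * x) = u * (p₁ * x) := by rw [← mul_assoc, B.pu, mul_assoc]
theorem qua (x : A) : p₁ * (u * x) = u * (p * x) := by rw [← mul_assoc, B.qu, mul_assoc]
theorem symm : Sw p₁ u p := ⟨B.qq, B.pp, B.qp, B.pq, by rw [B.uu, add_comm], B.qu, B.pu, by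
  rw [add_comm, B.u1]⟩
theorem upu : u * p * u = p₁ := by
  rw [← B.qu, mul_assoc, B.uu, mul_add, B.qp, B.qq, zero_add]
theorem ue {e : A} (hpe : p * e = 0) (hqe : p₁ * e = 0) : u * e = 0 := by
  rw [← B.u1, add_mul, mul_assoc, mul_assoc, hpe, hqe, mul_zero, add_zero]
theorem eu {e : A} (hep : e * p = 0) (heq : e * p₁ = 0) : e * u = 0 := by
  have h : u = p * u + p₁ * u := by rw [B.pu, B.qu, add_comm, B.u1]
  rw [h, mul_add, ← mul_assoc, ← mul_assoc, hep, heq, zero_mul, add_zero]

end Sw

end Ring

namespace JD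

variable {q : V →ₗ[K] V →ₗ[K] K} {f : Module.End K V} {J : Submodule K (Module.End K V)}
  {p : Module.End K V}

section Ex

variable (H : JD q f J)
include H

/-- existence of a connecting element -/
theorem exists_u [IsAlgClosed K] [FiniteDimensional K V] (hp : p ∈ J) (hpp : p * p = p)
    (hprim : ∀ a ∈ J, ∃ l : K, p * a * p = l • p) {e : Module.End K V} (he : e ∈ J)
    (hee : e * e = e) (hpe : p * e = 0) (hep : e * p = 0)
    (hw : ∃ w ∈ J, p * w * e + e * w * p ≠ 0) :
    ∃ u ∈ J, u = p * u * e + e * u * p ∧ p * u * u * p = p := by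
  have hmem : ∀ w ∈ J, p * w * e + e * w * p ∈ J := fun w hw => H.trip hp hw he
  have hfix : ∀ w, p * (p * w * e + e * w * p) * e + e * (p * w * e + e * w * p) * p =
      p * w * e + e * w * p := by
    intro w
    have h1 : ∀ x, p * (p * x) = p * x := fun x => by rw [← mul_assoc, hpp]
    have h2 : ∀ x, e * (e * x) = e * x := fun x => by rw [← mul_assoc, hee]
    have h3 : ∀ x, p * (e * x) = 0 := fun x => by rw [← mul_assoc, hpe, zero_mul]
    have h4 : ∀ x, e * (p * x) = 0 := fun x => by rw [← mul_assoc, hep, zero_mul]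
    simp only [mul_add, add_mul, mul_assoc, h1, h2, h3, h4, hpp, hee, hpe, hep, add_zero,
      zero_add]
  by_contra hcon
  push Not at hcon
  have hz : ∀ w ∈ J, p * ((p * w * e + e * w * p) * (p * w * e + e * w * p)) * p = 0 := by
    intro w hw
    obtain ⟨l, hl⟩ := hprim _ (H.sq (hmem w hw))
    rw [hl]
    by_cases h0 : l = 0
    · rw [h0, zero_smul]
    exfalso
    obtain ⟨s, hs⟩ := IsAlgClosed.exists_pow_nat_eq l (n := 2) (by norm_num)
    have hs0 : s ≠ 0 := by
      rintro rfl
      exact h0 (by rw [← hs]; ring)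
    refine hcon (s⁻¹ • (p * w * e + e * w * p)) (J.smul_mem _ (hmem w hw)) ?_ ?_
    · simp only [mul_smul_comm, smul_mul_assoc]
      rw [← smul_add, hfix]
    · simp only [mul_smul_comm, smul_mul_assoc]
      rw [smul_smul]
      have : p * (p * w * e + e * w * p) * (p * w * e + e * w * p) * p = l • p := by
        rw [← hl]
        simp only [mul_assoc]
      rw [this, smul_smul, ← hs, show s⁻¹ * s⁻¹ * s ^ 2 = 1 by field_simp, one_smul]
  obtain ⟨w, hw, hw0⟩ := hw
  apply hw0
  refine H.tr _ (hmem w hw) fun b hb => ?_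
  have h1 := hz (w + b) (J.add_mem hw hb)
  have h2 := hz w hw
  have h3 := hz b hb
  have h4 : p * ((p * w * e + e * w * p) * (p * b * e + e * b * p) +
      (p * b * e + e * b * p) * (p * w * e + e * w * p)) * p = 0 := by
    have e1 : p * (w + b) * e + e * (w + b) * p =
        (p * w * e + e * w * p) + (p * b * e + e * b * p) := by noncomm_ring
    rw [e1] at h1
    set x := p * w * e + e * w * p
    set y := p * b * e + e * b * p
    have e2 : p * ((x + y) * (x + y)) * p = p * (x * x) * p + p * (y * y) * p +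
        p * (x * y + y * x) * p := by noncomm_ring
    rw [e2, h2, h3, zero_add, zero_add] at h1
    exact h1
  have g1 : ∀ x, p * (p * x) = p * x := fun x => by rw [← mul_assoc, hpp]
  have g2 : ∀ x, e * (e * x) = e * x := fun x => by rw [← mul_assoc, hee]
  have g3 : ∀ x, p * (e * x) = 0 := fun x => by rw [← mul_assoc, hpe, zero_mul]
  have g4 : ∀ x, e * (p * x) = 0 := fun x => by rw [← mul_assoc, hep, zero_mul]
  simp only [mul_add, add_mul, mul_assoc, g1, g2, g3, g4, hpp, hee, hpe, hep, add_zero,
    zero_add, mul_zero] at h4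
  have h5 := congrArg (LinearMap.trace K V) h4
  rw [map_add, map_zero] at h5
  rw [add_mul, map_add]
  have t1 : LinearMap.trace K V (p * w * e * b) = LinearMap.trace K V (p * (w * (e * (b * p)))) := by
    have : p * (w * (e * (b * p))) = p * w * e * b * p := by simp only [mul_assoc]
    rw [this, LinearMap.trace_mul_comm K (p * w * e * b) p]
    simp only [mul_assoc, g1]
  have t2 : LinearMap.trace K V (e * w * p * b) = LinearMap.trace K V (p * (b * (e * (w * p)))) := by
    have : p * (b * (e * (w * p))) = p * b * (e * w * p) := by simp only [mul_assoc]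
    rw [this, LinearMap.trace_mul_comm K (p * b) (e * w * p)]
    simp only [mul_assoc, g1]
  rw [t1, t2]
  exact h5

end Ex

end JD

end Pool.Agent.Tube
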