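import Pool.Agent.Tube.Alt
import Pool.Agent.OddRank.Alg
import Pool.Agent.OddRank.TraceND
import Pool.Agent.OddRank.Symp

/-!
# Irreducible symplectic Lie algebras of tube type
-/

set_option autoImplicit false
set_option linter.unusedSectionVars false

namespace Pool.Agent.Tube

open Pool.Agent.OddRank

variable {K V : Type*} [Field K] [CharZero K] [AddCommGroup V] [Module K V]

/-- the part of degree one -/
def gp (g : Submodule K (Module.End K V)) (e : Module.End K V) : Submodule K (Module.End K V) where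
  carrier := {a | a ∈ g ∧ e * a = a ∧ a * e = 0}
  add_mem' := fun {a b} ha hb => ⟨g.add_mem ha.1 hb.1, by rw [mul_add, ha.2.1, hb.2.1], by
    rw [add_mul, ha.2.2, hb.2.2, add_zero]⟩
  zero_mem' := ⟨g.zero_mem, mul_zero _, zero_mul _⟩
  smul_mem' := fun c a ha => ⟨g.smul_mem c ha.1, by rw [mul_smul_comm, ha.2.1], by
    rw [smul_mul_assoc, ha.2.2, smul_zero]⟩

/-- the part of degree minus one -/
def gm (g : Submodule K (Module.End K V)) (e : Module.End K V) : Submodule K (Module.End K V) where
  carrier := {a | a ∈ g ∧ e * a = 0 ∧ a * e = a}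
  add_mem' := fun {a b} ha hb => ⟨g.add_mem ha.1 hb.1, by rw [mul_add, ha.2.1, hb.2.1, add_zero],
    by rw [add_mul, ha.2.2, hb.2.2]⟩
  zero_mem' := ⟨g.zero_mem, mul_zero _, zero_mul _⟩
  smul_mem' := fun c a ha => ⟨g.smul_mem c ha.1, by rw [mul_smul_comm, ha.2.1, smul_zero], by
    rw [smul_mul_assoc, ha.2.2]⟩

theorem mem_gp {g : Submodule K (Module.End K V)} {e a : Module.End K V} :
    a ∈ gp g e ↔ a ∈ g ∧ e * a = a ∧ a * e = 0 := Iff.rfl

theorem mem_gm {g : Submodule K (Module.End K V)} {e a : Module.End K V} :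
    a ∈ gm g e ↔ a ∈ g ∧ e * a = 0 ∧ a * e = a := Iff.rfl

/-- the Jordan algebra of `x` -/
def JJ (g : Submodule K (Module.End K V)) (e x : Module.End K V) :
    Submodule K (Module.End K V) where
  carrier := {a | (1 - e) * a = a ∧ a * (1 - e) = a ∧ x * a ∈ g}
  add_mem' := fun {a b} ha hb => ⟨by rw [mul_add, ha.1, hb.1], by rw [add_mul, ha.2.1, hb.2.1], by
    rw [mul_add]; exact g.add_mem ha.2.2 hb.2.2⟩
  zero_mem' := ⟨mul_zero _, zero_mul _, by rw [mul_zero]; exact g.zero_mem⟩
  smul_mem' := fun c a ha => ⟨by rw [mul_smul_comm, ha.1], by rw [smul_mul_assoc, ha.2.1], by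
    rw [mul_smul_comm]; exact g.smul_mem _ ha.2.2⟩

theorem mem_JJ {g : Submodule K (Module.End K V)} {e x a : Module.End K V} :
    a ∈ JJ g e x ↔ (1 - e) * a = a ∧ a * (1 - e) = a ∧ x * a ∈ g := Iff.rfl

/-- the assumptions: a Lie algebra of symplectic similitudes, graded by the idempotent `e` of
multiplier one -/
structure GD (ψ : V →ₗ[K] V →ₗ[K] K) (g : Submodule K (Module.End K V)) (e : Module.End K V) :
    Prop where
  halt : ∀ x, ψ x x = 0
  hnd : ∀ x, (∀ y, ψ x y = 0) → x = 0
  hlie : ∀ a ∈ g, ∀ b ∈ g, a * b - b * a ∈ g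
  hgsp : ∀ x ∈ g, ∃ κ : K, ∀ u v, ψ (x u) v + ψ u (x v) = κ * ψ u v
  hee : e * e = e
  heψ : ∀ u v, ψ (e u) v + ψ u (e v) = ψ u v
  heg : ∀ a ∈ g, e * a - a * e ∈ g

namespace GD

variable {ψ : V →ₗ[K] V →ₗ[K] K} {g : Submodule K (Module.End K V)} {e : Module.End K V}
  (H : GD ψ g e)
include H

theorem neg (x y : V) : ψ x y = -ψ y x := by
  have := H.halt (x + y)
  simp only [map_add, LinearMap.add_apply, H.halt, zero_add, add_zero] at this
  linear_combination this

theorem iso1 (u v : V) : ψ (e u) (e v) = 0 := by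
  have h := H.heψ (e u) (e v)
  rw [← Module.End.mul_apply, ← Module.End.mul_apply, H.hee] at h
  linear_combination h

theorem iso0 (u v : V) : ψ (u - e u) (v - e v) = 0 := by
  have h := H.heψ u v
  have h2 := H.iso1 u v
  simp only [map_sub, LinearMap.sub_apply]
  linear_combination h2 - h

/-- elements of degree one are skew -/
theorem skew1 {a : Module.End K V} (ha : a ∈ gp g e) (u v : V) : ψ (a u) v + ψ u (a v) = 0 := by
  obtain ⟨h1, h2, h3⟩ := ha
  obtain ⟨κ, hκ⟩ := H.hgsp a h1
  rw [hκ]
  by_cases h0 : κ = 0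
  · rw [h0, zero_mul]
  have h4 : ∀ s t, ψ s (e t) = 0 := by
    intro s t
    have h5 := hκ s (e t)
    rw [← Module.End.mul_apply a e, h3, LinearMap.zero_apply, map_zero, add_zero, ← h2,
      Module.End.mul_apply, H.iso1] at h5
    exact (mul_eq_zero.1 h5.symm).resolve_left h0
  have h5 := H.heψ u v
  rw [H.neg (e u), h4, h4, neg_zero, add_zero] at h5
  rw [← h5, mul_zero]

theorem skewm {a : Module.End K V} (ha : a ∈ gm g e) (u v : V) : ψ (a u) v + ψ u (a v) = 0 := by
  obtain ⟨h1, h2, h3⟩ := ha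
  obtain ⟨κ, hκ⟩ := H.hgsp a h1
  rw [hκ]
  by_cases h0 : κ = 0
  · rw [h0, zero_mul]
  have h4 : ∀ s t, ψ s (t - e t) = 0 := by
    intro s t
    have h5 := hκ s (t - e t)
    rw [map_sub a, ← Module.End.mul_apply a e, h3, sub_self, map_zero, add_zero] at h5
    have h6 : a s = a s - e (a s) := by
      rw [← Module.End.mul_apply e a, h2, LinearMap.zero_apply, sub_zero]
    rw [h6, H.iso0] at h5
    exact (mul_eq_zero.1 h5.symm).resolve_left h0
  have h5 := H.heψ u v
  have h6 := h4 u v
  have h7 := h4 v u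
  rw [map_sub] at h6 h7
  have h8 : ψ u v = 0 := by
    linear_combination H.neg u v - h7 - H.neg (e u) v + h5 + h6
  rw [h8, mul_zero]

theorem f_mem (a : Module.End K V) (ha : a ∈ g) : (1 - e) * a * e ∈ gm g e := by
  refine ⟨?_, ?_, ?_⟩
  · exact deg_neg_mem H.hee H.heg ha
  · rw [← mul_assoc, ← mul_assoc, mul_sub, mul_one, H.hee, sub_self, zero_mul, zero_mul]
  · rw [mul_assoc, H.hee]

/-- the polarised quadratic operator -/
theorem quad {a b c : Module.End K V} (ha : a ∈ gp g e) (hb : b ∈ g) (hc : c ∈ gp g e) :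
    a * b * c + c * b * a ∈ g := by
  have h1 := H.hlie _ (H.hlie a ha.1 b hb) c hc.1
  have h2 : a * c = 0 := by rw [← hc.2.1, ← mul_assoc, ha.2.2, zero_mul]
  have h3 : c * a = 0 := by rw [← ha.2.1, ← mul_assoc, hc.2.2, zero_mul]
  have h4 : (a * b - b * a) * c - c * (a * b - b * a) = a * b * c + c * b * a -
      b * (a * c) - (c * a) * b := by noncomm_ring
  rw [h4, h2, h3, mul_zero, zero_mul, sub_zero, sub_zero] at h1
  exact h1

variable [IsAlgClosed K] [FiniteDimensional K V] {x : Module.End K V} (hx : x ∈ gp g e)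
  (hinj : ∀ v, e v = 0 → x v = 0 → v = 0)
  (hirr : ∀ W : Submodule K V, (∀ a ∈ gp g e, ∀ w ∈ W, a w ∈ W) →
    (∀ a ∈ gm g e, ∀ w ∈ W, a w ∈ W) → W = ⊥ ∨ W = ⊤)
include hx hinj hirr

theorem exists_inv [Nontrivial V] : ∃ y ∈ gm g e, y * x = 1 - e ∧ x * y = e := by
  have hnd := trace_nondeg g H.hlie fun W hW =>
    hirr W (fun a ha => hW a ha.1) (fun a ha => hW a ha.1)
  have hex := hx.2.1
  have hxe := hx.2.2
  -- injectivity of left multiplication by `x`
  have hxl : ∀ b : Module.End K V, e * b = 0 → x * b = 0 → b = 0 := by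
    intro b h1 h2
    ext v
    exact hinj _ (LinearMap.congr_fun h1 v) (LinearMap.congr_fun h2 v)
  -- skewness of `x b` and `b x`
  have hadj : ∀ b ∈ gm g e, ∀ u v, ψ (b (x u)) v = ψ u (x (b v)) := by
    intro b hb u v
    have h1 := H.skewm hb (x u) v
    have h2 := H.skew1 hx u (b v)
    linear_combination h1 - h2
  -- the quadratic operator
  let Q : Module.End K V →ₗ[K] Module.End K V :=
    (LinearMap.mulLeft K x).comp (LinearMap.mulRight K x)
  have hQ : ∀ b, Q b = x * (b * x) := fun b => rfl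
  have hQmem : ∀ b ∈ gm g e, Q b ∈ gp g e := by
    intro b hb
    rw [hQ]
    refine ⟨?_, by rw [← mul_assoc, hex], by rw [mul_assoc, mul_assoc, hxe, mul_zero, mul_zero]⟩
    have h1 := H.quad hx hb.1 hx
    rw [mul_assoc] at h1
    exact JD.half_mem h1
  have hQinj : ∀ b ∈ gm g e, Q b = 0 → b = 0 := by
    intro b hb h
    rw [hQ] at h
    have h1 : b * x = 0 := hxl _ (by rw [← mul_assoc, hb.2.1, zero_mul]) h
    refine hxl b hb.2.1 ?_
    ext v
    rw [LinearMap.zero_apply, Module.End.mul_apply]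
    apply H.hnd
    intro u
    rw [H.neg, ← hadj b hb, ← Module.End.mul_apply b x, h1, LinearMap.zero_apply, map_zero,
      LinearMap.zero_apply, neg_zero]
  -- the pairing
  have hpair : Module.finrank K (gp g e) ≤ Module.finrank K (gm g e) := by
    let P : gp g e →ₗ[K] Module.Dual K (gm g e) :=
      { toFun := fun a => (LinearMap.trace K V).comp
          ((LinearMap.mulLeft K (a : Module.End K V)).comp (gm g e).subtype)
        map_add' := fun a b => by
          ext c
          simp [add_mul]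
        map_smul' := fun c a => by
          ext b
          simp }
    have hP : ∀ a b, P a b = LinearMap.trace K V ((a : Module.End K V) * b) := fun a b => rfl
    have hPinj : Function.Injective P := by
      rw [injective_iff_map_eq_zero]
      rintro ⟨a, ha⟩ h
      ext1
      refine hnd a ha.1 fun c hc => ?_
      have h1 := LinearMap.congr_fun h ⟨_, H.f_mem c hc⟩
      rw [hP, LinearMap.zero_apply] at h1
      have h2 : LinearMap.trace K V (a * c) = LinearMap.trace K V (a * ((1 - e) * c * e)) := by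
        have h3 : a * (1 - e) = a := by rw [mul_sub, mul_one, ha.2.2, sub_zero]
        rw [← mul_assoc, ← mul_assoc, h3, LinearMap.trace_mul_comm K (a * c) e, ← mul_assoc,
          ha.2.1]
      rw [h2]
      exact h1
    have h1 := LinearMap.finrank_le_finrank_of_injective hPinj
    rwa [Subspace.dual_finrank_eq] at h1
  have hsurj : (gm g e).map Q = gp g e := by
    refine Submodule.eq_of_le_of_finrank_le ?_ ?_
    · rintro _ ⟨b, hb, rfl⟩
      exact hQmem b hb
    · have h1 : Module.finrank K ((gm g e).map Q) = Module.finrank K (gm g e) := by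
        have h2 : LinearMap.range (Q.comp (gm g e).subtype) = (gm g e).map Q := by
          rw [LinearMap.range_comp, Submodule.range_subtype]
        rw [← h2]
        refine LinearMap.finrank_range_of_inj ?_
        rw [injective_iff_map_eq_zero]
        rintro ⟨b, hb⟩ h3
        ext1
        exact hQinj b hb h3
      rw [h1]
      exact hpair
  rw [← hsurj] at hx
  obtain ⟨y, hy, hyx⟩ := hx
  have h1 : y * x = 1 - e := by
    rw [← sub_eq_zero]
    refine hxl _ ?_ ?_
    · rw [mul_sub, ← mul_assoc, hy.2.1, zero_mul, mul_sub, mul_one, H.hee, sub_self, sub_zero]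
    · rw [mul_sub, mul_sub, mul_one, hxe, sub_zero, sub_eq_zero]
      exact hyx
  refine ⟨y, hy, h1, ?_⟩
  ext v
  rw [← sub_eq_zero]
  apply H.hnd
  intro u
  have h2 := hadj y hy u v
  rw [← Module.End.mul_apply y x, h1, LinearMap.sub_apply, Module.End.one_apply, map_sub,
    LinearMap.sub_apply] at h2
  have h3 := H.heψ u v
  rw [H.neg, map_sub, Module.End.mul_apply]
  linear_combination h2 + h3

end GD

end Pool.Agent.Tube
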