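import Pool.Agent.Tube.Coord

/-!
# Jordan algebras of selfadjoint operators: at least three orthogonal idempotents
-/

set_option autoImplicit false
set_option linter.unusedSectionVars false

namespace Pool.Agent.Tube

variable {K V : Type*} [Field K] [CharZero K] [AddCommGroup V] [Module K V]

section Ring

variable {A : Type*} [Ring A] {p u p₁ e : A}

/-- the relations for a third idempotent -/
structure Third (p u p₁ e : A) : Prop where
  sw : Sw p u p₁
  ee : e * e = e
  pe : p * e = 0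
  ep : e * p = 0
  qe : p₁ * e = 0
  eq : e * p₁ = 0

namespace Third

variable (B : Third p u p₁ e)
include B

theorem ue : u * e = 0 := B.sw.ue B.pe B.qe
theorem eu : e * u = 0 := B.sw.eu B.ep B.eq
theorem eea (x : A) : e * (e * x) = e * x := by rw [← mul_assoc, B.ee]
theorem pea (x : A) : p * (e * x) = 0 := by rw [← mul_assoc, B.pe, zero_mul]
theorem epa (x : A) : e * (p * x) = 0 := by rw [← mul_assoc, B.ep, zero_mul]
theorem qea (x : A) : p₁ * (e * x) = 0 := by rw [← mul_assoc, B.qe, zero_mul]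
theorem eqa (x : A) : e * (p₁ * x) = 0 := by rw [← mul_assoc, B.eq, zero_mul]
theorem uea (x : A) : u * (e * x) = 0 := by rw [← mul_assoc, B.ue, zero_mul]
theorem eua (x : A) : e * (u * x) = 0 := by rw [← mul_assoc, B.eu, zero_mul]

end Third

end Ring

namespace JD

variable {q : V →ₗ[K] V →ₗ[K] K} {f : Module.End K V} {J : Submodule K (Module.End K V)}
  {p u p₁ e : Module.End K V}

theorem third_of (H : JD q f J) (hp : p ∈ J) (hp1 : p₁ ∈ J) (B : Sw p u p₁) :
    Third p u p₁ (f - p - p₁) where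
  sw := B
  ee := by
    have h1 : (f - p - p₁) * (f - p - p₁) = f * f - f * p - f * p₁ - p * f + p * p + p * p₁
      - p₁ * f + p₁ * p + p₁ * p₁ := by noncomm_ring
    rw [h1, H.ff, H.fa p hp, H.fa p₁ hp1, H.af p hp, H.af p₁ hp1, B.pp, B.pq, B.qp, B.qq]
    abel
  pe := by rw [mul_sub, mul_sub, H.af p hp, B.pp, B.pq, sub_self, sub_zero]
  ep := by rw [sub_mul, sub_mul, H.fa p hp, B.pp, B.qp, sub_self, sub_zero]
  qe := by rw [mul_sub, mul_sub, H.af p₁ hp1, B.qp, B.qq, sub_zero, sub_self]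
  eq := by rw [sub_mul, sub_mul, H.fa p₁ hp1, B.pq, B.qq, sub_zero, sub_self]

section

variable (H : JD q f J) (hp : p ∈ J) (hprim : ∀ a ∈ J, ∃ l : K, p * a * p = l • p)
  (hu : u ∈ J) (T : Third p u p₁ e) (he : e ∈ J)
include H hp hprim hu T he

/-- a second connecting element -/
theorem exists_u2 [IsAlgClosed K] [FiniteDimensional K V] (hp0 : p ≠ 0) (he0 : e ≠ 0)
    (hf : f = p + p₁ + e) :
    ∃ v ∈ J, v = p * v * e + e * v * p ∧ p * v * v * p = p := by
  refine H.exists_u hp T.sw.pp hprim he T.ee T.pe T.ep ?_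
  by_contra hcon
  push Not at hcon
  have hp1 := H.p1_mem hp hprim hu T.sw
  have h1 : ∀ w ∈ J, p * w * e = 0 ∧ e * w * p = 0 := by
    intro w hw
    have h2 := hcon w hw
    constructor
    · have h3 := congrArg (fun x => p * x) h2
      simpa only [mul_add, mul_assoc, T.sw.ppa, T.pea, add_zero, mul_zero] using h3
    · have h3 := congrArg (fun x => e * x) h2
      simpa only [mul_add, mul_assoc, T.eea, T.epa, zero_add, mul_zero] using h3
  have h2 : ∀ w ∈ J, p₁ * w * e = 0 ∧ e * w * p₁ = 0 := by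
    intro w hw
    have h3 := h1 _ (H.jor w hw u hu)
    constructor
    · have h4 : p₁ * w * e = u * (p * (w * u + u * w) * e) := by
        rw [← T.sw.upu]
        simp only [mul_add, add_mul, mul_assoc, T.ue, mul_zero, zero_add]
      rw [h4, h3.1, mul_zero]
    · have h4 : e * w * p₁ = (e * (w * u + u * w) * p) * u := by
        rw [← T.sw.upu]
        simp only [mul_add, add_mul, mul_assoc, T.eua, add_zero]
      rw [h4, h3.2, zero_mul]
  -- the range of `p + p₁` is stable
  have h3 : ∀ w ∈ J, w * (p + p₁) = (p + p₁) * (w * (p + p₁)) := by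
    intro w hw
    have h4 : w * (p + p₁) = f * (w * (p + p₁)) := by rw [← mul_assoc, H.fa w hw]
    have h5 : e * (w * (p + p₁)) = 0 := by
      rw [mul_add, mul_add, ← mul_assoc, ← mul_assoc, (h1 w hw).2, (h2 w hw).2, add_zero]
    conv_lhs => rw [h4, hf, add_mul (p + p₁) e, h5, add_zero]
  have h4 := H.irr (LinearMap.range (p + p₁)) (by
    rintro _ ⟨x, rfl⟩
    have h5 : f * (p + p₁) = p + p₁ := by rw [mul_add, H.fa p hp, H.fa p₁ hp1]
    rw [← h5]
    exact ⟨(p + p₁) x, rfl⟩) (by
    rintro w hw _ ⟨x, rfl⟩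
    rw [← Module.End.mul_apply, h3 w hw]
    exact ⟨(w * (p + p₁)) x, rfl⟩)
  rcases h4 with h | h
  · rw [LinearMap.range_eq_bot] at h
    apply hp0
    have h5 : p * (p + p₁) = p := by rw [mul_add, T.sw.pp, T.sw.pq, add_zero]
    rw [h, mul_zero] at h5
    exact h5.symm
  · apply he0
    ext x
    have h5 : f x ∈ LinearMap.range (p + p₁) := by rw [h]; exact ⟨x, rfl⟩
    obtain ⟨y, hy⟩ := h5
    have h6 : e * (p + p₁) = 0 := by rw [mul_add, T.ep, T.eq, add_zero]
    rw [LinearMap.zero_apply, ← H.af e he, Module.End.mul_apply, ← hy, ← Module.End.mul_apply, h6,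
      LinearMap.zero_apply]

/-- the coordinate space is an algebra -/
theorem DD_mul {v : Module.End K V} (hv : v ∈ J) (hve : v = p * v * e + e * v * p)
    (hvv : p * v * v * p = p) {d d' : Module.End K V} (hd : d ∈ DD p u J)
    (hd' : d' ∈ DD p u J) : d * d' ∈ DD p u J := by
  have hp1 := H.p1_mem hp hprim hu T.sw
  have B := T.sw
  obtain ⟨B2, hB1, hB2⟩ := sw_of B.pp T.ee T.pe T.ep hve hvv
  set p₂ := v * p * v with hp2
  -- relations for `v`
  have h1v : p₁ * v = 0 := B2.symm.eu (by rw [← hB1, ← mul_assoc, T.qe, zero_mul]) T.sw.qp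
  have hv1 : v * p₁ = 0 := B2.symm.ue (by rw [← hB2, mul_assoc, T.eq, mul_zero]) T.sw.pq
  have hup2 : u * p₂ = 0 := by rw [← hB1, ← mul_assoc, T.ue, zero_mul]
  have hp2u : p₂ * u = 0 := by rw [← hB2, mul_assoc, T.eu, mul_zero]
  have hpv : p * v = v * p₂ := B2.pu
  have h1va : ∀ x, p₁ * (v * x) = 0 := fun x => by rw [← mul_assoc, h1v, zero_mul]
  have hv1a : ∀ x, v * (p₁ * x) = 0 := fun x => by rw [← mul_assoc, hv1, zero_mul]
  have hpvp : ∀ x, p * (v * (p * x)) = 0 := fun x => by
    rw [← mul_assoc, hpv, mul_assoc, B2.qpa, mul_zero]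
  have hpup : ∀ x, p * (u * (p * x)) = 0 := fun x => by
    rw [← mul_assoc, B.pu, mul_assoc, B.qpa, mul_zero]
  have hpvv : ∀ x, p * (v * (v * x)) = p * x := fun x => by
    rw [← mul_assoc v, B2.uu, add_mul, mul_add, B.ppa, ← mul_assoc p p₂, B2.pq, zero_mul,
      add_zero]
  have hpuv : ∀ x, p * (u * (v * x)) = 0 := fun x => by
    rw [← mul_assoc, B.pu, mul_assoc, h1va, mul_zero]
  -- the key
  have key : ∀ w ∈ J, ∀ w' ∈ J, (p * u * w' * p) * (p * w * u * p) ∈ DD p u J := by
    intro w hw w' hw'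
    have hc : p₁ * w * p + p * w * p₁ ∈ J := H.trip hp1 hw hp
    have hc' : p₁ * w' * p + p * w' * p₁ ∈ J := H.trip hp1 hw' hp
    have hn := H.jor _ hc _ hv
    have hz := H.jor _ hc' _ hv
    have hm := H.jor _ hu _ hz
    have hk := H.jor _ hm _ hn
    refine mem_DD.2 ⟨_, hk, ?_⟩
    have hz1 : (p₁ * w' * p + p * w' * p₁) * v + v * (p₁ * w' * p + p * w' * p₁) =
        p₁ * w' * p * v + v * p * w' * p₁ := by
      simp only [add_mul, mul_add, mul_assoc, h1v, hv1a, mul_zero, add_zero, zero_add]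
    have hn1 : (p₁ * w * p + p * w * p₁) * v + v * (p₁ * w * p + p * w * p₁) =
        p₁ * w * p * v + v * p * w * p₁ := by
      simp only [add_mul, mul_add, mul_assoc, h1v, hv1a, mul_zero, add_zero, zero_add]
    have hm1 : u * (p₁ * w' * p * v + v * p * w' * p₁) +
        (p₁ * w' * p * v + v * p * w' * p₁) * u = p * u * w' * p * v + v * p * w' * u * p := by
      have e1 : u * (v * (p * (w' * p₁))) = 0 := by
        rw [← mul_assoc v, ← B2.qu, mul_assoc p₂, ← mul_assoc u, hup2, zero_mul]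
      have e2 : p * (v * u) = 0 := by rw [← mul_assoc, hpv, mul_assoc, hp2u, mul_zero]
      have e3 : ∀ x, u * (p₁ * x) = p * (u * x) := fun x => by rw [← mul_assoc, ← B.pu, mul_assoc]
      have e4 : p₁ * u = u * p := B.qu
      simp only [add_mul, mul_add, mul_assoc, e1, e2, e3, e4, mul_zero, add_zero, zero_add]
    rw [hz1, hn1, hm1]
    have e5 : p * (p₁ * w * p * v + v * p * w * p₁) = 0 := by
      simp only [mul_add, mul_assoc, B.pqa, hpvp, add_zero]
    have e6 : (p * u * w' * p * v + v * p * w' * u * p) * (p₁ * w * p * v + v * p * w * p₁) =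
        p * u * w' * p * w * p₁ := by
      simp only [add_mul, mul_add, mul_assoc, B.pqa, hpvp, hpvv, hv1a, mul_zero, add_zero,
        zero_add, B.ppa]
    rw [e6, mul_add, ← mul_assoc p (p₁ * w * p * v + v * p * w * p₁), e5, zero_mul, add_zero]
    simp only [mul_assoc, B.ppa]
    rw [← B.qu, B.qqa]
  obtain ⟨κ, h1, _, _⟩ := H.DD_star hp hprim hu B hd
  obtain ⟨w, hw, hwd⟩ := mem_DD.1 hd
  obtain ⟨w', hw', hwd'⟩ := mem_DD.1 hd'
  obtain ⟨κ, hκ⟩ := hprim _ (H.jor w hw u hu)
  have h2 : d * d' = κ • d' - (p * u * w * p) * (p * w' * u * p) := by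
    have h3 : p * u * w * p = κ • p - d := by
      rw [← hwd, ← hκ]
      noncomm_ring
    rw [h3, hwd', sub_mul, smul_mul_assoc, DD_l B.pp hd', sub_sub_cancel]
  rw [h2]
  exact Submodule.sub_mem _ (Submodule.smul_mem _ _ hd') (key w' hw' w hw)

/-- the third Peirce component -/
theorem DD_third {a b : Module.End K V} (ha : a ∈ J) (hb : b ∈ J) :
    p * b * e * a * p ∈ DD p u J := by
  have B := T.sw
  have hb2 : p * b * e + e * b * p ∈ J := H.trip hp hb he
  have ha2 : p * a * e + e * a * p ∈ J := H.trip hp ha he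
  have hz := H.jor _ ha2 _ hu
  have hk := H.jor _ hb2 _ hz
  refine mem_DD.2 ⟨_, hk, ?_⟩
  have hpup : ∀ x, p * (u * (p * x)) = 0 := fun x => by
    rw [← mul_assoc, B.pu, mul_assoc, B.qpa, mul_zero]
  have hpuu : ∀ x, p * (u * (u * x)) = p * x := fun x => by
    rw [← mul_assoc u, B.uu, add_mul, mul_add, B.ppa, B.pqa, add_zero]
  have h1 : (p * a * e + e * a * p) * u + u * (p * a * e + e * a * p) =
      e * a * p * u + u * p * a * e := by
    simp only [add_mul, mul_add, mul_assoc, T.eu, T.uea, mul_zero, add_zero, zero_add]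
  rw [h1]
  have h2 : (p * b * e + e * b * p) * (e * a * p * u + u * p * a * e) =
      p * b * e * a * p * u := by
    simp only [add_mul, mul_add, mul_assoc, T.eua, T.pea, T.eea, hpup, mul_zero, add_zero]
  have h3 : p * ((e * a * p * u + u * p * a * e) * (p * b * e + e * b * p)) = 0 := by
    simp only [add_mul, mul_add, mul_assoc, T.pea, hpup, add_zero]
  rw [mul_add, h2, h3, add_zero]
  simp only [mul_assoc, B.ppa, hpuu, B.pp]

end

end JD

end Pool.Agent.Tube
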